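import Pool.Agent.K4H88.Tur.Moments

/-!
# The barrier argument
-/

set_option linter.unusedSectionVars false

open Finset
open scoped Classical

namespace Pool.Agent.K4H88.Tur

/-- the defect of a barrier function -/
noncomputable def KB (φ φ' : ℝ → ℝ) (v : ℝ) : ℝ :=
  5 / 6 * (v * φ' v) ^ 2 + (1 - φ v) * (4 * φ v + v * φ' v) / 3 - v ^ 2

structure IsBarrier (φ φ' : ℝ → ℝ) (W : ℝ) : Prop where
  deriv : ∀ v, HasDerivAt φ (φ' v) v
  cont : Continuous φ'
  pos : ∀ v, 0 < v → v < W → 0 < KB φ φ' v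
  lt_one : ∀ v, 0 ≤ v → v < W → φ v < 1
  low : ∀ v, 0 ≤ v → v < W → v ^ 2 / 2 - v ^ 4 ≤ φ v
  incr : ∀ v, 0 < v → v < W → 0 < v * φ' v

theorem pos_lower {g : ℝ → ℝ} (hg : Continuous g) {l r : ℝ}
    (h : ∀ v ∈ Set.Icc l r, 0 < g v) : ∃ κ : ℝ, 0 < κ ∧ ∀ v ∈ Set.Icc l r, κ ≤ g v := by
  rcases Set.eq_empty_or_nonempty (Set.Icc l r) with h0 | h0
  · exact ⟨1, one_pos, fun v hv => by rw [h0] at hv; exact absurd hv (Set.notMem_empty v)⟩
  · obtain ⟨m, hm, hmin⟩ := isCompact_Icc.exists_isMinOn h0 hg.continuousOn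
    exact ⟨g m, h m hm, fun v hv => hmin hv⟩

theorem upper {g : ℝ → ℝ} (hg : Continuous g) (l r : ℝ) :
    ∃ P : ℝ, 0 ≤ P ∧ ∀ v ∈ Set.Icc l r, g v ≤ P := by
  obtain ⟨P, hP⟩ := (isCompact_Icc (a := l) (b := r)).bddAbove_image hg.continuousOn
  refine ⟨max P 0, le_max_right _ _, fun v hv => ?_⟩
  exact (hP ⟨v, hv, rfl⟩).trans (le_max_left _ _)

section one
variable {V : Type} [Fintype V] [DecidableEq V]

/-- mean size at intensity `L` -/
noncomputable def nu (T : V → V → V → Prop) (L : ℝ) : ℝ :=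
  N1 T (L / Fintype.card V) / Z0 T (L / Fintype.card V)

/-- variance of the size -/
noncomputable def vr (T : V → V → V → Prop) (L : ℝ) : ℝ :=
  N2 T (L / Fintype.card V) / Z0 T (L / Fintype.card V) - nu T L ^ 2

/-- normalised `W1` -/
noncomputable def ww (T : V → V → V → Prop) (L : ℝ) : ℝ :=
  W1 T (L / Fintype.card V) / (Fintype.card V * Z0 T (L / Fintype.card V))

variable {T : V → V → V → Prop}

theorem nu_deriv (hn : 0 < (Fintype.card V : ℝ)) {L : ℝ} (hL : 0 < L) :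
    HasDerivAt (nu T) (vr T L / L) L := by
  set n : ℝ := (Fintype.card V : ℝ) with hnd
  have hl : 0 < L / n := div_pos hL hn
  have hZ := Z0_pos (T := T) hl
  have h1 := (N1_deriv (T := T) hl).div (Z0_deriv (T := T) hl) hZ.ne'
  have h2 : HasDerivAt (fun L : ℝ => L / n) (1 / n) L := (hasDerivAt_id L).div_const n
  have h3 := HasDerivAt.comp L h1 h2
  have e : (N2 T (L / n) / (L / n) * Z0 T (L / n) - N1 T (L / n) * (N1 T (L / n) / (L / n))) /
      Z0 T (L / n) ^ 2 * (1 / n) = vr T L / L := by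
    unfold vr nu
    rw [← hnd]
    field_simp
  rw [← e]
  exact h3

theorem nu_pos (hT : Sym3 T) (hn : 0 < (Fintype.card V : ℝ)) {L : ℝ} (hL : 0 < L) :
    0 < nu T L := by
  have hl : 0 < L / (Fintype.card V : ℝ) := div_pos hL hn
  have : 0 < Fintype.card V := by exact_mod_cast hn
  obtain ⟨x⟩ := Fintype.card_pos_iff.1 this
  exact div_pos (N1_pos hT hl x) (Z0_pos hl)

theorem nu_le (hn : 0 < (Fintype.card V : ℝ)) {L : ℝ} (hL : 0 < L) {a : ℝ}
    (ha : ∀ S : Finset V, Indep T S → (S.card : ℝ) ≤ a) : nu T L ≤ a := by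
  have hl : 0 < L / (Fintype.card V : ℝ) := div_pos hL hn
  unfold nu
  rw [div_le_iff₀ (Z0_pos hl)]
  exact N1_le hl ha

theorem nu_le_L (hn : 0 < (Fintype.card V : ℝ)) {L : ℝ} (hL : 0 < L) : nu T L ≤ L := by
  have hl : 0 < L / (Fintype.card V : ℝ) := div_pos hL hn
  unfold nu
  rw [div_le_iff₀ (Z0_pos hl)]
  have := N1_le_lam (T := T) hl
  calc N1 T (L / (Fintype.card V : ℝ)) ≤ L / (Fintype.card V : ℝ) *
        ((Fintype.card V : ℝ) * Z0 T (L / (Fintype.card V : ℝ))) := this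
    _ = _ := by field_simp

/-- normalised covariance inequality -/
theorem cov_norm (hn : 0 < (Fintype.card V : ℝ)) {L : ℝ} (hL : 0 < L) :
    nu T L ^ 2 ≤ vr T L * (nu T L + L * ww T L + L / Fintype.card V * nu T L) := by
  set n : ℝ := (Fintype.card V : ℝ) with hnd
  have hl : 0 < L / n := div_pos hL hn
  have hZ := Z0_pos (T := T) hl
  have h := cov_ineq (T := T) hl
  have h2 := div_le_div_of_nonneg_right h (sq_nonneg (Z0 T (L / n)))
  have e1 : N1 T (L / n) ^ 2 / Z0 T (L / n) ^ 2 = nu T L ^ 2 := by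
    unfold nu; rw [← hnd, div_pow]
  have e2 : (N2 T (L / n) - N1 T (L / n) ^ 2 / Z0 T (L / n)) *
      (N1 T (L / n) + L / n * W1 T (L / n) + L / n * N1 T (L / n)) / Z0 T (L / n) ^ 2 =
      vr T L * (nu T L + L * ww T L + L / n * nu T L) := by
    unfold vr nu ww
    rw [← hnd]
    field_simp
  rw [e1, e2] at h2
  exact h2

/-- normalised counting inequality -/
theorem count_norm (hT : Sym3 T) (hn : 0 < (Fintype.card V : ℝ)) {L : ℝ} (hL : 0 < L) {t0 : ℝ}
    (hD : ∀ v : V, ∑ x : V, ∑ y : V, ind (T v x y) ≤ t0 * (Fintype.card V : ℝ) ^ 2) :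
    4 / 3 * (nu T L / L) * (1 - nu T L / L - nu T L / Fintype.card V) +
      (nu T L / L) * ww T L / 3 + 5 / 6 * (ww T L ^ 2 - ww T L * nu T L / Fintype.card V) ≤
      nu T L ^ 2 * t0 := by
  set n : ℝ := (Fintype.card V : ℝ) with hnd
  have hl : 0 < L / n := div_pos hL hn
  have hZ := Z0_pos (T := T) hl
  have hpos : 0 < Fintype.card V := by
    have : (0 : ℝ) < (Fintype.card V : ℝ) := hn
    exact_mod_cast this
  obtain ⟨x⟩ := Fintype.card_pos_iff.1 hpos
  have hN := N1_pos hT hl x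
  have h := count_ineq (T := T) hT hl hN hD
  have hν := nu_pos (T := T) hT hn hL
  have hfac : 0 ≤ nu T L / L / (n * Z0 T (L / n)) := by positivity
  have h2 := mul_le_mul_of_nonneg_left h hfac
  have eN : N1 T (L / n) = nu T L * Z0 T (L / n) := by
    unfold nu; rw [← hnd]; field_simp
  have eW : W1 T (L / n) = n * ww T L * Z0 T (L / n) := by
    unfold ww; rw [← hnd]; field_simp
  rw [← hnd, eN, eW] at h2
  have e1 : nu T L / L / (n * Z0 T (L / n)) *
      (4 / 3 * (n * Z0 T (L / n) - nu T L * Z0 T (L / n) - nu T L * Z0 T (L / n) / (L / n)) +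
        1 / 3 * (n * ww T L * Z0 T (L / n)) +
        5 / 6 * (L / n) * ((n * ww T L * Z0 T (L / n)) ^ 2 / (nu T L * Z0 T (L / n)) -
          n * ww T L * Z0 T (L / n))) =
      4 / 3 * (nu T L / L) * (1 - nu T L / L - nu T L / n) +
      (nu T L / L) * ww T L / 3 + 5 / 6 * (ww T L ^ 2 - ww T L * nu T L / n) := by
    field_simp
    ring
  have e2 : nu T L / L / (n * Z0 T (L / n)) *
      (L / n * (nu T L * Z0 T (L / n)) * (t0 * n ^ 2)) = nu T L ^ 2 * t0 := by
    field_simp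
  rw [e1, e2] at h2
  exact h2

theorem union_norm (hT : Sym3 T) (hn : 0 < (Fintype.card V : ℝ)) {L : ℝ} (hL : 0 < L) {t0 : ℝ}
    (hD : ∀ v : V, ∑ x : V, ∑ y : V, ind (T v x y) ≤ t0 * (Fintype.card V : ℝ) ^ 2) :
    1 - nu T L / L ≤ nu T L / Fintype.card V + 1 / 2 * L ^ 2 * t0 := by
  set n : ℝ := (Fintype.card V : ℝ) with hnd
  have hl : 0 < L / n := div_pos hL hn
  have hZ := Z0_pos (T := T) hl
  have h := union_bound (T := T) hT hl hD
  have hfac : 0 ≤ 1 / (n * Z0 T (L / n)) := by positivity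
  have h2 := mul_le_mul_of_nonneg_left h hfac
  have eN : N1 T (L / n) = nu T L * Z0 T (L / n) := by
    unfold nu; rw [← hnd]; field_simp
  rw [← hnd, eN] at h2
  have e1 : 1 / (n * Z0 T (L / n)) * (n * Z0 T (L / n) - nu T L * Z0 T (L / n) / (L / n)) =
      1 - nu T L / L := by
    field_simp
  have e2 : 1 / (n * Z0 T (L / n)) * (nu T L * Z0 T (L / n) +
      1 / 2 * (L / n) ^ 2 * (n * (t0 * n ^ 2)) * Z0 T (L / n)) =
      nu T L / n + 1 / 2 * L ^ 2 * t0 := by
    field_simp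
  rw [e1, e2] at h2
  exact h2

theorem ww_nonneg (hn : 0 < (Fintype.card V : ℝ)) {L : ℝ} (hL : 0 < L) : 0 ≤ ww T L := by
  have hl : 0 < L / (Fintype.card V : ℝ) := div_pos hL hn
  exact div_nonneg (W1_nonneg hl.le) (mul_nonneg hn.le (Z0_pos hl).le)

/-- the slope comparison at a crossing point -/
theorem crossing {φ φ' : ℝ → ℝ} (hT : Sym3 T) (hn : 0 < (Fintype.card V : ℝ)) {L a t0 τ κ π₀ P : ℝ}
    (hL : 0 < L) (hτ : 0 < τ) (ht : t0 ≤ τ)
    (hS : ∀ S : Finset V, Indep T S → (S.card : ℝ) ≤ a)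
    (hD : ∀ v : V, ∑ x : V, ∑ y : V, ind (T v x y) ≤ t0 * (Fintype.card V : ℝ) ^ 2)
    (hcr : 1 - nu T L / L = φ (Real.sqrt τ * nu T L))
    (hK : κ ≤ KB φ φ' (Real.sqrt τ * nu T L))
    (hp : π₀ ≤ Real.sqrt τ * nu T L * φ' (Real.sqrt τ * nu T L)) (hπ : 0 < π₀)
    (hP : Real.sqrt τ * nu T L * φ' (Real.sqrt τ * nu T L) ≤ P)
    (h1 : a / Fintype.card V * (5 / 2 * P + 5 / 3) < κ) (h2 : 2 * a / Fintype.card V ≤ π₀) :
    nu T L < vr T L * (1 + Real.sqrt τ * L * φ' (Real.sqrt τ * nu T L)) := by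
  set n : ℝ := (Fintype.card V : ℝ) with hnd
  set s := Real.sqrt τ with hs
  set ν := nu T L with hν
  set v := s * ν with hv
  set p := v * φ' v with hpd
  set w := ww T L with hw
  have hs0 : 0 < s := Real.sqrt_pos.2 hτ
  have hs2 : s ^ 2 = τ := Real.sq_sqrt hτ.le
  have hν0 : 0 < ν := nu_pos hT hn hL
  have hνa : ν ≤ a := nu_le hn hL hS
  have hνL : ν ≤ L := nu_le_L hn hL
  have ha0 : 0 < a := lt_of_lt_of_le hν0 hνa
  by_contra hcon
  push Not at hcon
  have hc := cov_norm (T := T) hn hL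
  rw [← hν, ← hw, ← hnd] at hc
  have hVpos : 0 < vr T L := by
    by_contra hneg
    push Not at hneg
    have hw0 := ww_nonneg (T := T) hn hL
    have : vr T L * (ν + L * w + L / n * ν) ≤ 0 :=
      mul_nonpos_of_nonpos_of_nonneg hneg (by positivity)
    nlinarith [sq_pos_of_pos hν0]
  -- w ≥ p - ν / n
  have hwp : p ≤ w + ν / n := by
    have h3 : ν * (vr T L * (1 + s * L * φ' v)) ≤ ν * ν := mul_le_mul_of_nonneg_left hcon hν0.le
    have h4 : vr T L * (ν + L * p) ≤ vr T L * (ν + L * w + L / n * ν) := by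
      calc vr T L * (ν + L * p) = ν * (vr T L * (1 + s * L * φ' v)) := by
            rw [hpd, hv]; ring
        _ ≤ ν * ν := h3
        _ = ν ^ 2 := by ring
        _ ≤ _ := hc
    have h5 := le_of_mul_le_mul_left h4 hVpos
    have h6 : L * p ≤ L * (w + ν / n) := by
      have : L * (w + ν / n) = L * w + L / n * ν := by ring
      rw [this]; linarith
    exact le_of_mul_le_mul_left h6 hL
  have hcount := count_norm (T := T) hT hn hL hD
  rw [← hν, ← hw, ← hnd] at hcount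
  set x := ν / L with hx
  have hx0 : 0 < x := div_pos hν0 hL
  have hx1 : x ≤ 1 := by rw [hx, div_le_one hL]; exact hνL
  set e := a / n with he
  have he0 : 0 < e := div_pos ha0 hn
  have hνn : ν / n ≤ e := by rw [he]; exact div_le_div_of_nonneg_right hνa hn.le
  have hνn0 : 0 < ν / n := div_pos hν0 hn
  have hq : p - e ≤ w := by linarith
  have h2' : 2 * e ≤ π₀ := by
    have : 2 * a / n = 2 * e := by rw [he]; ring
    rw [← this]; exact h2
  have hqe : e ≤ p - e := by linarith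
  -- lower bound for the quadratic term
  have hquad : (p - e) * (p - e - e) ≤ w ^ 2 - w * ν / n := by
    have e1 : w ^ 2 - w * ν / n = w * (w - ν / n) := by ring
    rw [e1]
    have h7 : p - e - e ≤ w - ν / n := by linarith
    have h8 : 0 ≤ p - e - e := by linarith
    exact mul_le_mul hq h7 h8 (by linarith)
  have hlin : x * (p - e) ≤ x * w := mul_le_mul_of_nonneg_left hq hx0.le
  have hφ : 1 - x = φ v := hcr
  have hKB : κ ≤ 5 / 6 * p ^ 2 + x * (4 * (1 - x) + p) / 3 - v ^ 2 := by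
    have h9 : KB φ φ' v = 5 / 6 * p ^ 2 + x * (4 * (1 - x) + p) / 3 - v ^ 2 := by
      unfold KB
      rw [← hφ, ← hpd]; ring
    rw [← h9]; exact hK
  have hv2 : ν ^ 2 * t0 ≤ v ^ 2 := by
    rw [hv, mul_pow, hs2, mul_comm]
    exact mul_le_mul_of_nonneg_right ht (sq_nonneg ν)
  have hp0 : 0 < p := by linarith
  have hbad : x * (ν / n) ≤ e := by
    calc x * (ν / n) ≤ 1 * e := mul_le_mul hx1 hνn hνn0.le zero_le_one
      _ = e := one_mul e
  have hxe : x * e ≤ e := by nlinarith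
  have hpe : p * e ≤ P * e := mul_le_mul_of_nonneg_right hP he0.le
  have hfin : e * (5 / 2 * P + 5 / 3) < κ := h1
  nlinarith [hquad, hlin, hcount, hKB, hv2, hbad, hxe, hpe, hfin, sq_nonneg e]

end one

end Pool.Agent.K4H88.Tur
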