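import Mathlib

/-!
# Independent sets of a symmetric ternary relation: weighted sums and reversal
-/

set_option linter.unusedSectionVars false

open Finset
open scoped Classical

namespace Pool.Agent.K4H88.Tur

variable {V : Type*} [Fintype V] [DecidableEq V]

/-- a symmetric ternary relation which only relates distinct elements -/
structure Sym3 (T : V → V → V → Prop) : Prop where
  s12 : ∀ {x y z : V}, T x y z → T y x z
  s23 : ∀ {x y z : V}, T x y z → T x z y
  ne : ∀ {x y z : V}, T x y z → x ≠ y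

namespace Sym3
variable {T : V → V → V → Prop} (h : Sym3 T)
include h
theorem s13 {x y z : V} (t : T x y z) : T z y x := h.s12 (h.s23 (h.s12 t))
theorem rot {x y z : V} (t : T x y z) : T y z x := h.s23 (h.s12 t)
theorem rot2 {x y z : V} (t : T x y z) : T z x y := h.s12 (h.s23 t)
theorem ne23 {x y z : V} (t : T x y z) : y ≠ z := h.ne (h.rot t)
theorem ne13 {x y z : V} (t : T x y z) : x ≠ z := (h.ne (h.rot2 t)).symm
end Sym3

/-- `S` contains no triple of `T` -/
def Indep (T : V → V → V → Prop) (S : Finset V) : Prop :=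
  ∀ x ∈ S, ∀ y ∈ S, ∀ z ∈ S, ¬ T x y z

/-- `x` extends `S` to a larger independent set -/
def Good (T : V → V → V → Prop) (S : Finset V) (x : V) : Prop :=
  x ∉ S ∧ Indep T (insert x S)

variable {T : V → V → V → Prop}

theorem Indep.mono {S R : Finset V} (h : Indep T S) (hR : R ⊆ S) : Indep T R :=
  fun x hx y hy z hz => h x (hR hx) y (hR hy) z (hR hz)

theorem Good.indep {S : Finset V} {x : V} (h : Good T S x) : Indep T S :=
  h.2.mono (subset_insert _ _)

theorem good_iff (hT : Sym3 T) {S : Finset V} (hS : Indep T S) {x : V} :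
    Good T S x ↔ x ∉ S ∧ ∀ a ∈ S, ∀ b ∈ S, ¬ T a b x := by
  constructor
  · rintro ⟨h1, h2⟩
    exact ⟨h1, fun a ha b hb => h2 a (mem_insert_of_mem ha) b (mem_insert_of_mem hb) x
      (mem_insert_self _ _)⟩
  · rintro ⟨h1, h2⟩
    refine ⟨h1, fun p hp q hq r hr ht => ?_⟩
    rw [mem_insert] at hp hq hr
    have n1 := hT.ne ht
    have n2 := hT.ne23 ht
    have n3 := hT.ne13 ht
    rcases hp with rfl | hp
    · rcases hq with hq | hq
      · exact n1 hq.symm
      rcases hr with hr | hr
      · exact n3 hr.symm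
      exact h2 q hq r hr (hT.rot ht)
    · rcases hq with rfl | hq
      · rcases hr with hr | hr
        · exact n2 hr.symm
        exact h2 p hp r hr (hT.s23 ht)
      · rcases hr with rfl | hr
        · exact h2 p hp q hq ht
        · exact hS p hp q hq r hr ht

theorem Good.mono {S R : Finset V} {x : V} (h : Good T S x) (hR : R ⊆ S) : Good T R x :=
  ⟨fun hx => h.1 (hR hx), h.2.mono (insert_subset_insert _ hR)⟩

/-- the independent sets -/
noncomputable def Ind (T : V → V → V → Prop) : Finset (Finset V) := univ.filter (Indep T)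

theorem mem_Ind {S : Finset V} : S ∈ Ind T ↔ Indep T S := by simp [Ind]

/-- the weighted sum over all independent sets -/
noncomputable def av (T : V → V → V → Prop) (lam : ℝ) (F : Finset V → ℝ) : ℝ :=
  ∑ S ∈ Ind T, lam ^ S.card * F S

/-- the vertices which extend `S` -/
noncomputable def gs (T : V → V → V → Prop) (S : Finset V) : Finset V := univ.filter (Good T S)

theorem mem_gs {S : Finset V} {x : V} : x ∈ gs T S ↔ Good T S x := by simp [gs]

section lin
variable {lam : ℝ} {F G : Finset V → ℝ}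

theorem av_congr (h : ∀ S, Indep T S → F S = G S) : av T lam F = av T lam G := by
  unfold av
  exact Finset.sum_congr rfl fun S hS => by rw [h S (mem_Ind.1 hS)]

theorem av_add : av T lam (fun S => F S + G S) = av T lam F + av T lam G := by
  unfold av
  rw [← Finset.sum_add_distrib]
  exact Finset.sum_congr rfl fun S _ => by ring

theorem av_sub : av T lam (fun S => F S - G S) = av T lam F - av T lam G := by
  unfold av
  rw [← Finset.sum_sub_distrib]
  exact Finset.sum_congr rfl fun S _ => by ring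

theorem av_smul (c : ℝ) : av T lam (fun S => c * F S) = c * av T lam F := by
  unfold av
  rw [Finset.mul_sum]
  exact Finset.sum_congr rfl fun S _ => by ring

theorem av_mono (hl : 0 ≤ lam) (h : ∀ S, Indep T S → F S ≤ G S) : av T lam F ≤ av T lam G := by
  unfold av
  exact Finset.sum_le_sum fun S hS =>
    mul_le_mul_of_nonneg_left (h S (mem_Ind.1 hS)) (pow_nonneg hl _)

theorem av_nonneg (hl : 0 ≤ lam) (h : ∀ S, Indep T S → 0 ≤ F S) : 0 ≤ av T lam F := by
  unfold av
  exact Finset.sum_nonneg fun S hS => mul_nonneg (pow_nonneg hl _) (h S (mem_Ind.1 hS))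

end lin

/-- **Reversal**: a member of an independent set corresponds to a vertex which extends it. -/
theorem reversal (lam : ℝ) (F : Finset V → V → ℝ) :
    av T lam (fun S => ∑ x ∈ S, F (S.erase x) x) =
      lam * av T lam (fun S => ∑ x ∈ gs T S, F S x) := by
  unfold av
  rw [Finset.mul_sum]
  have e1 : ∀ S ∈ Ind T, lam ^ S.card * ∑ x ∈ S, F (S.erase x) x =
      ∑ x ∈ S, lam ^ S.card * F (S.erase x) x := fun S _ => Finset.mul_sum _ _ _
  have e2 : ∀ S ∈ Ind T, lam * (lam ^ S.card * ∑ x ∈ gs T S, F S x) =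
      ∑ x ∈ gs T S, lam ^ (S.card + 1) * F S x := fun S _ => by
    rw [Finset.mul_sum, Finset.mul_sum]
    exact Finset.sum_congr rfl fun x _ => by ring
  rw [Finset.sum_congr rfl e1, Finset.sum_congr rfl e2, Finset.sum_sigma', Finset.sum_sigma']
  refine Finset.sum_bij' (fun p _ => ⟨p.1.erase p.2, p.2⟩) (fun p _ => ⟨insert p.2 p.1, p.2⟩)
    ?_ ?_ ?_ ?_ ?_
  · rintro ⟨S, x⟩ h
    rw [Finset.mem_sigma] at h ⊢
    obtain ⟨h1, h2⟩ := h
    simp only [mem_Ind, mem_gs] at h1 h2 ⊢
    refine ⟨h1.mono (erase_subset _ _), notMem_erase _ _, ?_⟩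
    rw [insert_erase h2]; exact h1
  · rintro ⟨S, x⟩ h
    rw [Finset.mem_sigma] at h ⊢
    obtain ⟨h1, h2⟩ := h
    simp only [mem_Ind, mem_gs] at h1 h2 ⊢
    exact ⟨h2.2, mem_insert_self _ _⟩
  · rintro ⟨S, x⟩ h
    rw [Finset.mem_sigma] at h
    obtain ⟨h1, h2⟩ := h
    simp only at h2 ⊢
    rw [insert_erase h2]
  · rintro ⟨S, x⟩ h
    rw [Finset.mem_sigma] at h
    obtain ⟨h1, h2⟩ := h
    simp only [mem_gs] at h2 ⊢
    rw [erase_insert h2.1]
  · rintro ⟨S, x⟩ h
    rw [Finset.mem_sigma] at h
    obtain ⟨h1, h2⟩ := h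
    simp only at h2 ⊢
    have : (S.erase x).card + 1 = S.card := card_erase_add_one h2
    rw [this]

end Pool.Agent.K4H88.Tur
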