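import Mathlib

/-!
# A counting lemma for small vertex covers of a graph
-/

set_option linter.unusedSectionVars false

open Finset
open scoped Classical

namespace Pool.Agent.K4H88.Tur.Gr

variable {V : Type*} [DecidableEq V] {L : V → V → Prop}

/-- the graph `L` has an edge inside `Q` -/
def HasEdge (L : V → V → Prop) (Q : Finset V) : Prop := ∃ p ∈ Q, ∃ q ∈ Q, L p q

/-- number of neighbours of `x` in `S` -/
noncomputable def deg (L : V → V → Prop) (S : Finset V) (x : V) : ℕ :=
  (S.filter (fun s => L s x)).card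

/-- vertices which cover all edges -/
noncomputable def cov (L : V → V → Prop) (S : Finset V) : Finset V :=
  S.filter (fun x => ¬ HasEdge L (S.erase x))

/-- ordered pairs which cover all edges while no member of the pair does -/
noncomputable def cov2 (L : V → V → Prop) (S : Finset V) : Finset (V × V) :=
  (S ×ˢ S).filter (fun p => p.1 ≠ p.2 ∧ ¬ HasEdge L ((S.erase p.2).erase p.1) ∧
    HasEdge L (S.erase p.2) ∧ HasEdge L (S.erase p.1))

/-- ordered edges -/
noncomputable def ed (L : V → V → Prop) (S : Finset V) : Finset (V × V) :=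
  (S ×ˢ S).filter (fun p => L p.2 p.1)

theorem sum_deg (S : Finset V) : ∑ x ∈ S, deg L S x = (ed L S).card := by
  unfold deg ed
  rw [Finset.card_filter, Finset.sum_product]
  exact Finset.sum_congr rfl fun x _ => by rw [Finset.card_filter]

variable (hs : ∀ x y, L x y → L y x) (hi : ∀ x, ¬ L x x)
include hs hi

theorem four_edges {S : Finset V} {p q r s : V} (hp : p ∈ S) (hq : q ∈ S) (hr : r ∈ S)
    (h4 : s ∈ S) (h1 : L p q) (h2 : L r s) (h3 : p ≠ r) (h5 : p ≠ s) : 4 ≤ (ed L S).card := by
  have n1 : p ≠ q := fun h => hi _ (h ▸ h1 : L q q)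
  have n2 : r ≠ s := fun h => hi _ (h ▸ h2 : L s s)
  have hsub : ({(p, q), (q, p), (r, s), (s, r)} : Finset (V × V)) ⊆ ed L S := by
    intro x hx
    simp only [mem_insert, mem_singleton] at hx
    unfold ed
    rw [mem_filter, mem_product]
    rcases hx with rfl | rfl | rfl | rfl
    · exact ⟨⟨hp, hq⟩, hs _ _ h1⟩
    · exact ⟨⟨hq, hp⟩, h1⟩
    · exact ⟨⟨hr, h4⟩, hs _ _ h2⟩
    · exact ⟨⟨h4, hr⟩, h2⟩
  have hc : ({(p, q), (q, p), (r, s), (s, r)} : Finset (V × V)).card = 4 := by
    rw [card_insert_of_notMem, card_insert_of_notMem, card_insert_of_notMem, card_singleton]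
    · simp only [mem_singleton, Prod.mk.injEq, not_and]
      intro h; exact absurd h n2
    · simp only [mem_insert, mem_singleton, Prod.mk.injEq, not_or, not_and]
      exact ⟨fun _ h => h5 h, fun _ h => h3 h⟩
    · simp only [mem_insert, mem_singleton, Prod.mk.injEq, not_or, not_and]
      exact ⟨fun h => absurd h n1, fun h => absurd h h3, fun h => absurd h h5⟩
  calc 4 = _ := hc.symm
    _ ≤ _ := card_le_card hsub

theorem two_edges {S : Finset V} {p q : V} (hp : p ∈ S) (hq : q ∈ S)
    (h1 : L p q) : 2 ≤ (ed L S).card := by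
  have n1 : p ≠ q := fun h => hi _ (h ▸ h1 : L q q)
  have hsub : ({(p, q), (q, p)} : Finset (V × V)) ⊆ ed L S := by
    intro x hx
    simp only [mem_insert, mem_singleton] at hx
    unfold ed
    rw [mem_filter, mem_product]
    rcases hx with rfl | rfl
    · exact ⟨⟨hp, hq⟩, hs _ _ h1⟩
    · exact ⟨⟨hq, hp⟩, h1⟩
  have hc : ({(p, q), (q, p)} : Finset (V × V)).card = 2 := by
    rw [card_insert_of_notMem, card_singleton]
    simp only [mem_singleton, Prod.mk.injEq, not_and]
    intro h; exact absurd h n1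
  calc 2 = _ := hc.symm
    _ ≤ _ := card_le_card hsub

theorem deg_le_half {S : Finset V} {p : V} (hp : p ∈ S) : 2 * deg L S p ≤ (ed L S).card := by
  have h1 : ((S.filter (fun s => L s p)).image (fun s => (p, s))).card = deg L S p := by
    rw [card_image_of_injective]; · rfl
    intro a b h; exact (Prod.mk.injEq _ _ _ _ ▸ h : _ ∧ _).2
  have h2 : ((S.filter (fun s => L s p)).image (fun s => (s, p))).card = deg L S p := by
    rw [card_image_of_injective]; · rfl
    intro a b h; exact (Prod.mk.injEq _ _ _ _ ▸ h : _ ∧ _).1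
  have hd : Disjoint ((S.filter (fun s => L s p)).image (fun s => (p, s)))
      ((S.filter (fun s => L s p)).image (fun s => (s, p))) := by
    rw [Finset.disjoint_left]
    intro x hx hy
    rw [mem_image] at hx hy
    obtain ⟨a, ha, rfl⟩ := hx
    obtain ⟨b, hb, h⟩ := hy
    rw [Prod.mk.injEq] at h
    rw [mem_filter] at ha hb
    rw [h.1] at hb
    exact hi _ hb.2
  have hsub : ((S.filter (fun s => L s p)).image (fun s => (p, s))) ∪
      ((S.filter (fun s => L s p)).image (fun s => (s, p))) ⊆ ed L S := by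
    intro x hx
    rw [mem_union, mem_image, mem_image] at hx
    unfold ed
    rw [mem_filter, mem_product]
    rcases hx with ⟨a, ha, rfl⟩ | ⟨a, ha, rfl⟩
    · rw [mem_filter] at ha
      exact ⟨⟨hp, ha.1⟩, ha.2⟩
    · rw [mem_filter] at ha
      exact ⟨⟨ha.1, hp⟩, hs _ _ ha.2⟩
  have := card_le_card hsub
  rw [card_union_of_disjoint hd, h1, h2] at this
  omega

theorem cov2_le_eight {S : Finset V} (hE : HasEdge L S) (hK : cov L S = ∅) :
    (cov2 L S).card ≤ 8 := by
  obtain ⟨p, hp, q, hq, hpq⟩ := hE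
  have hex : ∀ v ∈ S, ∃ r ∈ S.erase v, ∃ s ∈ S.erase v, L r s := by
    intro v hv
    by_contra hcon
    have : v ∈ cov L S := by
      unfold cov
      rw [mem_filter]
      exact ⟨hv, hcon⟩
    rw [hK] at this
    simp at this
  obtain ⟨r, hr, s, h4, hrs⟩ := hex p hp
  obtain ⟨r', hr', s', h4', hrs'⟩ := hex q hq
  have hsub : cov2 L S ⊆ ((({p} : Finset V) ×ˢ ({r, s} : Finset V)) ∪
      (({q} : Finset V) ×ˢ ({r', s'} : Finset V))) ∪
      ((({r, s} : Finset V) ×ˢ ({p} : Finset V)) ∪
      (({r', s'} : Finset V) ×ˢ ({q} : Finset V))) := by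
    rintro ⟨x, y⟩ hx
    unfold cov2 at hx
    rw [mem_filter, mem_product] at hx
    obtain ⟨⟨hxS, hyS⟩, hne, hno, -, -⟩ := hx
    simp only at hxS hyS hne hno
    have haux : ∀ u ∈ S, ∀ w ∈ S, L u w → (u = x ∨ u = y) ∨ (w = x ∨ w = y) := by
      intro u hu w hw huw
      by_contra hcon
      push Not at hcon
      exact hno ⟨u, mem_erase.2 ⟨hcon.1.1, mem_erase.2 ⟨hcon.1.2, hu⟩⟩, w,
        mem_erase.2 ⟨hcon.2.1, mem_erase.2 ⟨hcon.2.2, hw⟩⟩, huw⟩
    rw [mem_erase] at hr h4 hr' h4'
    have a1 := haux p hp q hq hpq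
    have a2 := haux r hr.2 s h4.2 hrs
    have a3 := haux r' hr'.2 s' h4'.2 hrs'
    simp only [mem_union, mem_product, mem_insert, mem_singleton]
    rcases a1 with (h | h) | (h | h)
    · left; left
      refine ⟨h.symm, ?_⟩
      rcases a2 with (g | g) | (g | g)
      · exact absurd (g.trans h.symm) hr.1
      · exact Or.inl g.symm
      · exact absurd (g.trans h.symm) h4.1
      · exact Or.inr g.symm
    · right; left
      refine ⟨?_, h.symm⟩
      rcases a2 with (g | g) | (g | g)
      · exact Or.inl g.symm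
      · exact absurd (g.trans h.symm) hr.1
      · exact Or.inr g.symm
      · exact absurd (g.trans h.symm) h4.1
    · left; right
      refine ⟨h.symm, ?_⟩
      rcases a3 with (g | g) | (g | g)
      · exact absurd (g.trans h.symm) hr'.1
      · exact Or.inl g.symm
      · exact absurd (g.trans h.symm) h4'.1
      · exact Or.inr g.symm
    · right; right
      refine ⟨?_, h.symm⟩
      rcases a3 with (g | g) | (g | g)
      · exact Or.inl g.symm
      · exact absurd (g.trans h.symm) hr'.1
      · exact Or.inr g.symm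
      · exact absurd (g.trans h.symm) h4'.1
  refine (card_le_card hsub).trans ?_
  have c1 : ∀ a b c : V, ((({a} : Finset V) ×ˢ ({b, c} : Finset V))).card ≤ 2 := by
    intro a b c
    rw [card_product, card_singleton, one_mul]; exact card_le_two
  have c2 : ∀ a b c : V, ((({b, c} : Finset V) ×ˢ ({a} : Finset V))).card ≤ 2 := by
    intro a b c
    rw [card_product, card_singleton, mul_one]; exact card_le_two
  refine (card_union_le _ _).trans ?_
  have d1 := card_union_le ((({p} : Finset V) ×ˢ ({r, s} : Finset V)))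
      (({q} : Finset V) ×ˢ ({r', s'} : Finset V))
  have d2 := card_union_le ((({r, s} : Finset V) ×ˢ ({p} : Finset V)))
      (({r', s'} : Finset V) ×ˢ ({q} : Finset V))
  have := c1 p r s; have := c1 q r' s'; have := c2 p r s; have := c2 q r' s'
  omega

/-- **Graph lemma.** -/
theorem main {S : Finset V} (hE : HasEdge L S) :
    (4 : ℝ) / 3 + 1 / 3 * ((cov L S).card : ℝ) ≤
      2 * (∑ x ∈ S, (deg L S x : ℝ)) - ∑ x ∈ cov L S, (deg L S x : ℝ) -
        5 / 6 * ((cov2 L S).card : ℝ) := by
  have hN : (∑ x ∈ S, (deg L S x : ℝ)) = ((ed L S).card : ℝ) := by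
    rw [← sum_deg]; push_cast; rfl
  rw [hN]
  -- all edges meet every covering vertex
  have hcovEdge : ∀ v ∈ cov L S, ∀ u ∈ S, ∀ w ∈ S, L u w → u = v ∨ w = v := by
    intro v hv u hu w hw huw
    unfold cov at hv
    rw [mem_filter] at hv
    by_contra hcon
    push Not at hcon
    exact hv.2 ⟨u, mem_erase.2 ⟨hcon.1, hu⟩, w, mem_erase.2 ⟨hcon.2, hw⟩, huw⟩
  have hnc : ∀ v ∈ S, v ∉ cov L S → ∃ r ∈ S.erase v, ∃ s ∈ S.erase v, L r s := by
    intro v hv hvc
    by_contra hcon
    apply hvc
    unfold cov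
    rw [mem_filter]
    exact ⟨hv, hcon⟩
  obtain ⟨p, hp, q, hq, hpq⟩ := hE
  rcases Finset.eq_empty_or_nonempty (cov L S) with hK | ⟨v, hv⟩
  · have h8 := cov2_le_eight hs hi ⟨p, hp, q, hq, hpq⟩ hK
    obtain ⟨r, hr, s, h4, hrs⟩ := hnc p hp (by rw [hK]; simp)
    rw [mem_erase] at hr h4
    have h44 := four_edges hs hi hp hq hr.2 h4.2 hpq hrs (Ne.symm hr.1) (Ne.symm h4.1)
    rw [hK]
    have h8' : ((cov2 L S).card : ℝ) ≤ 8 := by exact_mod_cast h8
    have h44' : (4 : ℝ) ≤ ((ed L S).card : ℝ) := by exact_mod_cast h44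
    simp only [card_empty, Finset.sum_empty]
    push_cast
    linarith
  · have hvS : v ∈ S := by unfold cov at hv; exact (mem_filter.1 hv).1
    by_cases h1 : ∃ w ∈ cov L S, w ≠ v
    · obtain ⟨w, hw, hwv⟩ := h1
      have hwS : w ∈ S := by unfold cov at hw; exact (mem_filter.1 hw).1
      -- every edge is vw
      have hedge : ∀ a ∈ S, ∀ b ∈ S, L a b → (a = v ∧ b = w) ∨ (a = w ∧ b = v) := by
        intro a ha b hb hab
        rcases hcovEdge v hv a ha b hb hab with h | h <;>
          rcases hcovEdge w hw a ha b hb hab with g | g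
        · exact absurd (g.symm.trans h) hwv
        · exact Or.inl ⟨h, g⟩
        · exact Or.inr ⟨g, h⟩
        · exact absurd (g.symm.trans h) hwv
      have hcovs : cov L S ⊆ {v, w} := by
        intro a ha
        have := hcovEdge a ha p hp q hq hpq
        simp only [mem_insert, mem_singleton]
        rcases hedge p hp q hq hpq with ⟨h2, h3⟩ | ⟨h2, h3⟩
        · rcases this with g | g
          · left; rw [← g, h2]
          · right; rw [← g, h3]
        · rcases this with g | g
          · right; rw [← g, h2]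
          · left; rw [← g, h3]
      have hcard2 : (cov L S).card ≤ 2 := (card_le_card hcovs).trans card_le_two
      have hdeg : ∀ a ∈ cov L S, deg L S a ≤ 1 := by
        intro a ha
        have haS : a ∈ S := by unfold cov at ha; exact (mem_filter.1 ha).1
        unfold deg
        rw [card_le_one]
        intro b hb c hc
        rw [mem_filter] at hb hc
        rcases hedge b hb.1 a haS hb.2 with ⟨h2, h3⟩ | ⟨h2, h3⟩ <;>
          rcases hedge c hc.1 a haS hc.2 with ⟨h4, h5⟩ | ⟨h4, h5⟩
        · rw [h2, h4]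
        · exact absurd (h3.symm.trans h5) hwv
        · exact absurd (h5.symm.trans h3) hwv
        · rw [h2, h4]
      have hsum : (∑ x ∈ cov L S, (deg L S x : ℝ)) ≤ 2 := by
        calc (∑ x ∈ cov L S, (deg L S x : ℝ)) ≤ ∑ x ∈ cov L S, (1 : ℝ) :=
              Finset.sum_le_sum fun x hx => by exact_mod_cast hdeg x hx
          _ = ((cov L S).card : ℝ) := by simp
          _ ≤ 2 := by exact_mod_cast hcard2
      have hc2 : cov2 L S = ∅ := by
        rw [Finset.eq_empty_iff_forall_notMem]
        rintro ⟨x, y⟩ hx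
        unfold cov2 at hx
        rw [mem_filter, mem_product] at hx
        obtain ⟨-, -, hno, ⟨a, ha, b, hb, hab⟩, ⟨c, hc, d, hd, hcd⟩⟩ := hx
        simp only at hno ha hb hc hd
        rw [mem_erase] at ha hb hc hd
        apply hno
        have e1 := hedge a ha.2 b hb.2 hab
        have e2 := hedge c hc.2 d hd.2 hcd
        have hav : ∀ u, (u = v ∨ u = w) → u ≠ x ∧ u ≠ y := by
          intro u hu
          constructor
          · rcases hu with rfl | rfl
            · rcases e2 with ⟨h2, h3⟩ | ⟨h2, h3⟩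
              · rw [← h2]; exact hc.1
              · rw [← h3]; exact hd.1
            · rcases e2 with ⟨h2, h3⟩ | ⟨h2, h3⟩
              · rw [← h3]; exact hd.1
              · rw [← h2]; exact hc.1
          · rcases hu with rfl | rfl
            · rcases e1 with ⟨h2, h3⟩ | ⟨h2, h3⟩
              · rw [← h2]; exact ha.1
              · rw [← h3]; exact hb.1
            · rcases e1 with ⟨h2, h3⟩ | ⟨h2, h3⟩
              · rw [← h3]; exact hb.1
              · rw [← h2]; exact ha.1
        have m1 : a = v ∨ a = w := by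
          rcases e1 with ⟨h2, _⟩ | ⟨h2, _⟩
          · exact Or.inl h2
          · exact Or.inr h2
        have m2 : b = v ∨ b = w := by
          rcases e1 with ⟨_, h2⟩ | ⟨_, h2⟩
          · exact Or.inr h2
          · exact Or.inl h2
        exact ⟨a, mem_erase.2 ⟨(hav a m1).1, mem_erase.2 ⟨(hav a m1).2, ha.2⟩⟩, b,
          mem_erase.2 ⟨(hav b m2).1, mem_erase.2 ⟨(hav b m2).2, hb.2⟩⟩, hab⟩
      have h22 := two_edges hs hi hp hq hpq
      have h22' : (2 : ℝ) ≤ ((ed L S).card : ℝ) := by exact_mod_cast h22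
      have hcard2' : ((cov L S).card : ℝ) ≤ 2 := by exact_mod_cast hcard2
      rw [hc2, card_empty]
      push_cast
      linarith
    · push Not at h1
      have hcov1 : cov L S = {v} := by
        ext a
        rw [mem_singleton]
        exact ⟨fun ha => h1 a ha, fun ha => ha ▸ hv⟩
      -- an edge at v
      obtain ⟨q₁, hq₁, hvq₁⟩ : ∃ q₁ ∈ S, L v q₁ := by
        rcases hcovEdge v hv p hp q hq hpq with h | h
        · exact ⟨q, hq, h ▸ hpq⟩
        · exact ⟨p, hp, hs _ _ (h ▸ hpq)⟩
      have hq₁v : q₁ ≠ v := fun h => hi _ (h ▸ hvq₁ : L v v)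
      obtain ⟨r, hr, s, h4, hrs⟩ := hnc q₁ hq₁ (by rw [hcov1, mem_singleton]; exact hq₁v)
      rw [mem_erase] at hr h4
      obtain ⟨q₂, hq₂, hvq₂, hne⟩ : ∃ q₂ ∈ S, L v q₂ ∧ q₂ ≠ q₁ := by
        rcases hcovEdge v hv r hr.2 s h4.2 hrs with h | h
        · exact ⟨s, h4.2, h ▸ hrs, h4.1⟩
        · exact ⟨r, hr.2, hs _ _ (h ▸ hrs), hr.1⟩
      have h44 := four_edges hs hi hq₁ hvS hr.2 h4.2 (hs _ _ hvq₁) hrs (Ne.symm hr.1)
        (Ne.symm h4.1)
      have hdeg := deg_le_half hs hi hvS
      have hc2 : cov2 L S ⊆ {(q₁, q₂), (q₂, q₁)} := by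
        rintro ⟨x, y⟩ hx
        unfold cov2 at hx
        rw [mem_filter, mem_product] at hx
        obtain ⟨-, hxy, hno, ⟨a, ha, b, hb, hab⟩, ⟨c, hc, d, hd, hcd⟩⟩ := hx
        simp only at hno ha hb hc hd hxy
        rw [mem_erase] at ha hb hc hd
        have hvy : v ≠ y := by
          rcases hcovEdge v hv a ha.2 b hb.2 hab with h | h
          · rw [← h]; exact ha.1
          · rw [← h]; exact hb.1
        have hvx : v ≠ x := by
          rcases hcovEdge v hv c hc.2 d hd.2 hcd with h | h
          · rw [← h]; exact hc.1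
          · rw [← h]; exact hd.1
        have haux : ∀ u ∈ S, L v u → u = x ∨ u = y := by
          intro u hu huw
          by_contra hcon
          push Not at hcon
          exact hno ⟨v, mem_erase.2 ⟨hvx, mem_erase.2 ⟨hvy, hvS⟩⟩, u,
            mem_erase.2 ⟨hcon.1, mem_erase.2 ⟨hcon.2, hu⟩⟩, huw⟩
        simp only [mem_insert, mem_singleton, Prod.mk.injEq]
        rcases haux q₁ hq₁ hvq₁ with h | h <;> rcases haux q₂ hq₂ hvq₂ with g | g
        · exact absurd (g.trans h.symm) hne
        · exact Or.inl ⟨h.symm, g.symm⟩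
        · exact Or.inr ⟨g.symm, h.symm⟩
        · exact absurd (g.trans h.symm) hne
      have hc2' : (cov2 L S).card ≤ 2 := (card_le_card hc2).trans card_le_two
      rw [hcov1, card_singleton, Finset.sum_singleton]
      have h1' : ((cov2 L S).card : ℝ) ≤ 2 := by exact_mod_cast hc2'
      have h2' : (4 : ℝ) ≤ ((ed L S).card : ℝ) := by exact_mod_cast h44
      have h3' : 2 * (deg L S v : ℝ) ≤ ((ed L S).card : ℝ) := by exact_mod_cast hdeg
      push_cast
      linarith

end Pool.Agent.K4H88.Tur.Gr
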