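import Pool.Agent.K4H88.Tur.Cov
import Pool.Agent.K4H88.Tur.Graph

/-!
# The pair-colour counting inequality
-/

set_option linter.unusedSectionVars false

open Finset
open scoped Classical

namespace Pool.Agent.K4H88.Tur

variable {V : Type*} [Fintype V] [DecidableEq V] {T : V → V → V → Prop} {lam : ℝ}

/-- the link of `z` -/
def Lk (T : V → V → V → Prop) (z : V) : V → V → Prop := fun p q => T p q z

theorem Lk_symm (hT : Sym3 T) (z x y : V) (h : Lk T z x y) : Lk T z y x := hT.s12 h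
theorem Lk_irr (hT : Sym3 T) (z x : V) : ¬ Lk T z x x := fun h => hT.ne h rfl

theorem good_iff_edge (hT : Sym3 T) {S Q : Finset V} (hS : Indep T S) (hQ : Q ⊆ S) {z : V}
    (hz : z ∉ S) : Good T Q z ↔ ¬ Gr.HasEdge (Lk T z) Q := by
  rw [good_iff hT (hS.mono hQ)]
  constructor
  · rintro ⟨-, h⟩ ⟨p, hp, q, hq, hpq⟩
    exact h p hp q hq hpq
  · intro h
    exact ⟨fun hz' => hz (hQ hz'), fun a ha b hb hab => h ⟨a, ha, b, hb, hab⟩⟩

theorem incompat_iff (hT : Sym3 T) {R : Finset V} {p q : V} (hp : Good T R p) (hq : Good T R q)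
    (hpq : p ≠ q) : ¬ Good T (insert p R) q ↔ ∃ s ∈ R, T s p q := by
  rw [good_iff hT hp.2]
  constructor
  · intro h
    by_contra hcon
    push Not at hcon
    apply h
    have hq' := ((good_iff hT hp.indep).1 hq).2
    refine ⟨?_, ?_⟩
    · rw [mem_insert]; push Not; exact ⟨hpq.symm, hq.1⟩
    · intro a ha b hb hab
      rw [mem_insert] at ha hb
      rcases ha with rfl | ha
      · rcases hb with rfl | hb
        · exact hT.ne hab rfl
        · exact hcon b hb (hT.s12 hab)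
      · rcases hb with rfl | hb
        · exact hcon a ha hab
        · exact hq' a ha b hb hab
  · rintro ⟨s, hs, h⟩ ⟨-, h2⟩
    exact h2 s (mem_insert_of_mem hs) p (mem_insert_self _ _) h

/-- number of `s ∈ S` with `T s x y` -/
noncomputable def Cc (T : V → V → V → Prop) (S : Finset V) (x y : V) : ℝ :=
  ((S.filter (fun s => T s x y)).card : ℝ)

theorem Cc_symm (hT : Sym3 T) (S : Finset V) (x y : V) : Cc T S x y = Cc T S y x := by
  unfold Cc
  congr 2
  ext s
  simp only [mem_filter]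
  exact ⟨fun h => ⟨h.1, hT.s23 h.2⟩, fun h => ⟨h.1, hT.s23 h.2⟩⟩

theorem Cc_nonneg (S : Finset V) (x y : V) : 0 ≤ Cc T S x y := by unfold Cc; positivity

theorem Cc_self (hT : Sym3 T) (S : Finset V) (x : V) : Cc T S x x = 0 := by
  unfold Cc
  rw [Nat.cast_eq_zero, card_eq_zero, filter_eq_empty_iff]
  intro s _ h
  exact hT.ne23 h rfl

theorem Cc_erase (hT : Sym3 T) (S : Finset V) (x z : V) :
    Cc T (S.erase x) x z = (Gr.deg (Lk T z) S x : ℝ) := by
  unfold Cc Gr.deg Lk
  congr 2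
  ext s
  simp only [mem_filter, mem_erase]
  exact ⟨fun h => ⟨h.1.2, h.2⟩, fun h => ⟨⟨hT.ne h.2, h.1⟩, h.2⟩⟩

theorem compl_erase' {S : Finset V} {x : V} (hx : x ∈ S) : (S.erase x)ᶜ = insert x Sᶜ := by
  ext y
  simp only [mem_compl, mem_erase, mem_insert]
  by_cases h : y = x
  · simp [h]
  · simp [h]

/-- pairs with a good first member -/
noncomputable def P1 (T : V → V → V → Prop) (S : Finset V) : ℝ :=
  ∑ x ∈ gs T S, ∑ y ∈ Sᶜ, Cc T S x y

/-- pairs of good vertices -/
noncomputable def P2 (T : V → V → V → Prop) (S : Finset V) : ℝ :=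
  ∑ x ∈ gs T S, ∑ y ∈ gs T S, Cc T S x y

theorem P1_av (hT : Sym3 T) : lam * av T lam (P1 T) =
    av T lam (fun S => ∑ z ∈ Sᶜ, ∑ x ∈ S, (Gr.deg (Lk T z) S x : ℝ)) := by
  have h := reversal (T := T) lam (fun S x => ∑ y ∈ Sᶜ, Cc T S x y)
  change _ = lam * av T lam (P1 T) at h
  rw [← h]
  apply av_congr
  intro S _
  rw [Finset.sum_comm (s := Sᶜ)]
  refine Finset.sum_congr rfl fun x hx => ?_
  rw [compl_erase' hx, Finset.sum_insert (by simp [hx]), Cc_self hT, zero_add]
  exact Finset.sum_congr rfl fun z _ => Cc_erase hT S x z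

theorem P2_av (hT : Sym3 T) : lam * av T lam (P2 T) =
    av T lam (fun S => ∑ z ∈ Sᶜ, ∑ x ∈ Gr.cov (Lk T z) S, (Gr.deg (Lk T z) S x : ℝ)) := by
  have h := reversal (T := T) lam (fun S x => ∑ y ∈ gs T S, Cc T S x y)
  change _ = lam * av T lam (P2 T) at h
  rw [← h]
  apply av_congr
  intro S hS
  have e1 : ∀ z ∈ Sᶜ, ∑ x ∈ Gr.cov (Lk T z) S, (Gr.deg (Lk T z) S x : ℝ) =
      ∑ x ∈ S, if Good T (S.erase x) z then (Gr.deg (Lk T z) S x : ℝ) else 0 := by
    intro z hz
    rw [mem_compl] at hz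
    unfold Gr.cov
    rw [Finset.sum_filter]
    refine Finset.sum_congr rfl fun x _ => ?_
    have := good_iff_edge hT hS (erase_subset x S) hz
    by_cases hg : Good T (S.erase x) z
    · rw [if_pos (this.1 hg), if_pos hg]
    · rw [if_neg (fun h => hg (this.2 h)), if_neg hg]
  rw [Finset.sum_congr rfl e1, Finset.sum_comm (s := Sᶜ)]
  refine Finset.sum_congr rfl fun x hx => ?_
  have e2 : gs T (S.erase x) = (insert x Sᶜ).filter (fun z => Good T (S.erase x) z) := by
    ext y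
    rw [mem_gs, mem_filter, mem_insert, mem_compl]
    constructor
    · intro hy
      refine ⟨?_, hy⟩
      by_cases hyx : y = x
      · exact Or.inl hyx
      · right
        intro hyS
        exact hy.1 (mem_erase.2 ⟨hyx, hyS⟩)
    · exact fun h => h.2
  rw [e2, Finset.sum_filter, Finset.sum_insert (by simp [hx]), Cc_self hT]
  simp only [ite_self, zero_add]
  refine Finset.sum_congr rfl fun z _ => ?_
  rw [Cc_erase hT]

/-- three pairwise incompatible extensions of `R` -/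
def TriP (T : V → V → V → Prop) (R : Finset V) (a x y : V) : Prop :=
  Good T R a ∧ Good T R x ∧ Good T R y ∧ a ≠ x ∧ a ≠ y ∧ x ≠ y ∧
    (∃ s ∈ R, T s a x) ∧ (∃ s ∈ R, T s a y) ∧ (∃ s ∈ R, T s x y)

/-- such a triple where the pairs at `a` have the same single colour and `xy` another one -/
def ApP (T : V → V → V → Prop) (R : Finset V) (a x y : V) : Prop :=
  TriP T R a x y ∧ ∃ b ∈ R, ∃ c ∈ R, b ≠ c ∧ (∀ s ∈ R, T s a x → s = b) ∧
    (∀ s ∈ R, T s a y → s = b) ∧ (∀ s ∈ R, T s x y → s = c)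

theorem TriP_swap (hT : Sym3 T) {R : Finset V} {a x y : V} (h : TriP T R x a y) :
    TriP T R a x y := by
  obtain ⟨h1, h2, h3, h4, h5, h6, ⟨s, hs, t1⟩, ⟨s', hs', t2⟩, ⟨s'', hs'', t3⟩⟩ := h
  exact ⟨h2, h1, h3, h4.symm, h6, h5, ⟨s, hs, hT.s23 t1⟩, ⟨s'', hs'', t3⟩, ⟨s', hs', t2⟩⟩

theorem TriP_rot (hT : Sym3 T) {R : Finset V} {a x y : V} (h : TriP T R y a x) :
    TriP T R a x y := by
  obtain ⟨h1, h2, h3, h4, h5, h6, ⟨s, hs, t1⟩, ⟨s', hs', t2⟩, ⟨s'', hs'', t3⟩⟩ := h
  exact ⟨h2, h3, h1, h6, h4.symm, h5.symm, ⟨s'', hs'', t3⟩, ⟨s, hs, hT.s23 t1⟩,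
    ⟨s', hs', hT.s23 t2⟩⟩

theorem Ap_excl1 (hT : Sym3 T) {R : Finset V} {a x y : V} (h : ApP T R a x y)
    (g : ApP T R x a y) : False := by
  obtain ⟨⟨-, -, -, -, -, -, ⟨s, hs, t1⟩, -, ⟨s', hs', t2⟩⟩, b, hb, c, hc, hbc, u1, u2, u3⟩ := h
  obtain ⟨-, b', hb', c', hc', hbc', v1, v2, v3⟩ := g
  have e1 := u1 s hs t1
  have e2 := v1 s hs (hT.s23 t1)
  have e3 := u3 s' hs' t2
  have e4 := v2 s' hs' t2
  exact hbc (by rw [← e1, e2, ← e4, e3])

theorem Ap_excl2 (hT : Sym3 T) {R : Finset V} {a x y : V} (h : ApP T R a x y)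
    (g : ApP T R y a x) : False := by
  obtain ⟨⟨-, -, -, -, -, -, -, ⟨s, hs, t1⟩, ⟨s', hs', t2⟩⟩, b, hb, c, hc, hbc, u1, u2, u3⟩ := h
  obtain ⟨-, b', hb', c', hc', hbc', v1, v2, v3⟩ := g
  have e1 := u2 s hs t1
  have e2 := v1 s hs (hT.s23 t1)
  have e3 := u3 s' hs' t2
  have e4 := v2 s' hs' (hT.s23 t2)
  exact hbc (by rw [← e1, e2, ← e4, e3])

theorem Ap_excl3 (hT : Sym3 T) {R : Finset V} {a x y : V} (h : ApP T R x a y)
    (g : ApP T R y a x) : False := by
  obtain ⟨⟨-, -, -, -, -, -, -, ⟨s, hs, t1⟩, ⟨s', hs', t2⟩⟩, b, hb, c, hc, hbc, u1, u2, u3⟩ := h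
  obtain ⟨-, b', hb', c', hc', hbc', v1, v2, v3⟩ := g
  have e1 := u2 s hs t1
  have e2 := v2 s hs (hT.s23 t1)
  have e3 := u3 s' hs' t2
  have e4 := v1 s' hs' (hT.s23 t2)
  exact hbc (by rw [← e1, e2, ← e4, e3])

/-- indicator -/
noncomputable def ind (p : Prop) : ℝ := if p then 1 else 0

theorem ind_nonneg (p : Prop) : 0 ≤ ind p := by unfold ind; split_ifs <;> norm_num
theorem ind_le_one (p : Prop) : ind p ≤ 1 := by unfold ind; split_ifs <;> norm_num
theorem ind_pos {p : Prop} (h : p) : ind p = 1 := by unfold ind; rw [if_pos h]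
theorem ind_neg {p : Prop} (h : ¬ p) : ind p = 0 := by unfold ind; rw [if_neg h]

theorem three_Ap (hT : Sym3 T) (R : Finset V) (a x y : V) :
    ind (ApP T R a x y) + ind (ApP T R x a y) + ind (ApP T R y a x) ≤ ind (TriP T R a x y) := by
  by_cases h1 : ApP T R a x y
  · rw [ind_pos h1, ind_neg (fun g => Ap_excl1 hT h1 g), ind_neg (fun g => Ap_excl2 hT h1 g),
      ind_pos h1.1]
    norm_num
  · rw [ind_neg h1]
    by_cases h2 : ApP T R x a y
    · rw [ind_pos h2, ind_neg (fun g => Ap_excl3 hT h2 g), ind_pos (TriP_swap hT h2.1)]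
      norm_num
    · rw [ind_neg h2]
      by_cases h3 : ApP T R y a x
      · rw [ind_pos h3, ind_pos (TriP_rot hT h3.1)]; norm_num
      · rw [ind_neg h3]
        have := ind_nonneg (TriP T R a x y)
        linarith

/-- all ordered incompatible triples -/
noncomputable def KK (T : V → V → V → Prop) (S : Finset V) (x y : V) : ℝ :=
  ∑ a ∈ S, ind (TriP T (S.erase a) a x y)

noncomputable def AA (T : V → V → V → Prop) (S : Finset V) (x y : V) : ℝ :=
  ∑ a ∈ S, ind (ApP T (S.erase a) a x y)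

theorem sum_gs_eq {P : Finset V → V → V → V → Prop} (R : Finset V)
    (hP : ∀ a x y, P R a x y → Good T R a) :
    ∑ a ∈ gs T R, ∑ x : V, ∑ y : V, ind (P R a x y) =
      ∑ a : V, ∑ x : V, ∑ y : V, ind (P R a x y) := by
  apply Finset.sum_subset (subset_univ _)
  intro a _ ha
  rw [mem_gs] at ha
  refine Finset.sum_eq_zero fun x _ => Finset.sum_eq_zero fun y _ => ?_
  exact ind_neg (fun h => ha (hP a x y h))

theorem KK_av : av T lam (fun S => ∑ x : V, ∑ y : V, KK T S x y) =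
    lam * av T lam (fun S => ∑ a : V, ∑ x : V, ∑ y : V, ind (TriP T S a x y)) := by
  have h := reversal (T := T) lam (fun S a => ∑ x : V, ∑ y : V, ind (TriP T S a x y))
  have e1 : av T lam (fun S => ∑ x : V, ∑ y : V, KK T S x y) =
      av T lam (fun S => ∑ a ∈ S, ∑ x : V, ∑ y : V, ind (TriP T (S.erase a) a x y)) := by
    apply av_congr
    intro S _
    unfold KK
    rw [Finset.sum_comm (s := S)]
    refine Finset.sum_congr rfl fun x _ => ?_
    rw [Finset.sum_comm (s := S)]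
  rw [e1, h]
  congr 1
  apply av_congr
  intro S _
  exact sum_gs_eq S (fun a x y h => h.1)

theorem AA_av : av T lam (fun S => ∑ x : V, ∑ y : V, AA T S x y) =
    lam * av T lam (fun S => ∑ a : V, ∑ x : V, ∑ y : V, ind (ApP T S a x y)) := by
  have h := reversal (T := T) lam (fun S a => ∑ x : V, ∑ y : V, ind (ApP T S a x y))
  have e1 : av T lam (fun S => ∑ x : V, ∑ y : V, AA T S x y) =
      av T lam (fun S => ∑ a ∈ S, ∑ x : V, ∑ y : V, ind (ApP T (S.erase a) a x y)) := by
    apply av_congr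
    intro S _
    unfold AA
    rw [Finset.sum_comm (s := S)]
    refine Finset.sum_congr rfl fun x _ => ?_
    rw [Finset.sum_comm (s := S)]
  rw [e1, h]
  congr 1
  apply av_congr
  intro S _
  exact sum_gs_eq S (fun a x y h => h.1.1)

theorem AA_le (hT : Sym3 T) (hl : 0 ≤ lam) :
    3 * av T lam (fun S => ∑ x : V, ∑ y : V, AA T S x y) ≤
      av T lam (fun S => ∑ x : V, ∑ y : V, KK T S x y) := by
  rw [KK_av, AA_av]
  have : av T lam (fun S => 3 * ∑ a : V, ∑ x : V, ∑ y : V, ind (ApP T S a x y)) ≤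
      av T lam (fun S => ∑ a : V, ∑ x : V, ∑ y : V, ind (TriP T S a x y)) := by
    apply av_mono hl
    intro S _
    have e2 : ∑ a : V, ∑ x : V, ∑ y : V, ind (ApP T S x a y) =
        ∑ a : V, ∑ x : V, ∑ y : V, ind (ApP T S a x y) := Finset.sum_comm
    have e3 : ∑ a : V, ∑ x : V, ∑ y : V, ind (ApP T S y a x) =
        ∑ a : V, ∑ x : V, ∑ y : V, ind (ApP T S a x y) := by
      have : ∀ a : V, ∑ x : V, ∑ y : V, ind (ApP T S y a x) =
          ∑ y : V, ∑ x : V, ind (ApP T S y a x) := fun a => Finset.sum_comm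
      rw [Finset.sum_congr rfl fun a _ => this a, Finset.sum_comm]
    calc 3 * ∑ a : V, ∑ x : V, ∑ y : V, ind (ApP T S a x y) =
        ∑ a : V, ∑ x : V, ∑ y : V, ind (ApP T S a x y) +
        ∑ a : V, ∑ x : V, ∑ y : V, ind (ApP T S x a y) +
        ∑ a : V, ∑ x : V, ∑ y : V, ind (ApP T S y a x) := by rw [e2, e3]; ring
      _ = ∑ a : V, ∑ x : V, ∑ y : V, (ind (ApP T S a x y) + ind (ApP T S x a y) +
          ind (ApP T S y a x)) := by
        simp only [Finset.sum_add_distrib]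
      _ ≤ _ := Finset.sum_le_sum fun a _ => Finset.sum_le_sum fun x _ =>
          Finset.sum_le_sum fun y _ => three_Ap hT S a x y
  rw [av_smul] at this
  calc 3 * (lam * av T lam (fun S => ∑ a : V, ∑ x : V, ∑ y : V, ind (ApP T S a x y))) =
      lam * (3 * av T lam (fun S => ∑ a : V, ∑ x : V, ∑ y : V, ind (ApP T S a x y))) := by ring
    _ ≤ _ := mul_le_mul_of_nonneg_left this hl

/-- facts about a triple `(S, x, y)` with `TriP (S.erase a) a x y` -/
theorem TriP_bad {S : Finset V} {a x y : V} (ha : a ∈ S)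
    (h : TriP T (S.erase a) a x y) : (x ∉ S ∧ ¬ Good T S x) ∧ (y ∉ S ∧ ¬ Good T S y) := by
  obtain ⟨h1, h2, h3, h4, h5, h6, ⟨s, hs, t1⟩, ⟨s', hs', t2⟩, -⟩ := h
  refine ⟨⟨fun hx => h2.1 (mem_erase.2 ⟨h4.symm, hx⟩), fun hg => ?_⟩,
    ⟨fun hx => h3.1 (mem_erase.2 ⟨h5.symm, hx⟩), fun hg => ?_⟩⟩
  · exact hg.2 s (mem_insert_of_mem (mem_of_mem_erase hs)) a (mem_insert_of_mem ha) x
      (mem_insert_self _ _) t1
  · exact hg.2 s' (mem_insert_of_mem (mem_of_mem_erase hs')) a (mem_insert_of_mem ha) y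
      (mem_insert_self _ _) t2

theorem KK_zero {S : Finset V} {x y : V}
    (h : ¬ ((x ∉ S ∧ ¬ Good T S x) ∧ (y ∉ S ∧ ¬ Good T S y))) : KK T S x y = 0 := by
  unfold KK
  exact Finset.sum_eq_zero fun a ha => ind_neg (fun g => h (TriP_bad ha g))

theorem AA_nonneg (S : Finset V) (x y : V) : 0 ≤ AA T S x y :=
  Finset.sum_nonneg fun _ _ => ind_nonneg _

/-- **Pointwise bound**: colours of a pair. -/
theorem KK_le (hT : Sym3 T) {S : Finset V} (hS : Indep T S) (x y : V) :
    KK T S x y - 1 / 2 * AA T S x y ≤ Cc T S x y := by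
  set K := S.filter (fun a => TriP T (S.erase a) a x y) with hK
  have eK : KK T S x y = (K.card : ℝ) := by
    unfold KK ind
    rw [hK, Finset.card_filter]; push_cast; rfl
  rcases Finset.eq_empty_or_nonempty K with h0 | ⟨a, ha⟩
  · rw [eK, h0]
    have := AA_nonneg (T := T) S x y
    have := Cc_nonneg (T := T) S x y
    simp only [card_empty]
    push_cast
    linarith
  rw [hK, mem_filter] at ha
  obtain ⟨haS, hta⟩ := ha
  have hbad := TriP_bad haS hta
  -- bad pairs of `x` contain every member of `K`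
  have hmem : ∀ b ∈ K, ∀ u ∈ S, ∀ w ∈ S, (T u w x ∨ T u w y) → u = b ∨ w = b := by
    intro b hb u hu w hw huw
    rw [hK, mem_filter] at hb
    obtain ⟨hbS, hgb, hgx, hgy, -⟩ := hb
    by_contra hcon
    push Not at hcon
    rcases huw with huw | huw
    · exact hgx.2 u (mem_insert_of_mem (mem_erase.2 ⟨hcon.1, hu⟩)) w
        (mem_insert_of_mem (mem_erase.2 ⟨hcon.2, hw⟩)) x (mem_insert_self _ _) huw
    · exact hgy.2 u (mem_insert_of_mem (mem_erase.2 ⟨hcon.1, hu⟩)) w
        (mem_insert_of_mem (mem_erase.2 ⟨hcon.2, hw⟩)) y (mem_insert_self _ _) huw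
  obtain ⟨hga, hgx, hgy, hax, hay, hxy, ⟨s, hs, t1⟩, ⟨s', hs', t2⟩, ⟨s'', hs'', t3⟩⟩ := hta
  rw [mem_erase] at hs hs' hs''
  -- K is contained in {a, s}
  have hKsub : K ⊆ {a, s} := by
    intro b hb
    have := hmem b hb s hs.2 a haS (Or.inl t1)
    simp only [mem_insert, mem_singleton]
    rcases this with h | h
    · exact Or.inr h.symm
    · exact Or.inl h.symm
  have hK2 : K.card ≤ 2 := (card_le_card hKsub).trans card_le_two
  have hCpos : (1 : ℝ) ≤ Cc T S x y := by
    unfold Cc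
    have : 0 < (S.filter (fun s => T s x y)).card :=
      card_pos.2 ⟨s'', mem_filter.2 ⟨hs''.2, t3⟩⟩
    exact_mod_cast this
  by_cases hC2 : (2 : ℝ) ≤ Cc T S x y
  · rw [eK]
    have h1 : (K.card : ℝ) ≤ 2 := by exact_mod_cast hK2
    have := AA_nonneg (T := T) S x y
    linarith
  · -- exactly one colour
    have hC1 : (S.filter (fun s => T s x y)).card = 1 := by
      unfold Cc at hC2 hCpos
      have h1 : ¬ 2 ≤ (S.filter (fun s => T s x y)).card := fun h => hC2 (by exact_mod_cast h)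
      have h2 : 1 ≤ (S.filter (fun s => T s x y)).card := by exact_mod_cast hCpos
      omega
    obtain ⟨c, hc⟩ := card_eq_one.1 hC1
    have hCone : Cc T S x y = 1 := by unfold Cc; rw [hC1]; norm_num
    have honly : ∀ u ∈ S, T u x y → u = c := by
      intro u hu hux
      have : u ∈ S.filter (fun s => T s x y) := mem_filter.2 ⟨hu, hux⟩
      rw [hc, mem_singleton] at this
      exact this
    have hs''c : s'' = c := honly s'' hs''.2 t3
    by_cases hK1 : K.card ≤ 1
    · rw [eK, hCone]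
      have h1 : (K.card : ℝ) ≤ 1 := by exact_mod_cast hK1
      have := AA_nonneg (T := T) S x y
      linarith
    · -- K has exactly two members, both are apexes
      have hKc : K.card = 2 := by omega
      have hA : ∀ b ∈ K, ApP T (S.erase b) b x y := by
        intro b hb
        have hb' := hb
        rw [hK, mem_filter] at hb'
        obtain ⟨hbS, htb⟩ := hb'
        -- the other member
        obtain ⟨d, hd, hdb⟩ : ∃ d ∈ K, d ≠ b := by
          by_contra hcon
          push Not at hcon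
          have : K ⊆ {b} := fun u hu => mem_singleton.2 (hcon u hu)
          have := card_le_card this
          rw [card_singleton] at this
          omega
        have hdS : d ∈ S := (mem_filter.1 (hK ▸ hd)).1
        have htd := (mem_filter.1 (hK ▸ hd)).2
        have hdb' : d ∈ S.erase b := mem_erase.2 ⟨hdb, hdS⟩
        obtain ⟨k1, k2, k3, k4, k5, k6, ⟨r1, hr1, q1⟩, ⟨r2, hr2, q2⟩, ⟨r3, hr3, q3⟩⟩ := htb
        obtain ⟨-, -, -, -, -, -, -, -, ⟨r4, hr4, q4⟩⟩ := htd
        rw [mem_erase] at hr1 hr2 hr3 hr4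
        have hcb : c ≠ b := by
          rw [← honly r3 hr3.2 q3]; exact hr3.1
        have hcd : c ≠ d := by
          rw [← honly r4 hr4.2 q4]; exact hr4.1
        have hcS : c ∈ S := by
          rw [← honly r3 hr3.2 q3]; exact hr3.2
        refine ⟨⟨k1, k2, k3, k4, k5, k6, ⟨r1, mem_erase.2 hr1, q1⟩, ⟨r2, mem_erase.2 hr2, q2⟩,
          ⟨r3, mem_erase.2 hr3, q3⟩⟩, d, hdb', c, mem_erase.2 ⟨hcb, hcS⟩, hcd.symm, ?_, ?_, ?_⟩
        · intro u hu hux
          rw [mem_erase] at hu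
          rcases hmem d hd u hu.2 b hbS (Or.inl hux) with h | h
          · exact h
          · exact absurd h hdb.symm
        · intro u hu hux
          rw [mem_erase] at hu
          rcases hmem d hd u hu.2 b hbS (Or.inr hux) with h | h
          · exact h
          · exact absurd h hdb.symm
        · intro u hu hux
          exact honly u (mem_of_mem_erase hu) hux
      have hAA : (2 : ℝ) ≤ AA T S x y := by
        unfold AA
        calc (2 : ℝ) = ∑ b ∈ K, (1 : ℝ) := by rw [Finset.sum_const, hKc]; norm_num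
          _ = ∑ b ∈ K, ind (ApP T (S.erase b) b x y) :=
            Finset.sum_congr rfl fun b hb => (ind_pos (hA b hb)).symm
          _ ≤ _ := Finset.sum_le_sum_of_subset_of_nonneg (by rw [hK]; exact filter_subset _ _)
            (fun _ _ _ => ind_nonneg _)
      rw [eK, hCone, hKc]
      push_cast
      linarith

end Pool.Agent.K4H88.Tur
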