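import Pool.Agent.K4H88.Tur.Count

/-!
# The pair-colour counting inequality, second part
-/

set_option linter.unusedSectionVars false

open Finset
open scoped Classical

namespace Pool.Agent.K4H88.Tur

variable {V : Type*} [Fintype V] [DecidableEq V] {T : V → V → V → Prop} {lam : ℝ}

/-- **Pointwise decomposition of the number of colours over all pairs.** -/
theorem pair_bound (hT : Sym3 T) {S : Finset V} (hS : Indep T S) :
    2 * P1 T S - P2 T S + ∑ x : V, ∑ y : V, (KK T S x y - 1 / 2 * AA T S x y) ≤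
      ∑ x : V, ∑ y : V, Cc T S x y := by
  have e1 : P1 T S = ∑ x : V, ∑ y : V, Cc T S x y * (ind (Good T S x) * ind (y ∉ S)) := by
    unfold P1
    have : gs T S = univ.filter (Good T S) := rfl
    rw [this, Finset.sum_filter]
    refine Finset.sum_congr rfl fun x _ => ?_
    by_cases hx : Good T S x
    · rw [if_pos hx]
      have : Sᶜ = univ.filter (fun y => y ∉ S) := by ext y; simp
      rw [this, Finset.sum_filter]
      refine Finset.sum_congr rfl fun y _ => ?_
      rw [ind_pos hx, one_mul]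
      by_cases hy : y ∉ S
      · rw [if_pos hy, ind_pos hy, mul_one]
      · rw [if_neg hy, ind_neg hy, mul_zero]
    · rw [if_neg hx]
      symm
      refine Finset.sum_eq_zero fun y _ => ?_
      rw [ind_neg hx, zero_mul, mul_zero]
  have e1' : P1 T S = ∑ x : V, ∑ y : V, Cc T S x y * (ind (Good T S y) * ind (x ∉ S)) := by
    rw [e1, Finset.sum_comm]
    refine Finset.sum_congr rfl fun x _ => Finset.sum_congr rfl fun y _ => ?_
    rw [Cc_symm hT]
  have e2 : P2 T S = ∑ x : V, ∑ y : V, Cc T S x y * (ind (Good T S x) * ind (Good T S y)) := by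
    unfold P2
    have : gs T S = univ.filter (Good T S) := rfl
    rw [this, Finset.sum_filter]
    refine Finset.sum_congr rfl fun x _ => ?_
    by_cases hx : Good T S x
    · rw [if_pos hx, Finset.sum_filter]
      refine Finset.sum_congr rfl fun y _ => ?_
      rw [ind_pos hx, one_mul]
      by_cases hy : Good T S y
      · rw [if_pos hy, ind_pos hy, mul_one]
      · rw [if_neg hy, ind_neg hy, mul_zero]
    · rw [if_neg hx]
      symm
      refine Finset.sum_eq_zero fun y _ => ?_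
      rw [ind_neg hx, zero_mul, mul_zero]
  have e3 : 2 * P1 T S - P2 T S + ∑ x : V, ∑ y : V, (KK T S x y - 1 / 2 * AA T S x y) =
      ∑ x : V, ∑ y : V, (Cc T S x y * (ind (Good T S x) * ind (y ∉ S)) +
        Cc T S x y * (ind (Good T S y) * ind (x ∉ S)) -
        Cc T S x y * (ind (Good T S x) * ind (Good T S y)) +
        (KK T S x y - 1 / 2 * AA T S x y)) := by
    simp only [Finset.sum_add_distrib, Finset.sum_sub_distrib]
    have e3' := e1
    rw [e2]
    linarith [e1, e1']
  rw [e3]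
  refine Finset.sum_le_sum fun x _ => Finset.sum_le_sum fun y _ => ?_
  have hC := Cc_nonneg (T := T) S x y
  have hA := AA_nonneg (T := T) S x y
  by_cases hbad : (x ∉ S ∧ ¬ Good T S x) ∧ (y ∉ S ∧ ¬ Good T S y)
  · rw [ind_neg hbad.1.2, ind_neg hbad.2.2]
    have := KK_le hT hS x y
    linarith
  · rw [KK_zero hbad]
    by_cases hx : Good T S x
    · have hxS : x ∉ S := hx.1
      by_cases hy : Good T S y
      · have hyS : y ∉ S := hy.1
        rw [ind_pos hx, ind_pos hy, ind_pos hxS, ind_pos hyS]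
        linarith
      · rw [ind_pos hx, ind_neg hy]
        have := mul_le_mul_of_nonneg_left (ind_le_one (y ∉ S)) hC
        nlinarith
    · by_cases hy : Good T S y
      · rw [ind_neg hx, ind_pos hy]
        have := mul_le_mul_of_nonneg_left (ind_le_one (x ∉ S)) hC
        nlinarith
      · rw [ind_neg hx, ind_neg hy]
        linarith

/-- compatible pairs in `Xs` -/
noncomputable def Ch (T : V → V → V → Prop) (S : Finset V) (a : V) : ℝ :=
  ∑ x : V, ∑ y : V, ind (x ∈ Xs T S a ∧ y ∈ Xs T S a ∧ Good T (insert x (S.erase a)) y)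

theorem TriP_iff (hT : Sym3 T) {S : Finset V} (hS : Indep T S) {a : V} (ha : a ∈ S) (x y : V) :
    TriP T (S.erase a) a x y ↔ x ∈ Xs T S a ∧ y ∈ Xs T S a ∧ x ≠ y ∧
      ¬ Good T (insert x (S.erase a)) y := by
  have hga : Good T (S.erase a) a := by
    refine ⟨notMem_erase _ _, ?_⟩
    rw [insert_erase ha]; exact hS
  have hX : ∀ z, z ∈ Xs T S a ↔ a ≠ z ∧ Good T (S.erase a) z ∧ ∃ s ∈ S.erase a, T s a z := by
    intro z
    rw [mem_Xs]
    constructor
    · rintro ⟨h1, h2, h3⟩
      refine ⟨h1.symm, h2, ?_⟩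
      rw [← incompat_iff hT hga h2 h1.symm, insert_erase ha]
      exact h3
    · rintro ⟨h1, h2, h3⟩
      refine ⟨h1.symm, h2, ?_⟩
      rw [← incompat_iff hT hga h2 h1, insert_erase ha] at h3
      exact h3
  rw [hX, hX]
  unfold TriP
  constructor
  · rintro ⟨h1, h2, h3, h4, h5, h6, h7, h8, h9⟩
    exact ⟨⟨h4, h2, h7⟩, ⟨h5, h3, h8⟩, h6, (incompat_iff hT h2 h3 h6).2 h9⟩
  · rintro ⟨⟨h4, h2, h7⟩, ⟨h5, h3, h8⟩, h6, h9⟩
    exact ⟨hga, h2, h3, h4, h5, h6, h7, h8, (incompat_iff hT h2 h3 h6).1 h9⟩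

theorem card_eq_ind (A : Finset V) : (A.card : ℝ) = ∑ x : V, ind (x ∈ A) := by
  have e1 : (A.card : ℝ) = ∑ x ∈ A, ind (x ∈ A) := by
    rw [Finset.sum_congr rfl fun x hx => ind_pos hx]
    simp
  rw [e1]
  exact Finset.sum_subset (subset_univ _) fun x _ hx => ind_neg hx

theorem card_sq_eq (hT : Sym3 T) {S : Finset V} (hS : Indep T S) {a : V} (ha : a ∈ S) :
    ((Xs T S a).card : ℝ) ^ 2 = ∑ x : V, ∑ y : V, ind (TriP T (S.erase a) a x y) + Ch T S a +
      ((Xs T S a).card : ℝ) := by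
  have e1 : ((Xs T S a).card : ℝ) ^ 2 = ∑ x : V, ∑ y : V, ind (x ∈ Xs T S a ∧ y ∈ Xs T S a) := by
    have h1 : ((Xs T S a).card : ℝ) = ∑ x : V, ind (x ∈ Xs T S a) := card_eq_ind _
    rw [sq, h1, Finset.sum_mul_sum]
    refine Finset.sum_congr rfl fun x _ => Finset.sum_congr rfl fun y _ => ?_
    unfold ind
    by_cases hx : x ∈ Xs T S a
    · by_cases hy : y ∈ Xs T S a
      · simp [hx, hy]
      · simp [hy]
    · simp [hx]
  have e2 : ((Xs T S a).card : ℝ) = ∑ x : V, ∑ y : V, ind (x ∈ Xs T S a ∧ x = y) := by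
    have h1 : ((Xs T S a).card : ℝ) = ∑ x : V, ind (x ∈ Xs T S a) := card_eq_ind _
    rw [h1]
    refine Finset.sum_congr rfl fun x _ => ?_
    unfold ind
    by_cases hx : x ∈ Xs T S a
    · simp [hx]
    · simp [hx]
  have e3 : ∑ x : V, ∑ y : V, ind (x ∈ Xs T S a ∧ y ∈ Xs T S a) =
      ∑ x : V, ∑ y : V, (ind (TriP T (S.erase a) a x y) +
        ind (x ∈ Xs T S a ∧ y ∈ Xs T S a ∧ Good T (insert x (S.erase a)) y) +
        ind (x ∈ Xs T S a ∧ x = y)) := by
    refine Finset.sum_congr rfl fun x _ => Finset.sum_congr rfl fun y _ => ?_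
    have hiff := TriP_iff hT hS ha x y
    by_cases hx : x ∈ Xs T S a
    · by_cases hy : y ∈ Xs T S a
      · rw [ind_pos (p := x ∈ Xs T S a ∧ y ∈ Xs T S a) ⟨hx, hy⟩]
        by_cases hxy : x = y
        · rw [ind_pos (p := x ∈ Xs T S a ∧ x = y) ⟨hx, hxy⟩,
            ind_neg (p := TriP T (S.erase a) a x y) (fun h => (hiff.1 h).2.2.1 hxy),
            ind_neg (p := x ∈ Xs T S a ∧ y ∈ Xs T S a ∧ Good T (insert x (S.erase a)) y)
              (fun h => h.2.2.1 (by rw [hxy]; exact mem_insert_self _ _))]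
          norm_num
        · rw [ind_neg (p := x ∈ Xs T S a ∧ x = y) (fun h => hxy h.2)]
          by_cases hg : Good T (insert x (S.erase a)) y
          · rw [ind_pos (p := x ∈ Xs T S a ∧ y ∈ Xs T S a ∧ Good T (insert x (S.erase a)) y)
              ⟨hx, hy, hg⟩, ind_neg (p := TriP T (S.erase a) a x y)
              (fun h => (hiff.1 h).2.2.2 hg)]
            norm_num
          · rw [ind_neg (p := x ∈ Xs T S a ∧ y ∈ Xs T S a ∧ Good T (insert x (S.erase a)) y)
              (fun h => hg h.2.2), ind_pos (p := TriP T (S.erase a) a x y)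
              (hiff.2 ⟨hx, hy, hxy, hg⟩)]
            norm_num
      · rw [ind_neg (p := x ∈ Xs T S a ∧ y ∈ Xs T S a) (fun h => hy h.2),
          ind_neg (p := TriP T (S.erase a) a x y) (fun h => hy (hiff.1 h).2.1),
          ind_neg (p := x ∈ Xs T S a ∧ y ∈ Xs T S a ∧ Good T (insert x (S.erase a)) y)
            (fun h => hy h.2.1), ind_neg (p := x ∈ Xs T S a ∧ x = y) (fun h => hy (h.2 ▸ hx))]
        norm_num
    · rw [ind_neg (p := x ∈ Xs T S a ∧ y ∈ Xs T S a) (fun h => hx h.1),
        ind_neg (p := TriP T (S.erase a) a x y) (fun h => hx (hiff.1 h).1),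
        ind_neg (p := x ∈ Xs T S a ∧ y ∈ Xs T S a ∧ Good T (insert x (S.erase a)) y)
          (fun h => hx h.1), ind_neg (p := x ∈ Xs T S a ∧ x = y) (fun h => hx h.1)]
      norm_num
  rw [e1, e3]
  simp only [Finset.sum_add_distrib]
  rw [← e2]
  rfl

theorem sum_KK (hT : Sym3 T) {S : Finset V} (hS : Indep T S) :
    ∑ x : V, ∑ y : V, KK T S x y = ∑ a ∈ S, ((Xs T S a).card : ℝ) ^ 2 -
      ∑ a ∈ S, ((Xs T S a).card : ℝ) - ∑ a ∈ S, Ch T S a := by
  have e1 : ∑ x : V, ∑ y : V, KK T S x y =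
      ∑ a ∈ S, ∑ x : V, ∑ y : V, ind (TriP T (S.erase a) a x y) := by
    unfold KK
    rw [Finset.sum_comm (s := S)]
    refine Finset.sum_congr rfl fun x _ => ?_
    rw [Finset.sum_comm (s := S)]
  rw [e1, ← Finset.sum_sub_distrib, ← Finset.sum_sub_distrib]
  refine Finset.sum_congr rfl fun a ha => ?_
  rw [card_sq_eq hT hS ha]
  ring

/-- the reversed form of a compatible pair -/
def CHP (T : V → V → V → Prop) (R : Finset V) (a x y : V) : Prop :=
  Good T R a ∧ Good T R x ∧ a ≠ x ∧ a ≠ y ∧ Good T (insert x R) y ∧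
    ¬ Good T (insert a R) x ∧ ¬ Good T (insert a R) y

theorem Ch_eq {S : Finset V} (hS : Indep T S) {a : V} (ha : a ∈ S) :
    Ch T S a = ∑ x : V, ∑ y : V, ind (CHP T (S.erase a) a x y) := by
  unfold Ch
  refine Finset.sum_congr rfl fun x _ => Finset.sum_congr rfl fun y _ => ?_
  congr 1
  rw [mem_Xs, mem_Xs]
  unfold CHP
  rw [insert_erase ha]
  apply propext
  constructor
  · rintro ⟨⟨h1, h2, h3⟩, ⟨h4, h5, h6⟩, h7⟩
    refine ⟨⟨notMem_erase _ _, by rw [insert_erase ha]; exact hS⟩, h2, h1.symm, h4.symm, h7,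
      h3, h6⟩
  · rintro ⟨-, h2, h3, h4, h5, h6, h7⟩
    exact ⟨⟨h3.symm, h2, h6⟩, ⟨h4.symm, h5.mono (subset_insert _ _), h7⟩, h5⟩

theorem Ch_av1 : av T lam (fun S => ∑ a ∈ S, Ch T S a) =
    lam * av T lam (fun S => ∑ x ∈ gs T S, ∑ y ∈ gs T (insert x S),
      ∑ a : V, ind (CHP T S a x y)) := by
  have h := reversal (T := T) lam (fun S a => ∑ x : V, ∑ y : V, ind (CHP T S a x y))
  have e1 : av T lam (fun S => ∑ a ∈ S, Ch T S a) =
      av T lam (fun S => ∑ a ∈ S, ∑ x : V, ∑ y : V, ind (CHP T (S.erase a) a x y)) := by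
    apply av_congr
    intro S hS
    exact Finset.sum_congr rfl fun a ha => Ch_eq hS ha
  rw [e1, h]
  congr 1
  apply av_congr
  intro S _
  rw [sum_gs_eq S (P := CHP T) (fun a x y h => h.1), Finset.sum_comm]
  have e2 : ∑ x ∈ gs T S, ∑ y ∈ gs T (insert x S), ∑ a : V, ind (CHP T S a x y) =
      ∑ x : V, ∑ y ∈ gs T (insert x S), ∑ a : V, ind (CHP T S a x y) := by
    apply Finset.sum_subset (subset_univ _)
    intro x _ hx
    rw [mem_gs] at hx
    exact Finset.sum_eq_zero fun y _ => Finset.sum_eq_zero fun a _ => ind_neg fun h => hx h.2.1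
  rw [e2]
  refine Finset.sum_congr rfl fun x _ => ?_
  rw [Finset.sum_comm]
  symm
  apply Finset.sum_subset (subset_univ _)
  intro y _ hy
  rw [mem_gs] at hy
  exact Finset.sum_eq_zero fun a _ => ind_neg fun h => hy h.2.2.2.2.1

theorem Ch_av2 : lam * (lam * av T lam (fun S => ∑ x ∈ gs T S, ∑ y ∈ gs T (insert x S),
      ∑ a : V, ind (CHP T S a x y))) =
    av T lam (fun S => ∑ y ∈ S, ∑ x ∈ S.erase y, ∑ a : V,
      ind (CHP T ((S.erase y).erase x) a x y)) := by
  rw [← reversal lam (fun S x => ∑ y ∈ gs T (insert x S), ∑ a : V, ind (CHP T S a x y))]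
  have e1 : av T lam (fun S => ∑ x ∈ S, ∑ y ∈ gs T (insert x (S.erase x)), ∑ a : V,
      ind (CHP T (S.erase x) a x y)) =
      av T lam (fun S => ∑ y ∈ gs T S, ∑ x ∈ S, ∑ a : V, ind (CHP T (S.erase x) a x y)) := by
    apply av_congr
    intro S _
    rw [Finset.sum_comm (s := gs T S)]
    refine Finset.sum_congr rfl fun x hx => ?_
    rw [insert_erase hx]
  rw [e1, ← reversal lam (fun S y => ∑ x ∈ S, ∑ a : V, ind (CHP T (S.erase x) a x y))]

theorem cov2_eq (hT : Sym3 T) {S : Finset V} (hS : Indep T S) :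
    ∑ y ∈ S, ∑ x ∈ S.erase y, ∑ a : V, ind (CHP T ((S.erase y).erase x) a x y) =
      ∑ z ∈ Sᶜ, ((Gr.cov2 (Lk T z) S).card : ℝ) := by
  have e1 : ∀ z ∈ Sᶜ, ((Gr.cov2 (Lk T z) S).card : ℝ) =
      ∑ y ∈ S, ∑ x ∈ S.erase y, ind (CHP T ((S.erase y).erase x) z x y) := by
    intro z hz
    rw [mem_compl] at hz
    unfold Gr.cov2
    rw [Finset.card_filter]
    push_cast
    rw [Finset.sum_product, Finset.sum_comm]
    refine Finset.sum_congr rfl fun y hy => ?_
    have hsplit : S = insert y (S.erase y) := (insert_erase hy).symm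
    have e3 : ∀ x ∈ S.erase y, (if x ≠ y ∧ ¬ Gr.HasEdge (Lk T z) ((S.erase y).erase x) ∧
        Gr.HasEdge (Lk T z) (S.erase y) ∧ Gr.HasEdge (Lk T z) (S.erase x) then (1 : ℝ) else 0) =
        ind (CHP T ((S.erase y).erase x) z x y) := by
      intro x hx
      unfold ind
      rw [mem_erase] at hx
      congr 1
      apply propext
      have hsub : (S.erase y).erase x ⊆ S := (erase_subset _ _).trans (erase_subset _ _)
      have hi1 : insert x ((S.erase y).erase x) = S.erase y :=
        insert_erase (mem_erase.2 ⟨hx.1, hx.2⟩)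
      have hi2 : insert y ((S.erase y).erase x) = S.erase x := by
        rw [erase_right_comm]
        exact insert_erase (mem_erase.2 ⟨hx.1.symm, hy⟩)
      have hgx : Good T ((S.erase y).erase x) x :=
        ⟨notMem_erase _ _, by rw [hi1]; exact hS.mono (erase_subset _ _)⟩
      have hgy : Good T ((S.erase y).erase x) y :=
        ⟨by rw [erase_right_comm]; exact notMem_erase _ _,
          by rw [hi2]; exact hS.mono (erase_subset _ _)⟩
      have hgy2 : Good T (insert x ((S.erase y).erase x)) y := by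
        rw [hi1]
        exact ⟨notMem_erase _ _, by rw [insert_erase hy]; exact hS⟩
      have hzx : z ≠ x := fun h => hz (h ▸ hx.2)
      have hzy : z ≠ y := fun h => hz (h ▸ hy)
      have g1 := good_iff_edge hT hS hsub hz
      have g2 := good_iff_edge hT hS (erase_subset y S) hz
      have g3 := good_iff_edge hT hS (erase_subset x S) hz
      unfold CHP
      constructor
      · rintro ⟨h1, h2, h3, h4⟩
        have hgz := g1.2 h2
        refine ⟨hgz, hgx, hzx, hzy, hgy2, ?_, ?_⟩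
        · rw [incompat_iff hT hgz hgx hzx]
          have : ¬ Good T (insert x ((S.erase y).erase x)) z := by
            rw [hi1]; exact fun h => g2.1 h h3
          rw [incompat_iff hT hgx hgz hzx.symm] at this
          obtain ⟨s, hs, t⟩ := this
          exact ⟨s, hs, hT.s23 t⟩
        · rw [incompat_iff hT hgz hgy hzy]
          have : ¬ Good T (insert y ((S.erase y).erase x)) z := by
            rw [hi2]; exact fun h => g3.1 h h4
          rw [incompat_iff hT hgy hgz hzy.symm] at this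
          obtain ⟨s, hs, t⟩ := this
          exact ⟨s, hs, hT.s23 t⟩
      · rintro ⟨h1, h2, h3, h4, h5, h6, h7⟩
        refine ⟨hx.1, g1.1 h1, ?_, ?_⟩
        · by_contra hcon
          have := g2.2 hcon
          rw [incompat_iff hT h1 hgx hzx] at h6
          obtain ⟨s, hs, t⟩ := h6
          have h8 : ¬ Good T (insert x ((S.erase y).erase x)) z :=
            (incompat_iff hT hgx h1 hzx.symm).2 ⟨s, hs, hT.s23 t⟩
          rw [hi1] at h8
          exact h8 this
        · by_contra hcon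
          have := g3.2 hcon
          rw [incompat_iff hT h1 hgy hzy] at h7
          obtain ⟨s, hs, t⟩ := h7
          have h8 : ¬ Good T (insert y ((S.erase y).erase x)) z :=
            (incompat_iff hT hgy h1 hzy.symm).2 ⟨s, hs, hT.s23 t⟩
          rw [hi2] at h8
          exact h8 this
    rw [← Finset.sum_congr rfl e3]
    have hdiff : ∀ x ∈ S, x ∉ S.erase y → (if x ≠ y ∧
        ¬ Gr.HasEdge (Lk T z) ((S.erase y).erase x) ∧
        Gr.HasEdge (Lk T z) (S.erase y) ∧ Gr.HasEdge (Lk T z) (S.erase x) then (1 : ℝ) else 0) =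
        0 := by
      intro x hx hxn
      have : x = y := by
        by_contra hxy
        exact hxn (mem_erase.2 ⟨hxy, hx⟩)
      rw [if_neg (fun h => h.1 this)]
    exact (Finset.sum_subset (erase_subset y S) hdiff).symm
  rw [Finset.sum_congr rfl e1]
  have e4 : ∑ z ∈ Sᶜ, ∑ y ∈ S, ∑ x ∈ S.erase y, ind (CHP T ((S.erase y).erase x) z x y) =
      ∑ y ∈ S, ∑ x ∈ S.erase y, ∑ z ∈ Sᶜ, ind (CHP T ((S.erase y).erase x) z x y) := by
    rw [Finset.sum_comm]
    exact Finset.sum_congr rfl fun y _ => Finset.sum_comm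
  rw [e4]
  refine Finset.sum_congr rfl fun y hy => Finset.sum_congr rfl fun x hx => ?_
  symm
  apply Finset.sum_subset (subset_univ _)
  intro z _ hz
  apply ind_neg
  rintro ⟨h1, h2, h3, h4, -⟩
  rw [mem_compl, not_not] at hz
  exact h1.1 (mem_erase.2 ⟨h3, mem_erase.2 ⟨h4, hz⟩⟩)

theorem Ch_av (hT : Sym3 T) : lam * av T lam (fun S => ∑ a ∈ S, Ch T S a) =
    av T lam (fun S => ∑ z ∈ Sᶜ, ((Gr.cov2 (Lk T z) S).card : ℝ)) := by
  rw [Ch_av1, Ch_av2]
  exact av_congr fun S hS => cov2_eq hT hS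

end Pool.Agent.K4H88.Tur
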