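import Pool.Agent.K4H88.Tur.Basic

/-!
# The covariance inequality for the hard-core measure of a ternary relation
-/

set_option linter.unusedSectionVars false

open Finset
open scoped Classical

namespace Pool.Agent.K4H88.Tur

variable {V : Type*} [Fintype V] [DecidableEq V] {T : V → V → V → Prop}

/-- the vertices blocked by `S` but not by `S \ {a}` -/
noncomputable def Xs (T : V → V → V → Prop) (S : Finset V) (a : V) : Finset V :=
  univ.filter (fun x => x ≠ a ∧ Good T (S.erase a) x ∧ ¬ Good T S x)

theorem mem_Xs {S : Finset V} {a x : V} :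
    x ∈ Xs T S a ↔ x ≠ a ∧ Good T (S.erase a) x ∧ ¬ Good T S x := by simp [Xs]

theorem not_mem_of_Xs {S : Finset V} {a x : V} (h : x ∈ Xs T S a) : x ∉ S := by
  rw [mem_Xs] at h
  intro hx
  exact h.2.1.1 (mem_erase.2 ⟨h.1, hx⟩)

/-- `Z`, the partition function -/
noncomputable def Z0 (T : V → V → V → Prop) (lam : ℝ) : ℝ := av T lam (fun _ => 1)
/-- first moment of the size -/
noncomputable def N1 (T : V → V → V → Prop) (lam : ℝ) : ℝ := av T lam (fun S => (S.card : ℝ))
/-- second moment of the size -/
noncomputable def N2 (T : V → V → V → Prop) (lam : ℝ) : ℝ := av T lam (fun S => (S.card : ℝ) ^ 2)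
/-- the weighted number of triples `(S, a, x)` with `x ∈ Xs S a` -/
noncomputable def W1 (T : V → V → V → Prop) (lam : ℝ) : ℝ :=
  av T lam (fun S => ∑ a ∈ S, ((Xs T S a).card : ℝ))

variable {lam : ℝ}

theorem N1_eq : N1 T lam = lam * av T lam (fun S => ((gs T S).card : ℝ)) := by
  have h := reversal (T := T) lam (fun _ _ => (1 : ℝ))
  simp only [Finset.sum_const, nsmul_eq_mul, mul_one] at h
  exact h

theorem card_g : lam * av T lam (fun S => (S.card : ℝ) * (gs T S).card) = N2 T lam - N1 T lam := by
  have h := reversal (T := T) lam (fun S _ => (S.card : ℝ))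
  have e1 : av T lam (fun S => ∑ x ∈ S, (((S.erase x).card : ℕ) : ℝ)) =
      av T lam (fun S => (S.card : ℝ) ^ 2 - (S.card : ℝ)) := by
    apply av_congr
    intro S _
    have : ∀ x ∈ S, (((S.erase x).card : ℕ) : ℝ) = (S.card : ℝ) - 1 := by
      intro x hx
      have := card_erase_add_one hx
      have h2 : (((S.erase x).card : ℕ) : ℝ) + 1 = (S.card : ℝ) := by exact_mod_cast this
      linarith
    rw [Finset.sum_congr rfl this, Finset.sum_const, nsmul_eq_mul]
    ring
  have e2 : av T lam (fun S => ∑ x ∈ gs T S, (S.card : ℝ)) =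
      av T lam (fun S => (S.card : ℝ) * (gs T S).card) := by
    apply av_congr
    intro S _
    rw [Finset.sum_const, nsmul_eq_mul]; ring
  rw [e1, e2, av_sub] at h
  rw [← h]; rfl

theorem gg_compat : lam * av T lam (fun S => ∑ x ∈ gs T S, ((gs T (insert x S)).card : ℝ)) =
    av T lam (fun S => (S.card : ℝ) * (gs T S).card) := by
  rw [← reversal lam (fun S x => ((gs T (insert x S)).card : ℝ))]
  apply av_congr
  intro S _
  have : ∀ x ∈ S, ((gs T (insert x (S.erase x))).card : ℝ) = (gs T S).card := by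
    intro x hx
    rw [insert_erase hx]
  rw [Finset.sum_congr rfl this, Finset.sum_const, nsmul_eq_mul]

theorem gg_incompat : lam * av T lam (fun S => ∑ x ∈ gs T S,
      ((univ.filter (fun y => y ≠ x ∧ Good T S y ∧ ¬ Good T (insert x S) y)).card : ℝ)) =
    W1 T lam := by
  rw [← reversal lam (fun S x =>
    ((univ.filter (fun y => y ≠ x ∧ Good T S y ∧ ¬ Good T (insert x S) y)).card : ℝ))]
  apply av_congr
  intro S _
  refine Finset.sum_congr rfl fun x hx => ?_
  rw [insert_erase hx]; rfl

theorem g_sq (S : Finset V) : ((gs T S).card : ℝ) ^ 2 = ∑ x ∈ gs T S,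
    (((gs T (insert x S)).card : ℝ) +
      ((univ.filter (fun y => y ≠ x ∧ Good T S y ∧ ¬ Good T (insert x S) y)).card : ℝ) + 1) := by
  have key : ∀ x ∈ gs T S, (((gs T (insert x S)).card : ℝ) +
      ((univ.filter (fun y => y ≠ x ∧ Good T S y ∧ ¬ Good T (insert x S) y)).card : ℝ) + 1) =
      (gs T S).card := by
    intro x hx
    have e : gs T S = (gs T (insert x S)) ∪
        ((univ.filter (fun y => y ≠ x ∧ Good T S y ∧ ¬ Good T (insert x S) y)) ∪ {x}) := by
      ext y
      rw [mem_union, mem_union, mem_singleton, mem_filter, mem_gs, mem_gs]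
      constructor
      · intro hy
        by_cases h1 : Good T (insert x S) y
        · exact Or.inl h1
        · by_cases h2 : y = x
          · exact Or.inr (Or.inr h2)
          · exact Or.inr (Or.inl ⟨mem_univ _, h2, hy, h1⟩)
      · rintro (h | h | h)
        · exact h.mono (subset_insert _ _)
        · exact h.2.2.1
        · rw [h]; exact mem_gs.1 hx
    have d1 : Disjoint (gs T (insert x S))
        ((univ.filter (fun y => y ≠ x ∧ Good T S y ∧ ¬ Good T (insert x S) y)) ∪ {x}) := by
      rw [Finset.disjoint_left]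
      intro y hy hy2
      rw [mem_gs] at hy
      rw [mem_union, mem_singleton, mem_filter] at hy2
      rcases hy2 with h | h
      · exact h.2.2.2 hy
      · rw [h] at hy; exact hy.1 (mem_insert_self _ _)
    have d2 : Disjoint (univ.filter (fun y => y ≠ x ∧ Good T S y ∧ ¬ Good T (insert x S) y))
        {x} := by
      rw [Finset.disjoint_singleton_right, mem_filter]
      rintro ⟨-, h, -⟩
      exact h rfl
    have := congrArg Finset.card e
    rw [card_union_of_disjoint d1, card_union_of_disjoint d2, card_singleton] at this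
    have h3 : ((gs T S).card : ℝ) = ((gs T (insert x S)).card : ℝ) +
      (((univ.filter (fun y => y ≠ x ∧ Good T S y ∧ ¬ Good T (insert x S) y)).card : ℝ) + 1) := by
      exact_mod_cast this
    rw [h3]; ring
  rw [Finset.sum_congr rfl key, Finset.sum_const, nsmul_eq_mul]
  ring

theorem g_sq_av : lam ^ 2 * av T lam (fun S => ((gs T S).card : ℝ) ^ 2) =
    N2 T lam - N1 T lam + lam * W1 T lam + lam * N1 T lam := by
  have e : av T lam (fun S => ((gs T S).card : ℝ) ^ 2) =
      av T lam (fun S => ∑ x ∈ gs T S, ((gs T (insert x S)).card : ℝ)) +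
      av T lam (fun S => ∑ x ∈ gs T S,
        ((univ.filter (fun y => y ≠ x ∧ Good T S y ∧ ¬ Good T (insert x S) y)).card : ℝ)) +
      av T lam (fun S => ((gs T S).card : ℝ)) := by
    rw [← av_add, ← av_add]
    apply av_congr
    intro S _
    rw [g_sq, Finset.sum_add_distrib, Finset.sum_add_distrib, Finset.sum_const, nsmul_eq_mul,
      mul_one]
  have h1 := gg_compat (T := T) (lam := lam)
  have h2 := gg_incompat (T := T) (lam := lam)
  have h3 := card_g (T := T) (lam := lam)
  have h4 := N1_eq (T := T) (lam := lam)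
  rw [e]
  have : lam ^ 2 * (av T lam (fun S => ∑ x ∈ gs T S, ((gs T (insert x S)).card : ℝ)) +
      av T lam (fun S => ∑ x ∈ gs T S,
        ((univ.filter (fun y => y ≠ x ∧ Good T S y ∧ ¬ Good T (insert x S) y)).card : ℝ)) +
      av T lam (fun S => ((gs T S).card : ℝ))) =
      lam * (lam * av T lam (fun S => ∑ x ∈ gs T S, ((gs T (insert x S)).card : ℝ))) +
      lam * (lam * av T lam (fun S => ∑ x ∈ gs T S,
        ((univ.filter (fun y => y ≠ x ∧ Good T S y ∧ ¬ Good T (insert x S) y)).card : ℝ))) +
      lam * (lam * av T lam (fun S => ((gs T S).card : ℝ))) := by ring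
  rw [this, h1, h2, h3, ← h4]

/-- Cauchy-Schwarz for the weighted sum -/
theorem av_cs (hl : 0 ≤ lam) (F G : Finset V → ℝ) :
    av T lam (fun S => F S * G S) ^ 2 ≤
      av T lam (fun S => F S ^ 2) * av T lam (fun S => G S ^ 2) := by
  unfold av
  have h := Finset.sum_mul_sq_le_sq_mul_sq (Ind T) (fun S => Real.sqrt (lam ^ S.card) * F S)
    (fun S => Real.sqrt (lam ^ S.card) * G S)
  have e : ∀ S ∈ Ind T, Real.sqrt (lam ^ S.card) * F S * (Real.sqrt (lam ^ S.card) * G S) =
      lam ^ S.card * (F S * G S) := by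
    intro S _
    have := Real.mul_self_sqrt (pow_nonneg hl S.card)
    calc Real.sqrt (lam ^ S.card) * F S * (Real.sqrt (lam ^ S.card) * G S) =
        (Real.sqrt (lam ^ S.card) * Real.sqrt (lam ^ S.card)) * (F S * G S) := by ring
      _ = _ := by rw [this]
  have e2 : ∀ (F : Finset V → ℝ), ∀ S ∈ Ind T, (Real.sqrt (lam ^ S.card) * F S) ^ 2 =
      lam ^ S.card * F S ^ 2 := by
    intro F S _
    rw [mul_pow, Real.sq_sqrt (pow_nonneg hl S.card)]
  rw [Finset.sum_congr rfl e, Finset.sum_congr rfl (e2 F), Finset.sum_congr rfl (e2 G)] at h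
  exact h

theorem Z0_pos (hl : 0 < lam) : 0 < Z0 T lam := by
  unfold Z0 av
  refine Finset.sum_pos (fun S _ => by positivity) ⟨∅, ?_⟩
  rw [mem_Ind]
  intro x hx
  simp at hx

/-- **Covariance inequality.** -/
theorem cov_ineq (hl : 0 < lam) :
    N1 T lam ^ 2 ≤ (N2 T lam - N1 T lam ^ 2 / Z0 T lam) *
      (N1 T lam + lam * W1 T lam + lam * N1 T lam) := by
  have hZ := Z0_pos (T := T) hl
  set c := N1 T lam / Z0 T lam with hc
  have h := av_cs (T := T) hl.le (fun S => (S.card : ℝ) - c)
    (fun S => (S.card : ℝ) - lam * ((gs T S).card : ℝ))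
  have e1 : av T lam (fun S => ((S.card : ℝ) - c) ^ 2) = N2 T lam - N1 T lam ^ 2 / Z0 T lam := by
    have : av T lam (fun S => ((S.card : ℝ) - c) ^ 2) =
        av T lam (fun S => (S.card : ℝ) ^ 2 - (2 * c) * (S.card : ℝ)) +
          av T lam (fun S => c ^ 2 * 1) := by
      rw [← av_add]; apply av_congr; intro S _; ring
    rw [this, av_sub, av_smul, av_smul]
    change N2 T lam - 2 * c * N1 T lam + c ^ 2 * Z0 T lam = _
    rw [hc]; field_simp; ring
  have e2 : av T lam (fun S => ((S.card : ℝ) - lam * ((gs T S).card : ℝ)) ^ 2) =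
      N1 T lam + lam * W1 T lam + lam * N1 T lam := by
    have : av T lam (fun S => ((S.card : ℝ) - lam * ((gs T S).card : ℝ)) ^ 2) =
        av T lam (fun S => (S.card : ℝ) ^ 2 - (2 * lam) * ((S.card : ℝ) * (gs T S).card)) +
          av T lam (fun S => lam ^ 2 * ((gs T S).card : ℝ) ^ 2) := by
      rw [← av_add]; apply av_congr; intro S _; ring
    rw [this, av_sub, av_smul, av_smul, g_sq_av]
    have h3 := card_g (T := T) (lam := lam)
    change N2 T lam - 2 * lam * _ + _ = _
    linarith
  have e3 : av T lam (fun S => ((S.card : ℝ) - c) *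
      ((S.card : ℝ) - lam * ((gs T S).card : ℝ))) = N1 T lam := by
    have : av T lam (fun S => ((S.card : ℝ) - c) *
        ((S.card : ℝ) - lam * ((gs T S).card : ℝ))) =
        av T lam (fun S => (S.card : ℝ) ^ 2 - lam * ((S.card : ℝ) * (gs T S).card)) -
          av T lam (fun S => c * (S.card : ℝ) - (c * lam) * ((gs T S).card : ℝ)) := by
      rw [← av_sub]; apply av_congr; intro S _; ring
    rw [this, av_sub, av_sub, av_smul, av_smul, av_smul]
    have h3 := card_g (T := T) (lam := lam)
    have h4 := N1_eq (T := T) (lam := lam)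
    have h5 : c * lam * av T lam (fun S => ((gs T S).card : ℝ)) = c * N1 T lam := by
      rw [h4]; ring
    rw [h5]
    change N2 T lam - _ - (c * N1 T lam - c * N1 T lam) = _
    linarith
  rw [e1, e2, e3] at h
  exact h

end Pool.Agent.K4H88.Tur
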