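import Pool.Agent.K4H88.Tur.NoT

/-!
# An explicit barrier
-/

set_option linter.unusedSectionVars false
set_option linter.unusedVariables false

namespace Pool.Agent.K4H88.Tur

/-- the barrier polynomial -/
noncomputable def ph (v : ℝ) : ℝ := v ^ 2 / 2 + (-1243/10000) * v ^ 4 + (771/10000) * v ^ 5 + (-1571/100000) * v ^ 6

/-- its derivative -/
noncomputable def ph' (v : ℝ) : ℝ := v + (-1243/2500) * v ^ 3 + (771/2000) * v ^ 4 + (-4713/50000) * v ^ 5

/-- the defect of the barrier divided by `v ^ 4` -/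
noncomputable def PP (v : ℝ) : ℝ := (7/3750) + (2313/10000) * v ^ 1 + (-591/1000) * v ^ 2 + (1799/4000) * v ^ 3 + (309991/6250000) * v ^ 4 + (-26514433/100000000) * v ^ 5 + (172402247/1000000000) * v ^ 6 + (-52890857/1000000000) * v ^ 7 + (2468041/375000000) * v ^ 8

theorem piece0 (v : ℝ) (h0 : 0 ≤ v) (h1 : v ≤ (6/125)) : 0 < PP v := by
  obtain ⟨t, rfl⟩ : ∃ t : ℝ, v = 0 + t := ⟨v - 0, by ring⟩
  have ht0 : 0 ≤ t := by linarith
  have ht1 : t ≤ (6/125) := by linarith
  have e : PP (0 + t) = (7/3750) + (2313/10000) * t + (-591/1000) * t ^ 2 + (1799/4000) * t ^ 3 + (309991/6250000) * t ^ 4 + (-26514433/100000000) * t ^ 5 + (172402247/1000000000) * t ^ 6 + (-52890857/1000000000) * t ^ 7 + (2468041/375000000) * t ^ 8 := by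
    unfold PP; ring
  rw [e]
  have p2 : t ^ 2 ≤ (36/15625) := by
    have := pow_le_pow_left₀ ht0 ht1 2
    norm_num at this ⊢; linarith
  have p3 : 0 ≤ t ^ 3 := pow_nonneg ht0 3
  have p4 : 0 ≤ t ^ 4 := pow_nonneg ht0 4
  have p5 : t ^ 5 ≤ (7776/30517578125) := by
    have := pow_le_pow_left₀ ht0 ht1 5
    norm_num at this ⊢; linarith
  have p6 : 0 ≤ t ^ 6 := pow_nonneg ht0 6
  have p7 : t ^ 7 ≤ (279936/476837158203125) := by
    have := pow_le_pow_left₀ ht0 ht1 7
    norm_num at this ⊢; linarith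
  have p8 : 0 ≤ t ^ 8 := pow_nonneg ht0 8
  linarith

theorem piece1 (v : ℝ) (h0 : (6/125) ≤ v) (h1 : v ≤ (17/100)) : 0 < PP v := by
  obtain ⟨t, rfl⟩ : ∃ t : ℝ, v = (6/125) + t := ⟨v - (6/125), by ring⟩
  have ht0 : 0 ≤ t := by linarith
  have ht1 : t ≤ (61/500) := by linarith
  have e : PP ((6/125) + t) = (32570229544336800371657/2793967723846435546875000) + (1323877531358127401667/7450580596923828125000) * t + (-125367672667561608777/238418579101562500000) * t ^ 2 + (865050490226844241/1907348632812500000) * t ^ 3 + (-6317243689879/762939453125000) * t ^ 4 + (-212901166224877/976562500000000) * t ^ 5 + (2422742204333/15625000000000) * t ^ 6 + (-6295447877/125000000000) * t ^ 7 + (2468041/375000000) * t ^ 8 := by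
    unfold PP; ring
  rw [e]
  have p2 : t ^ 2 ≤ (3721/250000) := by
    have := pow_le_pow_left₀ ht0 ht1 2
    norm_num at this ⊢; linarith
  have p3 : 0 ≤ t ^ 3 := pow_nonneg ht0 3
  have p4 : t ^ 4 ≤ (13845841/62500000000) := by
    have := pow_le_pow_left₀ ht0 ht1 4
    norm_num at this ⊢; linarith
  have p5 : t ^ 5 ≤ (844596301/31250000000000) := by
    have := pow_le_pow_left₀ ht0 ht1 5
    norm_num at this ⊢; linarith
  have p6 : 0 ≤ t ^ 6 := pow_nonneg ht0 6
  have p7 : t ^ 7 ≤ (3142742836021/7812500000000000000) := by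
    have := pow_le_pow_left₀ ht0 ht1 7
    norm_num at this ⊢; linarith
  have p8 : 0 ≤ t ^ 8 := pow_nonneg ht0 8
  linarith

theorem piece2 (v : ℝ) (h0 : (17/100) ≤ v) (h1 : v ≤ (41/100)) : 0 < PP v := by
  obtain ⟨t, rfl⟩ : ∃ t : ℝ, v = (17/100) + t := ⟨v - (17/100), by ring⟩
  have ht0 : 0 ≤ t := by linarith
  have ht1 : t ≤ (6/25) := by linarith
  have e : PP ((17/100) + t) = (197438368929111874001587/7500000000000000000000000) + (5201919847261393666163/75000000000000000000000) * t + (-273035269492391234251/750000000000000000000) * t ^ 2 + (3167225704036965719/7500000000000000000) * t ^ 3 + (-1646217175047917/15000000000000000) * t ^ 4 + (-89687070011479/750000000000000) * t ^ 5 + (860908729319/7500000000000) * t ^ 6 + (-3295507123/75000000000) * t ^ 7 + (2468041/375000000) * t ^ 8 := by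
    unfold PP; ring
  rw [e]
  have p2 : t ^ 2 ≤ (36/625) := by
    have := pow_le_pow_left₀ ht0 ht1 2
    norm_num at this ⊢; linarith
  have p3 : 0 ≤ t ^ 3 := pow_nonneg ht0 3
  have p4 : t ^ 4 ≤ (1296/390625) := by
    have := pow_le_pow_left₀ ht0 ht1 4
    norm_num at this ⊢; linarith
  have p5 : t ^ 5 ≤ (7776/9765625) := by
    have := pow_le_pow_left₀ ht0 ht1 5
    norm_num at this ⊢; linarith
  have p6 : 0 ≤ t ^ 6 := pow_nonneg ht0 6
  have p7 : t ^ 7 ≤ (279936/6103515625) := by
    have := pow_le_pow_left₀ ht0 ht1 7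
    norm_num at this ⊢; linarith
  have p8 : 0 ≤ t ^ 8 := pow_nonneg ht0 8
  linarith

theorem piece3 (v : ℝ) (h0 : (41/100) ≤ v) (h1 : v ≤ (71/100)) : 0 < PP v := by
  obtain ⟨t, rfl⟩ : ∃ t : ℝ, v = (41/100) + t := ⟨v - (41/100), by ring⟩
  have ht0 : 0 ≤ t := by linarith
  have ht1 : t ≤ (3/10) := by linarith
  have e : PP ((41/100) + t) = (205504787816635373545147/7500000000000000000000000) + (-2997830082934214672989/75000000000000000000000) * t + (-82080205493692201939/750000000000000000000) * t ^ 2 + (2062401059476501367/7500000000000000000) * t ^ 3 + (-2607028774755797/15000000000000000) * t ^ 4 + (-1757428885543/750000000000000) * t ^ 5 + (386872663151/7500000000000) * t ^ 6 + (-2347779379/75000000000) * t ^ 7 + (2468041/375000000) * t ^ 8 := by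
    unfold PP; ring
  rw [e]
  have p2 : t ^ 2 ≤ (9/100) := by
    have := pow_le_pow_left₀ ht0 ht1 2
    norm_num at this ⊢; linarith
  have p3 : 0 ≤ t ^ 3 := pow_nonneg ht0 3
  have p4 : t ^ 4 ≤ (81/10000) := by
    have := pow_le_pow_left₀ ht0 ht1 4
    norm_num at this ⊢; linarith
  have p5 : t ^ 5 ≤ (243/100000) := by
    have := pow_le_pow_left₀ ht0 ht1 5
    norm_num at this ⊢; linarith
  have p6 : 0 ≤ t ^ 6 := pow_nonneg ht0 6
  have p7 : t ^ 7 ≤ (2187/10000000) := by
    have := pow_le_pow_left₀ ht0 ht1 7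
    norm_num at this ⊢; linarith
  have p8 : 0 ≤ t ^ 8 := pow_nonneg ht0 8
  linarith

theorem piece4 (v : ℝ) (h0 : (71/100) ≤ v) (h1 : v ≤ (451/500)) : 0 < PP v := by
  obtain ⟨t, rfl⟩ : ∃ t : ℝ, v = (71/100) + t := ⟨v - (71/100), by ring⟩
  have ht0 : 0 ≤ t := by linarith
  have ht1 : t ≤ (24/125) := by linarith
  have e : PP ((71/100) + t) = (87015279730290364769377/7500000000000000000000000) + (-3723783744300673828429/75000000000000000000000) * t + (36274793487654742091/750000000000000000000) * t ^ 2 + (631435647745626167/7500000000000000000) * t ^ 3 + (-2002950583565387/15000000000000000) * t ^ 4 + (30969976202537/750000000000000) * t ^ 5 + (18228259961/7500000000000) * t ^ 6 + (-1163119699/75000000000) * t ^ 7 + (2468041/375000000) * t ^ 8 := by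
    unfold PP; ring
  rw [e]
  have p2 : 0 ≤ t ^ 2 := pow_nonneg ht0 2
  have p3 : 0 ≤ t ^ 3 := pow_nonneg ht0 3
  have p4 : t ^ 4 ≤ (331776/244140625) := by
    have := pow_le_pow_left₀ ht0 ht1 4
    norm_num at this ⊢; linarith
  have p5 : 0 ≤ t ^ 5 := pow_nonneg ht0 5
  have p6 : 0 ≤ t ^ 6 := pow_nonneg ht0 6
  have p7 : t ^ 7 ≤ (4586471424/476837158203125) := by
    have := pow_le_pow_left₀ ht0 ht1 7
    norm_num at this ⊢; linarith
  have p8 : 0 ≤ t ^ 8 := pow_nonneg ht0 8
  linarith

theorem piece5 (v : ℝ) (h0 : (451/500) ≤ v) (h1 : v ≤ (211/200)) : 0 < PP v := by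
  obtain ⟨t, rfl⟩ : ∃ t : ℝ, v = (451/500) + t := ⟨v - (451/500), by ring⟩
  have ht0 : 0 ≤ t := by linarith
  have ht1 : t ≤ (153/1000) := by linarith
  have e : PP ((451/500) + t) = (12531224753060515511761618657/2929687500000000000000000000000) + (-148053804348962476202154569/5859375000000000000000000000) * t + (822919155915329124954371/11718750000000000000000000) * t ^ 2 + (-80500823296259445533/23437500000000000000000) * t ^ 3 + (-897752490490176827/9375000000000000000) * t ^ 4 + (3252765547310917/93750000000000000) * t ^ 5 + (-2178629601679/187500000000000) * t ^ 6 + (-2024687519/375000000000) * t ^ 7 + (2468041/375000000) * t ^ 8 := by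
    unfold PP; ring
  rw [e]
  have p2 : 0 ≤ t ^ 2 := pow_nonneg ht0 2
  have p3 : t ^ 3 ≤ (3581577/1000000000) := by
    have := pow_le_pow_left₀ ht0 ht1 3
    norm_num at this ⊢; linarith
  have p4 : t ^ 4 ≤ (547981281/1000000000000) := by
    have := pow_le_pow_left₀ ht0 ht1 4
    norm_num at this ⊢; linarith
  have p5 : 0 ≤ t ^ 5 := pow_nonneg ht0 5
  have p6 : t ^ 6 ≤ (12827693806929/1000000000000000000) := by
    have := pow_le_pow_left₀ ht0 ht1 6
    norm_num at this ⊢; linarith
  have p7 : t ^ 7 ≤ (1962637152460137/1000000000000000000000) := by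
    have := pow_le_pow_left₀ ht0 ht1 7
    norm_num at this ⊢; linarith
  have p8 : 0 ≤ t ^ 8 := pow_nonneg ht0 8
  linarith

theorem piece6 (v : ℝ) (h0 : (211/200) ≤ v) (h1 : v ≤ (1247/1000)) : 0 < PP v := by
  obtain ⟨t, rfl⟩ : ∃ t : ℝ, v = (211/200) + t := ⟨v - (211/200), by ring⟩
  have ht0 : 0 ≤ t := by linarith
  have ht1 : t ≤ (24/125) := by linarith
  have e : PP ((211/200) + t) = (59794666892796969659803/30000000000000000000000000) + (-25459422956076017565637/4800000000000000000000000) * t + (1352064335372960490103/24000000000000000000000) * t ^ 2 + (-6578750800276092529/120000000000000000000) * t ^ 3 + (-8846642411249041/120000000000000000) * t ^ 4 + (68086359560801/3000000000000000) * t ^ 5 + (-196320685067/15000000000000) * t ^ 6 + (199238933/75000000000) * t ^ 7 + (2468041/375000000) * t ^ 8 := by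
    unfold PP; ring
  rw [e]
  have p2 : 0 ≤ t ^ 2 := pow_nonneg ht0 2
  have p3 : t ^ 3 ≤ (13824/1953125) := by
    have := pow_le_pow_left₀ ht0 ht1 3
    norm_num at this ⊢; linarith
  have p4 : t ^ 4 ≤ (331776/244140625) := by
    have := pow_le_pow_left₀ ht0 ht1 4
    norm_num at this ⊢; linarith
  have p5 : 0 ≤ t ^ 5 := pow_nonneg ht0 5
  have p6 : t ^ 6 ≤ (191102976/3814697265625) := by
    have := pow_le_pow_left₀ ht0 ht1 6
    norm_num at this ⊢; linarith
  have p7 : 0 ≤ t ^ 7 := pow_nonneg ht0 7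
  have p8 : 0 ≤ t ^ 8 := pow_nonneg ht0 8
  linarith

theorem piece7 (v : ℝ) (h0 : (1247/1000) ≤ v) (h1 : v ≤ (1487/1000)) : 0 < PP v := by
  obtain ⟨t, rfl⟩ : ∃ t : ℝ, v = (1247/1000) + t := ⟨v - (1247/1000), by ring⟩
  have ht0 : 0 ≤ t := by linarith
  have ht1 : t ≤ (6/25) := by linarith
  have e : PP ((1247/1000) + t) = (30101224264614266839587938293/11718750000000000000000000000000) + (3117742605601425712737283039/375000000000000000000000000000) * t + (3680712899947454917430767/375000000000000000000000000) * t ^ 2 + (-39264442358527876350053/375000000000000000000000) * t ^ 3 + (-4341554252003522881/75000000000000000000) * t ^ 4 + (4606194333447133/375000000000000000) * t ^ 5 + (-1021639321043/375000000000000) * t ^ 6 + (4787105641/375000000000) * t ^ 7 + (2468041/375000000) * t ^ 8 := by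
    unfold PP; ring
  rw [e]
  have p2 : 0 ≤ t ^ 2 := pow_nonneg ht0 2
  have p3 : t ^ 3 ≤ (216/15625) := by
    have := pow_le_pow_left₀ ht0 ht1 3
    norm_num at this ⊢; linarith
  have p4 : t ^ 4 ≤ (1296/390625) := by
    have := pow_le_pow_left₀ ht0 ht1 4
    norm_num at this ⊢; linarith
  have p5 : 0 ≤ t ^ 5 := pow_nonneg ht0 5
  have p6 : t ^ 6 ≤ (46656/244140625) := by
    have := pow_le_pow_left₀ ht0 ht1 6
    norm_num at this ⊢; linarith
  have p7 : 0 ≤ t ^ 7 := pow_nonneg ht0 7
  have p8 : 0 ≤ t ^ 8 := pow_nonneg ht0 8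
  linarith

theorem piece8 (v : ℝ) (h0 : (1487/1000) ≤ v) (h1 : v ≤ (1609/1000)) : 0 < PP v := by
  obtain ⟨t, rfl⟩ : ∃ t : ℝ, v = (1487/1000) + t := ⟨v - (1487/1000), by ring⟩
  have ht0 : 0 ≤ t := by linarith
  have ht1 : t ≤ (61/500) := by linarith
  have e : PP ((1487/1000) + t) = (82025804113770148109842491371/23437500000000000000000000000000) + (-3021924103976376340480787201/375000000000000000000000000000) * t + (-31412720515904125667855393/375000000000000000000000000) * t ^ 2 + (-57067259643161590210853/375000000000000000000000) * t ^ 3 + (-2834731100069913361/75000000000000000000) * t ^ 4 + (10836135826402813/375000000000000000) * t ^ 5 + (11001154680637/375000000000000) * t ^ 6 + (9525744361/375000000000) * t ^ 7 + (2468041/375000000) * t ^ 8 := by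
    unfold PP; ring
  rw [e]
  have p2 : t ^ 2 ≤ (3721/250000) := by
    have := pow_le_pow_left₀ ht0 ht1 2
    norm_num at this ⊢; linarith
  have p3 : t ^ 3 ≤ (226981/125000000) := by
    have := pow_le_pow_left₀ ht0 ht1 3
    norm_num at this ⊢; linarith
  have p4 : t ^ 4 ≤ (13845841/62500000000) := by
    have := pow_le_pow_left₀ ht0 ht1 4
    norm_num at this ⊢; linarith
  have p5 : 0 ≤ t ^ 5 := pow_nonneg ht0 5
  have p6 : 0 ≤ t ^ 6 := pow_nonneg ht0 6
  have p7 : 0 ≤ t ^ 7 := pow_nonneg ht0 7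
  have p8 : 0 ≤ t ^ 8 := pow_nonneg ht0 8
  linarith

theorem PP_pos (v : ℝ) (h0 : 0 ≤ v) (h1 : v ≤ (7953/5000)) : 0 < PP v := by
  rcases le_total v (6/125) with h | h
  · exact piece0 v h0 h
  have g0 := h
  rcases le_total v (17/100) with h | h
  · exact piece1 v g0 h
  have g1 := h
  rcases le_total v (41/100) with h | h
  · exact piece2 v g1 h
  have g2 := h
  rcases le_total v (71/100) with h | h
  · exact piece3 v g2 h
  have g3 := h
  rcases le_total v (451/500) with h | h
  · exact piece4 v g3 h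
  have g4 := h
  rcases le_total v (211/200) with h | h
  · exact piece5 v g4 h
  have g5 := h
  rcases le_total v (1247/1000) with h | h
  · exact piece6 v g5 h
  have g6 := h
  rcases le_total v (1487/1000) with h | h
  · exact piece7 v g6 h
  have g7 := h
  exact piece8 v g7 (h1.trans (by norm_num))

theorem ph_deriv (v : ℝ) : HasDerivAt ph (ph' v) v := by
  have h2 := (hasDerivAt_pow 2 v).div_const 2
  have h4 := (hasDerivAt_pow 4 v).const_mul (-1243/10000 : ℝ)
  have h5 := (hasDerivAt_pow 5 v).const_mul (771/10000 : ℝ)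
  have h6 := (hasDerivAt_pow 6 v).const_mul (-1571/100000 : ℝ)
  have h := ((h2.add h4).add h5).add h6
  have e : ((2 : ℕ) : ℝ) * v ^ (2 - 1) / 2 + (-1243/10000 : ℝ) * (((4 : ℕ) : ℝ) * v ^ (4 - 1)) +
      (771/10000 : ℝ) * (((5 : ℕ) : ℝ) * v ^ (5 - 1)) +
      (-1571/100000 : ℝ) * (((6 : ℕ) : ℝ) * v ^ (6 - 1)) = ph' v := by
    unfold ph'; norm_num; ring
  rw [e] at h
  exact h

theorem KB_eq (v : ℝ) : KB ph ph' v = v ^ 4 * PP v := by
  unfold KB ph ph' PP; ring

theorem ph'_pos (v : ℝ) (h0 : 0 < v) (h1 : v ≤ 8/5) : 0 < ph' v := by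
  have e : ph' v = v * (1 + (-1243/2500) * v ^ 2 + (771/2000) * v ^ 3 + (-4713/50000) * v ^ 4) := by
    unfold ph'; ring
  rw [e]
  apply mul_pos h0
  have h2 : v ^ 2 * (8/5 - v) ≥ 0 := mul_nonneg (sq_nonneg v) (by linarith)
  have h3 : v ^ 3 * (8/5 - v) ≥ 0 := mul_nonneg (by positivity) (by linarith)
  have h4 : 0 ≤ (v - 6/5) ^ 2 := sq_nonneg _
  nlinarith [sq_nonneg (v ^ 2 - v), mul_nonneg h0.le (sq_nonneg (v - 6/5)),
    mul_nonneg h0.le (sq_nonneg (v - 8/5)), mul_nonneg h0.le h0.le]

theorem barrier : IsBarrier ph ph' (15906/10000) where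
  deriv := ph_deriv
  cont := by unfold ph'; fun_prop
  pos := by
    intro v h0 h1
    rw [KB_eq]
    exact mul_pos (by positivity) (PP_pos v h0.le (by linarith))
  lt_one := by
    intro v h0 h1
    have hmono : StrictMonoOn ph (Set.Icc 0 (15906/10000)) := by
      apply strictMonoOn_of_deriv_pos (convex_Icc _ _)
      · exact (continuous_iff_continuousAt.2 fun v => (ph_deriv v).continuousAt).continuousOn
      · intro x hx
        rw [interior_Icc] at hx
        rw [(ph_deriv x).deriv]
        exact ph'_pos x hx.1 (by linarith [hx.2])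
    have h2 := hmono ⟨h0, h1.le⟩ ⟨by norm_num, le_refl _⟩ h1
    refine h2.trans_le ?_
    unfold ph; norm_num
  low := by
    intro v h0 h1
    unfold ph
    have h2 : v ^ 2 ≤ (8/5) ^ 2 := pow_le_pow_left₀ h0 (by linarith) 2
    have h4 : 0 ≤ v ^ 4 := by positivity
    have h5 : 0 ≤ v ^ 5 := by positivity
    nlinarith [mul_le_mul_of_nonneg_left h2 h4]
  incr := by
    intro v h0 h1
    exact mul_pos h0 (ph'_pos v h0 (by linarith))

end Pool.Agent.K4H88.Tur
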