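import Pool.Agent.H120R2.CliqueDefs
import Pool.Agent.K4H88.Tur.Poly

/-!
# Extremal families are almost regular, and the bound for the Turán density
-/

set_option linter.unusedSectionVars false

open Finset Filter Topology
open scoped Classical

namespace Pool.Agent.K4H88.Tur

open Pool.Agent.H120R2.Clique

/-- degree of `v` in a family -/
noncomputable def dg {n : ℕ} (H : Finset (Finset (Fin n))) (v : Fin n) : ℕ :=
  (H.filter (fun e => v ∈ e)).card

theorem exists_extremal (n m : ℕ) (hm : 3 ≤ m) : ∃ H : Finset (Finset (Fin n)),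
    (∀ e ∈ H, e.card = 3) ∧ ¬ HasClique H 3 m ∧ H.card = ex n 3 m := by
  unfold ex
  have hnon : ((((univ : Finset (Fin n)).powersetCard 3).powerset).filter
      (fun G => ¬ HasClique G 3 m)).Nonempty := by
    refine ⟨∅, ?_⟩
    rw [mem_filter, mem_powerset]
    refine ⟨empty_subset _, ?_⟩
    rintro ⟨A, hA, hAH⟩
    obtain ⟨B, hB1, hB2⟩ := Finset.exists_subset_card_eq (s := A) (n := 3) (by omega)
    exact absurd (hAH (mem_powersetCard.2 ⟨hB1, hB2⟩)) (Finset.notMem_empty _)
  obtain ⟨H, hH, he⟩ := Finset.exists_mem_eq_sup _ hnon Finset.card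
  rw [mem_filter, mem_powerset] at hH
  exact ⟨H, fun A hA => (mem_powersetCard.mp (hH.1 hA)).2, hH.2, he.symm⟩

/-- cloning `v` onto `u` -/
theorem clone_bound {n m : ℕ} (hm : 3 ≤ m) {H : Finset (Finset (Fin n))}
    (h1 : ∀ e ∈ H, e.card = 3) (h2 : ¬ HasClique H 3 m) (h3 : H.card = ex n 3 m)
    (u v : Fin n) : dg H v ≤ dg H u + n := by
  rcases eq_or_ne u v with rfl | huv
  · omega
  set H1 := H.filter (fun e => u ∉ e) with hH1
  set H2 := (H.filter (fun e => v ∈ e ∧ u ∉ e)).image (fun e => insert u (e.erase v)) with hH2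
  have hcard2 : H2.card = (H.filter (fun e => v ∈ e ∧ u ∉ e)).card := by
    rw [hH2]
    apply card_image_of_injOn
    intro e he f hf hef
    rw [mem_coe, mem_filter] at he hf
    simp only at hef
    have e1 : (insert u (e.erase v)).erase u = e.erase v :=
      erase_insert (fun h => he.2.2 (mem_of_mem_erase h))
    have f1 : (insert u (f.erase v)).erase u = f.erase v :=
      erase_insert (fun h => hf.2.2 (mem_of_mem_erase h))
    have : e.erase v = f.erase v := by rw [← e1, ← f1, hef]
    rw [← insert_erase he.2.1, ← insert_erase hf.2.1, this]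
  have hdisj : Disjoint H1 H2 := by
    rw [Finset.disjoint_left]
    intro e he he2
    rw [hH1, mem_filter] at he
    rw [hH2, mem_image] at he2
    obtain ⟨f, -, rfl⟩ := he2
    exact he.2 (mem_insert_self _ _)
  have hle : (H1 ∪ H2).card ≤ ex n 3 m := by
    apply le_ex
    · intro e he
      rw [mem_union] at he
      rcases he with he | he
      · exact h1 e (mem_filter.1 he).1
      · rw [hH2, mem_image] at he
        obtain ⟨f, hf, rfl⟩ := he
        rw [mem_filter] at hf
        rw [card_insert_of_notMem (fun h => hf.2.2 (mem_of_mem_erase h)),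
          card_erase_of_mem hf.2.1, h1 f hf.1]
    · rintro ⟨A, hA, hAH⟩
      by_cases hu : u ∈ A
      · by_cases hv : v ∈ A
        · -- a triple containing both
          have hpair : ({u, v} : Finset (Fin n)) ⊆ A := by
            intro x hx
            rw [mem_insert, mem_singleton] at hx
            rcases hx with rfl | rfl
            · exact hu
            · exact hv
          obtain ⟨B, hB1, hB2, hB3⟩ := Finset.exists_subsuperset_card_eq (n := 3) hpair
            (by rw [card_pair huv]; omega) (by omega)
          have hBu : u ∈ B := hB1 (by simp)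
          have hBv : v ∈ B := hB1 (by simp)
          have hBH := hAH (mem_powersetCard.2 ⟨hB2, hB3⟩)
          rw [mem_union] at hBH
          rcases hBH with h | h
          · rw [hH1, mem_filter] at h
            exact h.2 hBu
          · rw [hH2, mem_image] at h
            obtain ⟨f, hf, hfB⟩ := h
            rw [← hfB, mem_insert] at hBv
            rcases hBv with hBv | hBv
            · exact huv hBv.symm
            · exact (notMem_erase _ _) hBv
        · apply h2
          refine ⟨insert v (A.erase u), ?_, ?_⟩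
          · rw [card_insert_of_notMem (fun h => hv (mem_of_mem_erase h)), card_erase_of_mem hu, hA]
            omega
          · intro B hB
            rw [mem_powersetCard] at hB
            by_cases hvB : v ∈ B
            · have huB : u ∉ B := by
                intro h
                have := hB.1 h
                rw [mem_insert, mem_erase] at this
                rcases this with h | h
                · exact huv h
                · exact h.1 rfl
              have hB' : insert u (B.erase v) ⊆ A := by
                intro x hx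
                rw [mem_insert, mem_erase] at hx
                rcases hx with rfl | ⟨hx1, hx2⟩
                · exact hu
                · have := hB.1 hx2
                  rw [mem_insert] at this
                  rcases this with h | h
                  · exact absurd h hx1
                  · exact mem_of_mem_erase h
              have hB'c : (insert u (B.erase v)).card = 3 := by
                rw [card_insert_of_notMem (fun h => huB (mem_of_mem_erase h)),
                  card_erase_of_mem hvB, hB.2]
              have hBH := hAH (mem_powersetCard.2 ⟨hB', hB'c⟩)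
              rw [mem_union] at hBH
              rcases hBH with h | h
              · rw [hH1, mem_filter] at h
                exact absurd (mem_insert_self _ _) h.2
              · rw [hH2, mem_image] at h
                obtain ⟨f, hf, hfB⟩ := h
                rw [mem_filter] at hf
                have e1 : (insert u (f.erase v)).erase u = f.erase v :=
                  erase_insert (fun h => hf.2.2 (mem_of_mem_erase h))
                have f1 : (insert u (B.erase v)).erase u = B.erase v :=
                  erase_insert (fun h => huB (mem_of_mem_erase h))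
                have : f.erase v = B.erase v := by rw [← e1, ← f1, hfB]
                have hfB' : f = B := by
                  rw [← insert_erase hf.2.1, ← insert_erase hvB, this]
                rw [← hfB']; exact hf.1
            · have hBA : B ⊆ A := by
                intro x hx
                have := hB.1 hx
                rw [mem_insert] at this
                rcases this with h | h
                · exact absurd (h ▸ hx) hvB
                · exact mem_of_mem_erase h
              have huB : u ∉ B := by
                intro h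
                have := hB.1 h
                rw [mem_insert, mem_erase] at this
                rcases this with h | h
                · exact huv h
                · exact h.1 rfl
              have hBH := hAH (mem_powersetCard.2 ⟨hBA, hB.2⟩)
              rw [mem_union] at hBH
              rcases hBH with h | h
              · rw [hH1, mem_filter] at h; exact h.1
              · rw [hH2, mem_image] at h
                obtain ⟨f, -, hfB⟩ := h
                exact absurd (hfB ▸ mem_insert_self _ _) huB
      · apply h2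
        refine ⟨A, hA, fun B hB => ?_⟩
        have hBH := hAH hB
        rw [mem_powersetCard] at hB
        rw [mem_union] at hBH
        rcases hBH with h | h
        · rw [hH1, mem_filter] at h; exact h.1
        · rw [hH2, mem_image] at h
          obtain ⟨f, -, hfB⟩ := h
          exact absurd (hB.1 (hfB ▸ mem_insert_self _ _)) hu
  rw [card_union_of_disjoint hdisj, hcard2, ← h3] at hle
  -- counting
  have c1 : H1.card + dg H u = H.card := by
    have := Finset.card_filter_add_card_filter_not (s := H) (fun e => u ∈ e)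
    unfold dg
    rw [hH1]; omega
  have c2 : (H.filter (fun e => v ∈ e ∧ u ∉ e)).card + (H.filter (fun e => v ∈ e ∧ u ∈ e)).card =
      dg H v := by
    have := Finset.card_filter_add_card_filter_not (s := H.filter (fun e => v ∈ e))
      (fun e => u ∈ e)
    rw [filter_filter, filter_filter] at this
    unfold dg; omega
  have c3 : (H.filter (fun e => v ∈ e ∧ u ∈ e)).card ≤ n := by
    have hinj : Set.InjOn (fun e : Finset (Fin n) => (e.erase v).erase u)
        ((H.filter (fun e => v ∈ e ∧ u ∈ e) : Finset (Finset (Fin n))) : Set (Finset (Fin n))) := by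
      intro e he f hf hef
      rw [mem_coe, mem_filter] at he hf
      simp only at hef
      have he1 : u ∈ e.erase v := mem_erase.2 ⟨huv, he.2.2⟩
      have hf1 : u ∈ f.erase v := mem_erase.2 ⟨huv, hf.2.2⟩
      rw [← insert_erase he.2.1, ← insert_erase he1, hef, insert_erase hf1, insert_erase hf.2.1]
    have hmap : ∀ e ∈ H.filter (fun e => v ∈ e ∧ u ∈ e),
        (fun e : Finset (Fin n) => (e.erase v).erase u) e ∈
          (univ : Finset (Fin n)).powersetCard 1 := by
      intro e he
      rw [mem_filter] at he
      rw [mem_powersetCard]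
      refine ⟨subset_univ _, ?_⟩
      have he1 : u ∈ e.erase v := mem_erase.2 ⟨huv, he.2.2⟩
      rw [card_erase_of_mem he1, card_erase_of_mem he.2.1, h1 e he.1]
    have := Finset.card_le_card_of_injOn _ hmap hinj
    rw [card_powersetCard, card_univ, Fintype.card_fin, Nat.choose_one_right] at this
    exact this
  omega

/-- the non-edges -/
noncomputable def co {n : ℕ} (H : Finset (Finset (Fin n))) : Finset (Finset (Fin n)) :=
  ((univ : Finset (Fin n)).powersetCard 3) \ H

/-- the ternary relation of the non-edges -/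
def TT {n : ℕ} (H : Finset (Finset (Fin n))) (x y z : Fin n) : Prop :=
  x ≠ y ∧ y ≠ z ∧ x ≠ z ∧ ({x, y, z} : Finset (Fin n)) ∉ H

theorem TT_sym {n : ℕ} (H : Finset (Finset (Fin n))) : Sym3 (TT H) where
  s12 := by
    rintro x y z ⟨h1, h2, h3, h4⟩
    exact ⟨h1.symm, h3, h2, by rw [insert_comm]; exact h4⟩
  s23 := by
    rintro x y z ⟨h1, h2, h3, h4⟩
    refine ⟨h3, h2.symm, h1, ?_⟩
    have : ({x, z, y} : Finset (Fin n)) = {x, y, z} := by
      rw [pair_comm]
    rw [this]; exact h4
  ne := fun h => h.1

theorem TT_indep {n m : ℕ} {H : Finset (Finset (Fin n))} (h2 : ¬ HasClique H 3 m)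
    {S : Finset (Fin n)} (hS : Indep (TT H) S) : S.card + 1 ≤ m := by
  by_contra hcon
  push Not at hcon
  apply h2
  obtain ⟨A, hA1, hA2⟩ := Finset.exists_subset_card_eq (s := S) (n := m) (by omega)
  refine ⟨A, hA2, fun B hB => ?_⟩
  rw [mem_powersetCard] at hB
  obtain ⟨x, y, z, hxy, hxz, hyz, rfl⟩ := card_eq_three.1 hB.2
  by_contra hn
  have hx : x ∈ S := hA1 (hB.1 (by simp))
  have hy : y ∈ S := hA1 (hB.1 (by simp))
  have hz : z ∈ S := hA1 (hB.1 (by simp))
  exact hS x hx y hy z hz ⟨hxy, hyz, hxz, hn⟩

theorem dg_all {n : ℕ} (v : Fin n) :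
    dg ((univ : Finset (Fin n)).powersetCard 3) v = (n - 1).choose 2 := by
  unfold dg
  have : ((univ : Finset (Fin n)).powersetCard 3).filter (fun e => v ∈ e) =
      ((univ.erase v : Finset (Fin n)).powersetCard 2).image (fun e => insert v e) := by
    ext e
    rw [mem_filter, mem_powersetCard, mem_image]
    constructor
    · rintro ⟨⟨-, h⟩, hv⟩
      refine ⟨e.erase v, ?_, insert_erase hv⟩
      rw [mem_powersetCard]
      exact ⟨erase_subset_erase _ (subset_univ _), by rw [card_erase_of_mem hv, h]⟩
    · rintro ⟨f, hf, rfl⟩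
      rw [mem_powersetCard] at hf
      have hv : v ∉ f := fun h => (notMem_erase v univ) (hf.1 h)
      exact ⟨⟨subset_univ _, by rw [card_insert_of_notMem hv, hf.2]⟩, mem_insert_self _ _⟩
  rw [this, card_image_of_injOn, card_powersetCard, card_erase_of_mem (mem_univ _), card_univ,
    Fintype.card_fin]
  intro e he f hf hef
  rw [mem_coe, mem_powersetCard] at he hf
  have hve : v ∉ e := fun h => (notMem_erase v univ) (he.1 h)
  have hvf : v ∉ f := fun h => (notMem_erase v univ) (hf.1 h)
  simp only at hef
  rw [← erase_insert hve, hef, erase_insert hvf]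

theorem dg_co {n : ℕ} {H : Finset (Finset (Fin n))} (h1 : ∀ e ∈ H, e.card = 3) (v : Fin n) :
    dg (co H) v + dg H v = (n - 1).choose 2 := by
  rw [← dg_all v]
  unfold dg co
  have hsub : H ⊆ (univ : Finset (Fin n)).powersetCard 3 := fun e he =>
    mem_powersetCard.2 ⟨subset_univ _, h1 e he⟩
  rw [← card_union_of_disjoint]
  · congr 1
    ext e
    rw [mem_union, mem_filter, mem_filter, mem_filter, Finset.mem_sdiff]
    constructor
    · rintro (⟨⟨h, -⟩, hv⟩ | ⟨h, hv⟩)
      · exact ⟨h, hv⟩
      · exact ⟨hsub h, hv⟩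
    · rintro ⟨h, hv⟩
      by_cases he : e ∈ H
      · exact Or.inr ⟨he, hv⟩
      · exact Or.inl ⟨⟨h, he⟩, hv⟩
  · rw [Finset.disjoint_left]
    intro e he he2
    rw [mem_filter, Finset.mem_sdiff] at he
    rw [mem_filter] at he2
    exact he.1.2 he2.1

theorem sum_dg {n : ℕ} {H : Finset (Finset (Fin n))} (h1 : ∀ e ∈ H, e.card = 3) :
    ∑ v : Fin n, dg H v = 3 * H.card := by
  unfold dg
  simp_rw [Finset.card_filter]
  rw [Finset.sum_comm]
  have : ∀ e ∈ H, ∑ v : Fin n, (if v ∈ e then 1 else 0) = 3 := by
    intro e he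
    rw [← Finset.card_filter]
    have : univ.filter (fun v => v ∈ e) = e := by ext v; simp
    rw [this, h1 e he]
  rw [Finset.sum_congr rfl this, Finset.sum_const, smul_eq_mul, mul_comm]

theorem sum_TT {n : ℕ} (H : Finset (Finset (Fin n))) (v : Fin n) :
    ∑ x : Fin n, ∑ y : Fin n, ind (TT H v x y) ≤ 2 * (dg (co H) v : ℝ) := by
  have e1 : ∑ x : Fin n, ∑ y : Fin n, ind (TT H v x y) =
      (((univ : Finset (Fin n × Fin n)).filter (fun p => TT H v p.1 p.2)).card : ℝ) := by
    rw [Finset.card_filter]
    push_cast
    rw [← Finset.univ_product_univ, Finset.sum_product]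
    rfl
  rw [e1]
  have h : ((univ : Finset (Fin n × Fin n)).filter (fun p => TT H v p.1 p.2)).card ≤
      2 * dg (co H) v := by
    unfold dg
    refine Finset.card_le_mul_card_image_of_maps_to
      (f := fun p : Fin n × Fin n => ({v, p.1, p.2} : Finset (Fin n))) ?_ 2 ?_
    · rintro ⟨x, y⟩ hp
      rw [mem_filter] at hp
      obtain ⟨-, g1, g2, g3, g4⟩ := hp
      simp only at g1 g2 g3 g4 ⊢
      rw [mem_filter]
      unfold co
      rw [Finset.mem_sdiff, mem_powersetCard]
      exact ⟨⟨⟨subset_univ _, card_eq_three.2 ⟨v, x, y, g1, g3, g2, rfl⟩⟩, g4⟩, by simp⟩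
    · intro e he
      rw [mem_filter] at he
      unfold co at he
      rw [Finset.mem_sdiff, mem_powersetCard] at he
      obtain ⟨p, q, hpq⟩ : ∃ p q : Fin n, e.erase v = {p, q} := by
        have : (e.erase v).card = 2 := by rw [card_erase_of_mem he.2, he.1.1.2]
        obtain ⟨p, q, -, h⟩ := card_eq_two.1 this
        exact ⟨p, q, h⟩
      have hsub : (((univ : Finset (Fin n × Fin n)).filter (fun p => TT H v p.1 p.2)).filter
          (fun r => ({v, r.1, r.2} : Finset (Fin n)) = e)) ⊆ {(p, q), (q, p)} := by
        rintro ⟨x, y⟩ hxy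
        rw [mem_filter, mem_filter] at hxy
        obtain ⟨⟨-, g1, g2, g3, g4⟩, g5⟩ := hxy
        simp only at g1 g2 g3 g5
        have hx : x ∈ ({p, q} : Finset (Fin n)) := by
          rw [← hpq, mem_erase, ← g5]; exact ⟨g1.symm, by simp⟩
        have hy : y ∈ ({p, q} : Finset (Fin n)) := by
          rw [← hpq, mem_erase, ← g5]; exact ⟨g3.symm, by simp⟩
        rw [mem_insert, mem_singleton] at hx hy
        simp only [mem_insert, mem_singleton, Prod.mk.injEq]
        rcases hx with rfl | rfl <;> rcases hy with rfl | rfl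
        · exact absurd rfl g2
        · exact Or.inl ⟨rfl, rfl⟩
        · exact Or.inr ⟨rfl, rfl⟩
        · exact absurd rfl g2
      exact (card_le_card hsub).trans card_le_two
  exact_mod_cast h

/-- degrees of the non-edges of an extremal family -/
theorem degree_bound {n m : ℕ} (hm : 3 ≤ m) {H : Finset (Finset (Fin n))}
    (h1 : ∀ e ∈ H, e.card = 3) (h2 : ¬ HasClique H 3 m) (h3 : H.card = ex n 3 m) (v : Fin n) :
    n * dg (co H) v ≤ 3 * (n.choose 3 - ex n 3 m) + n * n := by
  have hall : ∀ u : Fin n, dg (co H) v ≤ dg (co H) u + n := by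
    intro u
    have a1 := dg_co h1 v
    have a2 := dg_co h1 u
    have a3 := clone_bound hm h1 h2 h3 v u
    omega
  have hco : ∀ e ∈ co H, e.card = 3 := fun e he => (mem_powersetCard.1 (Finset.mem_sdiff.1 he).1).2
  have hs := sum_dg hco
  have hcard : (co H).card = n.choose 3 - ex n 3 m := by
    unfold co
    have hsub : H ⊆ (univ : Finset (Fin n)).powersetCard 3 := fun e he =>
      mem_powersetCard.2 ⟨subset_univ _, h1 e he⟩
    rw [card_sdiff_of_subset hsub, card_powersetCard, card_univ, Fintype.card_fin, h3]
  rw [hcard] at hs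
  rw [← hs]
  calc n * dg (co H) v = ∑ u : Fin n, dg (co H) v := by
        rw [Finset.sum_const, card_univ, Fintype.card_fin, smul_eq_mul]
    _ ≤ ∑ u : Fin n, (dg (co H) u + n) := Finset.sum_le_sum fun u _ => hall u
    _ = _ := by
        rw [Finset.sum_add_distrib, Finset.sum_const, card_univ, Fintype.card_fin, smul_eq_mul]

theorem ex_le_choose (n m : ℕ) (hm : 3 ≤ m) : ex n 3 m ≤ n.choose 3 := by
  obtain ⟨H, h1, -, h3⟩ := exists_extremal n m hm
  have hsub : H ⊆ (univ : Finset (Fin n)).powersetCard 3 := fun e he =>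
    mem_powersetCard.2 ⟨subset_univ _, h1 e he⟩
  have := card_le_card hsub
  rw [card_powersetCard, card_univ, Fintype.card_fin, h3] at this
  exact this

theorem density_le_one (m : ℕ) (hm : 3 ≤ m) : turanDensity 3 m ≤ 1 := by
  refine le_of_tendsto (ratio_tendsto 3 m) ?_
  rw [eventually_atTop]
  refine ⟨3, fun n hn => ?_⟩
  have : (0 : ℝ) < (n.choose 3 : ℝ) := by exact_mod_cast Nat.choose_pos hn
  rw [div_le_one this]
  exact_mod_cast ex_le_choose n m hm

/-- **Main bound.** -/
theorem main_bound {φ φ' : ℝ → ℝ} {W : ℝ} (hφ : IsBarrier φ φ' W) (hW : 0 < W) (m : ℕ)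
    (hm : 3 ≤ m) : W ^ 2 ≤ ((m : ℝ) - 1) ^ 2 * (1 - turanDensity 3 m) := by
  by_contra hcon
  push Not at hcon
  set t := 1 - turanDensity 3 m with ht
  have ht0 : 0 ≤ t := by have := density_le_one m hm; linarith
  have ha : (0 : ℝ) < (m : ℝ) - 1 := by
    have : (3 : ℝ) ≤ (m : ℝ) := by exact_mod_cast hm
    linarith
  set a := (m : ℝ) - 1 with had
  have ha2 : 0 < a ^ 2 := by positivity
  have hlt : t < W ^ 2 / a ^ 2 := by rw [lt_div_iff₀ ha2]; linarith
  obtain ⟨τ, hτ1, hτ2⟩ := exists_between hlt
  obtain ⟨t0, ht1, ht2⟩ := exists_between hτ1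
  obtain ⟨t', ht3, ht4⟩ := exists_between ht1
  have haW : τ * a ^ 2 < W ^ 2 := by rw [lt_div_iff₀ ha2] at hτ2; exact hτ2
  obtain ⟨n0, hn0⟩ := no_T hφ hW ha (by linarith : (0 : ℝ) ≤ t0) ht2 haW
  have hev : ∀ᶠ n : ℕ in atTop, 1 - (ex n 3 m : ℝ) / (n.choose 3 : ℝ) < t' := by
    have h := (ratio_tendsto 3 m).const_sub 1
    exact h.eventually (gt_mem_nhds ht3)
  obtain ⟨N, hN⟩ := exists_nat_gt (2 / (t0 - t'))
  obtain ⟨n, hn1, hn2, hn3, hn4⟩ := (hev.and ((eventually_ge_atTop n0).and
    ((eventually_ge_atTop N).and (eventually_ge_atTop 3)))).exists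
  obtain ⟨H, h1, h2, h3⟩ := exists_extremal n m hm
  refine hn0 (Fin n) (TT H) (TT_sym H) (by rw [Fintype.card_fin]; exact hn2) ?_ ?_
  · intro S hS
    have := TT_indep h2 hS
    have h4 : (S.card : ℝ) + 1 ≤ m := by exact_mod_cast this
    linarith
  · intro v
    refine (sum_TT H v).trans ?_
    rw [Fintype.card_fin]
    have hd := degree_bound hm h1 h2 h3 v
    have hex := ex_le_choose n m hm
    have hnpos : (0 : ℝ) < n := by exact_mod_cast (by omega : 0 < n)
    have hd' : (n : ℝ) * dg (co H) v ≤ 3 * ((n.choose 3 : ℝ) - ex n 3 m) + n * n := by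
      have : ((n * dg (co H) v : ℕ) : ℝ) ≤ ((3 * (n.choose 3 - ex n 3 m) + n * n : ℕ) : ℝ) := by
        exact_mod_cast hd
      push_cast [Nat.cast_sub hex] at this
      exact this
    have hC : (0 : ℝ) < (n.choose 3 : ℝ) := by exact_mod_cast Nat.choose_pos hn4
    have hC6 : 6 * (n.choose 3 : ℝ) ≤ (n : ℝ) ^ 3 := by
      have h6 : n.choose 3 * Nat.factorial 3 ≤ n ^ 3 := by
        have := Nat.choose_le_pow_div 3 n (α := ℝ)
        have h7 : ((n.choose 3 : ℕ) : ℝ) * (Nat.factorial 3 : ℝ) ≤ (n : ℝ) ^ 3 := by
          rw [le_div_iff₀ (by positivity)] at this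
          exact this
        exact_mod_cast h7
      have h8 : ((n.choose 3 : ℕ) : ℝ) * ((Nat.factorial 3 : ℕ) : ℝ) ≤ (n : ℝ) ^ 3 := by
        exact_mod_cast h6
      have h9 : ((Nat.factorial 3 : ℕ) : ℝ) = 6 := by norm_num [Nat.factorial]
      rw [h9] at h8
      linarith
    have hgap : (n.choose 3 : ℝ) - ex n 3 m ≤ t' * (n.choose 3 : ℝ) := by
      have h5 : (1 - (ex n 3 m : ℝ) / (n.choose 3 : ℝ)) * (n.choose 3 : ℝ) ≤
          t' * (n.choose 3 : ℝ) := mul_le_mul_of_nonneg_right hn1.le hC.le
      have h6 : (1 - (ex n 3 m : ℝ) / (n.choose 3 : ℝ)) * (n.choose 3 : ℝ) =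
          (n.choose 3 : ℝ) - ex n 3 m := by field_simp
      linarith
    have ht'0 : 0 ≤ t' := by linarith
    have htt : 0 < t0 - t' := by linarith
    have hnN : 2 / (t0 - t') < n := by
      have : (N : ℝ) ≤ n := by exact_mod_cast hn3
      linarith
    rw [div_lt_iff₀ htt] at hnN
    -- n * 2 dg ≤ t0 n^3
    have h10 : (n : ℝ) * (2 * dg (co H) v) ≤ n * (t0 * (n : ℝ) ^ 2) := by
      have h11 : 6 * ((n.choose 3 : ℝ) - ex n 3 m) ≤ t' * (n : ℝ) ^ 3 := by
        calc 6 * ((n.choose 3 : ℝ) - ex n 3 m) ≤ 6 * (t' * (n.choose 3 : ℝ)) := by linarith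
          _ = t' * (6 * (n.choose 3 : ℝ)) := by ring
          _ ≤ t' * (n : ℝ) ^ 3 := mul_le_mul_of_nonneg_left hC6 ht'0
      have h12 : 2 * (n : ℝ) ^ 2 ≤ (t0 - t') * (n : ℝ) ^ 3 := by
        have : 2 * (n : ℝ) ^ 2 ≤ (n * (t0 - t')) * (n : ℝ) ^ 2 :=
          mul_le_mul_of_nonneg_right hnN.le (sq_nonneg _)
        calc 2 * (n : ℝ) ^ 2 ≤ (n * (t0 - t')) * (n : ℝ) ^ 2 := this
          _ = _ := by ring
      nlinarith
    exact le_of_mul_le_mul_left h10 hnpos

end Pool.Agent.K4H88.Tur
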