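import Pool.Agent.K4H88.Tur.Count2

/-!
# The pair-colour counting inequality, final form
-/

set_option linter.unusedSectionVars false

open Finset
open scoped Classical

namespace Pool.Agent.K4H88.Tur

variable {V : Type*} [Fintype V] [DecidableEq V] {T : V → V → V → Prop} {lam : ℝ}

theorem Cc_eq (S : Finset V) (x y : V) : Cc T S x y = ∑ s ∈ S, ind (T s x y) := by
  unfold Cc ind
  rw [Finset.card_filter]
  push_cast
  rfl

theorem sum_Cc_le {D : ℝ} (hD : ∀ v : V, ∑ x : V, ∑ y : V, ind (T v x y) ≤ D) (S : Finset V) :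
    ∑ x : V, ∑ y : V, Cc T S x y ≤ S.card * D := by
  have e : ∑ x : V, ∑ y : V, Cc T S x y = ∑ s ∈ S, ∑ x : V, ∑ y : V, ind (T s x y) := by
    simp_rw [Cc_eq]
    rw [Finset.sum_comm (s := S)]
    refine Finset.sum_congr rfl fun x _ => ?_
    rw [Finset.sum_comm (s := S)]
  rw [e]
  calc ∑ s ∈ S, ∑ x : V, ∑ y : V, ind (T s x y) ≤ ∑ s ∈ S, D :=
        Finset.sum_le_sum fun s _ => hD s
    _ = _ := by rw [Finset.sum_const, nsmul_eq_mul]

/-- number of blocked vertices outside `S` -/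
noncomputable def bads (T : V → V → V → Prop) (S : Finset V) : Finset V :=
  Sᶜ.filter (fun z => ¬ Good T S z)

theorem bads_card {S : Finset V} : ((bads T S).card : ℝ) =
    Fintype.card V - S.card - (gs T S).card := by
  have h1 : Sᶜ.filter (fun z => Good T S z) = gs T S := by
    ext z
    rw [mem_filter, mem_gs, mem_compl]
    exact ⟨fun h => h.2, fun h => ⟨h.1, h⟩⟩
  have h2 := Finset.card_filter_add_card_filter_not (s := Sᶜ) (fun z => Good T S z)
  rw [h1] at h2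
  have h3 : (bads T S).card + (gs T S).card = Sᶜ.card := by unfold bads; omega
  have h4 := Finset.card_add_card_compl S
  have h5 : (((bads T S).card : ℕ) : ℝ) + (gs T S).card = (Sᶜ.card : ℝ) := by exact_mod_cast h3
  have h6 : (S.card : ℝ) + (Sᶜ.card : ℝ) = (Fintype.card V : ℝ) := by exact_mod_cast h4
  linarith

theorem sum_cov (hT : Sym3 T) {S : Finset V} (hS : Indep T S) :
    ∑ z ∈ bads T S, ((Gr.cov (Lk T z) S).card : ℝ) = ∑ a ∈ S, ((Xs T S a).card : ℝ) := by
  have e1 : ∀ z ∈ bads T S, ((Gr.cov (Lk T z) S).card : ℝ) =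
      ∑ a ∈ S, ind (z ∈ Xs T S a) := by
    intro z hz
    unfold bads at hz
    rw [mem_filter, mem_compl] at hz
    unfold Gr.cov
    rw [Finset.card_filter]
    push_cast
    refine Finset.sum_congr rfl fun a ha => ?_
    have g := good_iff_edge hT hS (erase_subset a S) hz.1
    unfold ind
    congr 1
    apply propext
    rw [mem_Xs, ← g]
    exact ⟨fun h => ⟨fun h2 => hz.1 (h2 ▸ ha), h, hz.2⟩, fun h => h.2.1⟩
  rw [Finset.sum_congr rfl e1, Finset.sum_comm]
  refine Finset.sum_congr rfl fun a _ => ?_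
  rw [card_eq_ind]
  apply Finset.sum_subset (subset_univ _)
  intro z _ hz
  apply ind_neg
  intro h
  apply hz
  unfold bads
  rw [mem_filter, mem_compl]
  exact ⟨not_mem_of_Xs h, (mem_Xs.1 h).2.2⟩

theorem bracket (hT : Sym3 T) {S : Finset V} (hS : Indep T S) :
    4 / 3 * ((Fintype.card V : ℝ) - S.card - (gs T S).card) +
      1 / 3 * ∑ a ∈ S, ((Xs T S a).card : ℝ) ≤
    2 * ∑ z ∈ Sᶜ, ∑ x ∈ S, (Gr.deg (Lk T z) S x : ℝ) -
      ∑ z ∈ Sᶜ, ∑ x ∈ Gr.cov (Lk T z) S, (Gr.deg (Lk T z) S x : ℝ) -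
      5 / 6 * ∑ z ∈ Sᶜ, ((Gr.cov2 (Lk T z) S).card : ℝ) := by
  rw [← bads_card, ← sum_cov hT hS]
  have e0 : 2 * ∑ z ∈ Sᶜ, ∑ x ∈ S, (Gr.deg (Lk T z) S x : ℝ) -
      ∑ z ∈ Sᶜ, ∑ x ∈ Gr.cov (Lk T z) S, (Gr.deg (Lk T z) S x : ℝ) -
      5 / 6 * ∑ z ∈ Sᶜ, ((Gr.cov2 (Lk T z) S).card : ℝ) =
      ∑ z ∈ Sᶜ, (2 * ∑ x ∈ S, (Gr.deg (Lk T z) S x : ℝ) -
        ∑ x ∈ Gr.cov (Lk T z) S, (Gr.deg (Lk T z) S x : ℝ) -
        5 / 6 * ((Gr.cov2 (Lk T z) S).card : ℝ)) := by
    rw [Finset.sum_sub_distrib, Finset.sum_sub_distrib, Finset.mul_sum, Finset.mul_sum]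
  rw [e0]
  have e1 : 4 / 3 * ((bads T S).card : ℝ) + 1 / 3 * ∑ z ∈ bads T S,
      ((Gr.cov (Lk T z) S).card : ℝ) =
      ∑ z ∈ bads T S, (4 / 3 + 1 / 3 * ((Gr.cov (Lk T z) S).card : ℝ)) := by
    rw [Finset.sum_add_distrib, Finset.sum_const, nsmul_eq_mul, Finset.mul_sum]
    ring
  rw [e1]
  unfold bads
  rw [Finset.sum_filter]
  refine Finset.sum_le_sum fun z hz => ?_
  rw [mem_compl] at hz
  have g := good_iff_edge hT hS (Finset.Subset.refl S) hz
  by_cases hg : Good T S z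
  · rw [if_neg (not_not.2 hg)]
    have hno := g.1 hg
    have hd : ∀ x ∈ S, (Gr.deg (Lk T z) S x : ℝ) = 0 := by
      intro x hx
      rw [Nat.cast_eq_zero]
      unfold Gr.deg
      rw [card_eq_zero, filter_eq_empty_iff]
      intro s hs hsx
      exact hno ⟨s, hs, x, hx, hsx⟩
    have hc : Gr.cov2 (Lk T z) S = ∅ := by
      rw [Finset.eq_empty_iff_forall_notMem]
      intro p hp
      unfold Gr.cov2 at hp
      rw [mem_filter] at hp
      obtain ⟨-, -, -, ⟨u, hu, w, hw, huw⟩, -⟩ := hp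
      exact hno ⟨u, mem_of_mem_erase hu, w, mem_of_mem_erase hw, huw⟩
    have hcs : Gr.cov (Lk T z) S ⊆ S := by unfold Gr.cov; exact filter_subset _ _
    rw [Finset.sum_congr rfl hd, Finset.sum_congr rfl (fun x hx => hd x (hcs hx)), hc]
    simp
  · rw [if_pos hg]
    have hE : Gr.HasEdge (Lk T z) S := by
      by_contra hcon
      exact hg (g.2 hcon)
    exact Gr.main (Lk_symm hT z) (Lk_irr hT z) hE

/-- the sum of the squares of the sizes of the sets `Xs` -/
theorem X2_ge (hl : 0 < lam) (hN : 0 < N1 T lam) :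
    W1 T lam ^ 2 / N1 T lam ≤ av T lam (fun S => ∑ a ∈ S, ((Xs T S a).card : ℝ) ^ 2) := by
  set t := W1 T lam / N1 T lam with ht
  have h : 0 ≤ av T lam (fun S => ∑ a ∈ S, (((Xs T S a).card : ℝ) - t) ^ 2) :=
    av_nonneg hl.le fun S _ => Finset.sum_nonneg fun a _ => sq_nonneg _
  have e : av T lam (fun S => ∑ a ∈ S, (((Xs T S a).card : ℝ) - t) ^ 2) =
      av T lam (fun S => ∑ a ∈ S, ((Xs T S a).card : ℝ) ^ 2) - 2 * t * W1 T lam +
        t ^ 2 * N1 T lam := by
    have : av T lam (fun S => ∑ a ∈ S, (((Xs T S a).card : ℝ) - t) ^ 2) =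
        av T lam (fun S => (∑ a ∈ S, ((Xs T S a).card : ℝ) ^ 2) -
          (2 * t) * ∑ a ∈ S, ((Xs T S a).card : ℝ)) +
        av T lam (fun S => t ^ 2 * (S.card : ℝ)) := by
      rw [← av_add]
      apply av_congr
      intro S _
      rw [Finset.mul_sum, ← Finset.sum_sub_distrib]
      have : t ^ 2 * (S.card : ℝ) = ∑ a ∈ S, t ^ 2 := by
        rw [Finset.sum_const, nsmul_eq_mul]; ring
      rw [this, ← Finset.sum_add_distrib]
      exact Finset.sum_congr rfl fun a _ => by ring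
    rw [this, av_sub, av_smul, av_smul]
    rfl
  rw [e] at h
  have e2 : W1 T lam ^ 2 / N1 T lam = 2 * t * W1 T lam - t ^ 2 * N1 T lam := by
    rw [ht]; field_simp; ring
  rw [e2]
  linarith

/-- **The counting inequality.** -/
theorem count_ineq (hT : Sym3 T) (hl : 0 < lam) (hN : 0 < N1 T lam) {D : ℝ}
    (hD : ∀ v : V, ∑ x : V, ∑ y : V, ind (T v x y) ≤ D) :
    4 / 3 * ((Fintype.card V : ℝ) * Z0 T lam - N1 T lam - N1 T lam / lam) +
      1 / 3 * W1 T lam + 5 / 6 * lam * (W1 T lam ^ 2 / N1 T lam - W1 T lam) ≤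
      lam * N1 T lam * D := by
  have h1 : av T lam (fun S => 2 * P1 T S - P2 T S +
      ∑ x : V, ∑ y : V, (KK T S x y - 1 / 2 * AA T S x y)) ≤ D * N1 T lam := by
    have : av T lam (fun S => D * (S.card : ℝ)) = D * N1 T lam := av_smul D
    rw [← this]
    apply av_mono hl.le
    intro S hS
    refine (pair_bound hT hS).trans ((sum_Cc_le hD S).trans (le_of_eq (by ring)))
  have e1 : av T lam (fun S => 2 * P1 T S - P2 T S +
      ∑ x : V, ∑ y : V, (KK T S x y - 1 / 2 * AA T S x y)) =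
      2 * av T lam (P1 T) - av T lam (P2 T) +
        (av T lam (fun S => ∑ x : V, ∑ y : V, KK T S x y) -
          1 / 2 * av T lam (fun S => ∑ x : V, ∑ y : V, AA T S x y)) := by
    rw [av_add, av_sub, av_smul]
    congr 1
    rw [← av_smul, ← av_sub]
    apply av_congr
    intro S _
    simp only [Finset.sum_sub_distrib, Finset.mul_sum]
  rw [e1] at h1
  have h2 := AA_le (T := T) (lam := lam) hT hl.le
  have h3 : av T lam (fun S => ∑ x : V, ∑ y : V, KK T S x y) =
      av T lam (fun S => ∑ a ∈ S, ((Xs T S a).card : ℝ) ^ 2) - W1 T lam -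
        av T lam (fun S => ∑ a ∈ S, Ch T S a) := by
    unfold W1
    rw [← av_sub, ← av_sub]
    exact av_congr fun S hS => sum_KK hT hS
  have h4 := Ch_av (T := T) (lam := lam) hT
  have h5 := P1_av (T := T) (lam := lam) hT
  have h6 := P2_av (T := T) (lam := lam) hT
  have h7 : 4 / 3 * ((Fintype.card V : ℝ) * Z0 T lam - N1 T lam - N1 T lam / lam) +
      1 / 3 * W1 T lam ≤
      2 * av T lam (fun S => ∑ z ∈ Sᶜ, ∑ x ∈ S, (Gr.deg (Lk T z) S x : ℝ)) -
      av T lam (fun S => ∑ z ∈ Sᶜ, ∑ x ∈ Gr.cov (Lk T z) S, (Gr.deg (Lk T z) S x : ℝ)) -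
      5 / 6 * av T lam (fun S => ∑ z ∈ Sᶜ, ((Gr.cov2 (Lk T z) S).card : ℝ)) := by
    rw [← av_smul, ← av_smul, ← av_sub, ← av_sub]
    have e2 : 4 / 3 * ((Fintype.card V : ℝ) * Z0 T lam - N1 T lam - N1 T lam / lam) +
        1 / 3 * W1 T lam = av T lam (fun S => 4 / 3 * ((Fintype.card V : ℝ) - S.card -
          (gs T S).card) + 1 / 3 * ∑ a ∈ S, ((Xs T S a).card : ℝ)) := by
      rw [av_add, av_smul, av_smul, av_sub, av_sub]
      have e3 : av T lam (fun _ => (Fintype.card V : ℝ)) = (Fintype.card V : ℝ) * Z0 T lam := by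
        unfold Z0
        rw [← av_smul]
        apply av_congr; intro S _; ring
      have e4 : av T lam (fun S => ((gs T S).card : ℝ)) = N1 T lam / lam := by
        rw [N1_eq]; field_simp
      rw [e3, e4]
      rfl
    rw [e2]
    exact av_mono hl.le fun S hS => bracket hT hS
  have h8 := X2_ge (T := T) hl hN
  have h9 : lam * (2 * av T lam (P1 T) - av T lam (P2 T) +
        (av T lam (fun S => ∑ x : V, ∑ y : V, KK T S x y) -
          1 / 2 * av T lam (fun S => ∑ x : V, ∑ y : V, AA T S x y))) ≤ lam * (D * N1 T lam) :=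
    mul_le_mul_of_nonneg_left h1 hl.le
  have h10 : 5 / 6 * (lam * av T lam (fun S => ∑ x : V, ∑ y : V, KK T S x y)) ≤
      lam * (av T lam (fun S => ∑ x : V, ∑ y : V, KK T S x y) -
          1 / 2 * av T lam (fun S => ∑ x : V, ∑ y : V, AA T S x y)) := by
    have := mul_le_mul_of_nonneg_left h2 hl.le
    nlinarith
  have h11 : lam * av T lam (fun S => ∑ x : V, ∑ y : V, KK T S x y) =
      lam * av T lam (fun S => ∑ a ∈ S, ((Xs T S a).card : ℝ) ^ 2) - lam * W1 T lam -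
        av T lam (fun S => ∑ z ∈ Sᶜ, ((Gr.cov2 (Lk T z) S).card : ℝ)) := by
    rw [h3, ← h4]; ring
  have h12 : 5 / 6 * lam * (W1 T lam ^ 2 / N1 T lam - W1 T lam) ≤
      5 / 6 * (lam * av T lam (fun S => ∑ a ∈ S, ((Xs T S a).card : ℝ) ^ 2) -
        lam * W1 T lam) := by
    have := mul_le_mul_of_nonneg_left h8 hl.le
    nlinarith
  have h13 : lam * (2 * av T lam (P1 T) - av T lam (P2 T)) =
      2 * (lam * av T lam (P1 T)) - lam * av T lam (P2 T) := by ring
  rw [h5, h6] at h13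
  have h14 : lam * (2 * av T lam (P1 T) - av T lam (P2 T) +
        (av T lam (fun S => ∑ x : V, ∑ y : V, KK T S x y) -
          1 / 2 * av T lam (fun S => ∑ x : V, ∑ y : V, AA T S x y))) =
      lam * (2 * av T lam (P1 T) - av T lam (P2 T)) +
      lam * (av T lam (fun S => ∑ x : V, ∑ y : V, KK T S x y) -
          1 / 2 * av T lam (fun S => ∑ x : V, ∑ y : V, AA T S x y)) := by ring
  rw [h14, h13] at h9
  have h15 : lam * (D * N1 T lam) = lam * N1 T lam * D := by ring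
  rw [h15] at h9
  rw [h11] at h10
  linarith

end Pool.Agent.K4H88.Tur
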