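import Pool.Agent.K4H88.Tur.Ineq

/-!
# Derivatives and first bounds for the hard-core measure
-/

set_option linter.unusedSectionVars false

open Finset
open scoped Classical

namespace Pool.Agent.K4H88.Tur

variable {V : Type*} [Fintype V] [DecidableEq V] {T : V → V → V → Prop} {lam : ℝ}

theorem av_deriv (hl : 0 < lam) (F : Finset V → ℝ) :
    HasDerivAt (fun l => av T l F) (av T lam (fun S => (S.card : ℝ) * F S) / lam) lam := by
  unfold av
  have h1 : ∀ S ∈ Ind T, HasDerivAt (fun l : ℝ => l ^ S.card * F S)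
      (((S.card : ℕ) : ℝ) * lam ^ (S.card - 1) * F S) lam := fun S _ =>
    (hasDerivAt_pow S.card lam).mul_const (F S)
  have h2 := HasDerivAt.fun_sum h1
  have e : (∑ S ∈ Ind T, lam ^ S.card * ((S.card : ℝ) * F S)) / lam =
      ∑ S ∈ Ind T, ((S.card : ℕ) : ℝ) * lam ^ (S.card - 1) * F S := by
    rw [Finset.sum_div]
    refine Finset.sum_congr rfl fun S _ => ?_
    rcases Nat.eq_zero_or_pos S.card with h | h
    · rw [h]; simp
    · have : lam ^ S.card = lam ^ (S.card - 1) * lam := by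
        rw [← pow_succ, Nat.sub_add_cancel h]
      rw [this]; field_simp
  rw [e]
  exact h2

theorem Z0_deriv (hl : 0 < lam) : HasDerivAt (fun l => Z0 T l) (N1 T lam / lam) lam := by
  have h := av_deriv (T := T) hl (fun _ => (1 : ℝ))
  have e : av T lam (fun S => (S.card : ℝ) * 1) = N1 T lam := by
    unfold N1; apply av_congr; intro S _; ring
  rw [e] at h
  exact h

theorem N1_deriv (hl : 0 < lam) : HasDerivAt (fun l => N1 T l) (N2 T lam / lam) lam := by
  have h := av_deriv (T := T) hl (fun S => (S.card : ℝ))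
  have e : av T lam (fun S => (S.card : ℝ) * (S.card : ℝ)) = N2 T lam := by
    unfold N2; apply av_congr; intro S _; ring
  rw [e] at h
  exact h

theorem empty_mem : (∅ : Finset V) ∈ Ind T := by
  rw [mem_Ind]; intro x hx; simp at hx

theorem N1_nonneg (hl : 0 ≤ lam) : 0 ≤ N1 T lam := av_nonneg hl fun S _ => by positivity

theorem W1_nonneg (hl : 0 ≤ lam) : 0 ≤ W1 T lam :=
  av_nonneg hl fun S _ => Finset.sum_nonneg fun _ _ => by positivity

theorem singleton_mem (hT : Sym3 T) (x : V) : ({x} : Finset V) ∈ Ind T := by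
  rw [mem_Ind]
  intro p hp q hq r hr h
  rw [mem_singleton] at hp hq
  exact hT.ne h (hp.trans hq.symm)

theorem N1_pos (hT : Sym3 T) (hl : 0 < lam) (x : V) : 0 < N1 T lam := by
  unfold N1 av
  have h1 : lam ^ ({x} : Finset V).card * ((({x} : Finset V).card : ℕ) : ℝ) ≤
      ∑ S ∈ Ind T, lam ^ S.card * (S.card : ℝ) :=
    Finset.single_le_sum (f := fun S : Finset V => lam ^ S.card * (S.card : ℝ))
      (fun S _ => by positivity) (singleton_mem hT x)
  rw [card_singleton] at h1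
  have : (0 : ℝ) < lam ^ 1 * ((1 : ℕ) : ℝ) := by simpa using hl
  linarith

theorem N1_le (hl : 0 < lam) {a : ℝ} (ha : ∀ S : Finset V, Indep T S → (S.card : ℝ) ≤ a) :
    N1 T lam ≤ a * Z0 T lam := by
  unfold N1 Z0
  rw [← av_smul]
  exact av_mono hl.le fun S hS => by rw [mul_one]; exact ha S hS

/-- `N1 ≤ lam n Z0` -/
theorem N1_le_lam (hl : 0 < lam) : N1 T lam ≤ lam * (Fintype.card V * Z0 T lam) := by
  rw [N1_eq]
  apply mul_le_mul_of_nonneg_left _ hl.le
  unfold Z0
  rw [← av_smul]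
  refine av_mono hl.le fun S _ => ?_
  rw [mul_one]
  exact_mod_cast card_le_univ _

theorem pair_av (hl : 0 < lam) (F : V → V → ℝ) (hF : ∀ p q, 0 ≤ F p q) :
    av T lam (fun S => ∑ p ∈ S, ∑ q ∈ S.erase p, F p q) ≤
      lam ^ 2 * Z0 T lam * ∑ p : V, ∑ q : V, F p q := by
  rw [reversal lam (fun S p => ∑ q ∈ S, F p q)]
  have h1 : av T lam (fun S => ∑ p ∈ gs T S, ∑ q ∈ S, F p q) ≤
      av T lam (fun S => ∑ q ∈ S, ∑ p : V, F p q) := by
    refine av_mono hl.le fun S _ => ?_
    rw [Finset.sum_comm]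
    exact Finset.sum_le_sum fun q _ =>
      Finset.sum_le_sum_of_subset_of_nonneg (subset_univ _) fun p _ _ => hF p q
  have h2 : av T lam (fun S => ∑ q ∈ S, ∑ p : V, F p q) ≤
      lam * (Z0 T lam * ∑ p : V, ∑ q : V, F p q) := by
    rw [reversal lam (fun _ q => ∑ p : V, F p q)]
    apply mul_le_mul_of_nonneg_left _ hl.le
    have e : Z0 T lam * ∑ p : V, ∑ q : V, F p q =
        av T lam (fun _ => (∑ p : V, ∑ q : V, F p q) * 1) := by
      rw [av_smul]; unfold Z0; ring
    rw [e]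
    refine av_mono hl.le fun S _ => ?_
    rw [mul_one, Finset.sum_comm (s := univ) (t := univ)]
    exact Finset.sum_le_sum_of_subset_of_nonneg (subset_univ _) fun q _ _ =>
      Finset.sum_nonneg fun p _ => hF p q
  calc lam * av T lam (fun S => ∑ p ∈ gs T S, ∑ q ∈ S, F p q) ≤
      lam * (lam * (Z0 T lam * ∑ p : V, ∑ q : V, F p q)) :=
        mul_le_mul_of_nonneg_left (h1.trans h2) hl.le
    _ = _ := by ring

theorem bads_le (hT : Sym3 T) {S : Finset V} (hS : Indep T S) :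
    ((bads T S).card : ℝ) ≤ 1 / 2 * ∑ p ∈ S, ∑ q ∈ S.erase p, ∑ z : V, ind (T p q z) := by
  have h1 : ∀ z ∈ bads T S, (2 : ℝ) ≤ ∑ p ∈ S, ∑ q ∈ S.erase p, ind (T p q z) := by
    intro z hz
    unfold bads at hz
    rw [mem_filter, mem_compl] at hz
    have hE : Gr.HasEdge (Lk T z) S := by
      by_contra hcon
      exact hz.2 ((good_iff_edge hT hS (Finset.Subset.refl S) hz.1).2 hcon)
    obtain ⟨p, hp, q, hq, hpq⟩ := hE
    have hpq' : T p q z := hpq
    have hne := hT.ne hpq'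
    have e1 : ind (T p q z) ≤ ∑ q' ∈ S.erase p, ind (T p q' z) :=
      Finset.single_le_sum (f := fun q' => ind (T p q' z)) (fun _ _ => ind_nonneg _)
        (mem_erase.2 ⟨hne.symm, hq⟩)
    have e2 : ind (T q p z) ≤ ∑ q' ∈ S.erase q, ind (T q q' z) :=
      Finset.single_le_sum (f := fun q' => ind (T q q' z)) (fun _ _ => ind_nonneg _)
        (mem_erase.2 ⟨hne, hp⟩)
    rw [ind_pos hpq'] at e1
    rw [ind_pos (hT.s12 hpq')] at e2
    have e3 : ∑ p' ∈ ({p, q} : Finset V), ∑ q' ∈ S.erase p', ind (T p' q' z) ≤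
        ∑ p' ∈ S, ∑ q' ∈ S.erase p', ind (T p' q' z) := by
      apply Finset.sum_le_sum_of_subset_of_nonneg
      · intro u hu
        rw [mem_insert, mem_singleton] at hu
        rcases hu with rfl | rfl
        · exact hp
        · exact hq
      · exact fun _ _ _ => Finset.sum_nonneg fun _ _ => ind_nonneg _
    rw [Finset.sum_pair hne] at e3
    linarith
  have h2 : ((bads T S).card : ℝ) * 2 ≤ ∑ z ∈ bads T S, ∑ p ∈ S, ∑ q ∈ S.erase p,
      ind (T p q z) := by
    calc ((bads T S).card : ℝ) * 2 = ∑ z ∈ bads T S, (2 : ℝ) := by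
          rw [Finset.sum_const, nsmul_eq_mul]
      _ ≤ _ := Finset.sum_le_sum h1
  have h3 : ∑ z ∈ bads T S, ∑ p ∈ S, ∑ q ∈ S.erase p, ind (T p q z) ≤
      ∑ z : V, ∑ p ∈ S, ∑ q ∈ S.erase p, ind (T p q z) :=
    Finset.sum_le_sum_of_subset_of_nonneg (subset_univ _) fun _ _ _ =>
      Finset.sum_nonneg fun _ _ => Finset.sum_nonneg fun _ _ => ind_nonneg _
  have h4 : ∑ z : V, ∑ p ∈ S, ∑ q ∈ S.erase p, ind (T p q z) =
      ∑ p ∈ S, ∑ q ∈ S.erase p, ∑ z : V, ind (T p q z) := by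
    rw [Finset.sum_comm]
    exact Finset.sum_congr rfl fun p _ => Finset.sum_comm
  rw [h4] at h3
  linarith

theorem union_bound (hT : Sym3 T) (hl : 0 < lam) {D : ℝ}
    (hD : ∀ v : V, ∑ x : V, ∑ y : V, ind (T v x y) ≤ D) :
    (Fintype.card V : ℝ) * Z0 T lam - N1 T lam / lam ≤
      N1 T lam + 1 / 2 * lam ^ 2 * (Fintype.card V * D) * Z0 T lam := by
  have e4 : av T lam (fun S => ((gs T S).card : ℝ)) = N1 T lam / lam := by
    rw [N1_eq]; field_simp
  have e3 : av T lam (fun _ => (Fintype.card V : ℝ)) = (Fintype.card V : ℝ) * Z0 T lam := by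
    unfold Z0
    rw [← av_smul]
    apply av_congr; intro S _; ring
  have h1 : (Fintype.card V : ℝ) * Z0 T lam - N1 T lam / lam - N1 T lam =
      av T lam (fun S => ((bads T S).card : ℝ)) := by
    rw [← e3, ← e4]
    unfold N1
    rw [← av_sub, ← av_sub]
    apply av_congr
    intro S _
    rw [bads_card]; ring
  have h2 : av T lam (fun S => ((bads T S).card : ℝ)) ≤
      av T lam (fun S => 1 / 2 * ∑ p ∈ S, ∑ q ∈ S.erase p, ∑ z : V, ind (T p q z)) :=
    av_mono hl.le fun S hS => bads_le hT hS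
  rw [av_smul] at h2
  have h3 := pair_av (T := T) hl (fun p q => ∑ z : V, ind (T p q z))
    (fun p q => Finset.sum_nonneg fun _ _ => ind_nonneg _)
  have h4 : ∑ p : V, ∑ q : V, ∑ z : V, ind (T p q z) ≤ Fintype.card V * D := by
    calc ∑ p : V, ∑ q : V, ∑ z : V, ind (T p q z) ≤ ∑ p : V, D :=
          Finset.sum_le_sum fun p _ => hD p
      _ = _ := by rw [Finset.sum_const, nsmul_eq_mul, card_univ]
  have h5 : lam ^ 2 * Z0 T lam * ∑ p : V, ∑ q : V, ∑ z : V, ind (T p q z) ≤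
      lam ^ 2 * Z0 T lam * (Fintype.card V * D) :=
    mul_le_mul_of_nonneg_left h4 (mul_nonneg (sq_nonneg _) (Z0_pos hl).le)
  linarith

end Pool.Agent.K4H88.Tur
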