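import Pool.Agent.K4H88.Tur.Barrier

/-!
# No ternary relation with small degrees and small independent sets
-/

set_option linter.unusedSectionVars false

open Finset
open scoped Classical

namespace Pool.Agent.K4H88.Tur

theorem no_T {φ φ' : ℝ → ℝ} {W : ℝ} (hφ : IsBarrier φ φ' W) (hW : 0 < W) {a t0 τ : ℝ}
    (ha : 0 < a) (ht0 : 0 ≤ t0) (hτ : t0 < τ) (haW : τ * a ^ 2 < W ^ 2) :
    ∃ n0 : ℕ, ∀ (V : Type) [Fintype V] [DecidableEq V] (T : V → V → V → Prop), Sym3 T →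
      n0 ≤ Fintype.card V → (∀ S : Finset V, Indep T S → (S.card : ℝ) ≤ a) →
      ¬ (∀ v : V, ∑ x : V, ∑ y : V, ind (T v x y) ≤ t0 * (Fintype.card V : ℝ) ^ 2) := by
  have hτ0 : 0 < τ := lt_of_le_of_lt ht0 hτ
  set s := Real.sqrt τ with hs
  have hs0 : 0 < s := Real.sqrt_pos.2 hτ0
  have hs2 : s ^ 2 = τ := Real.sq_sqrt hτ0.le
  have hsa : s * a < W := by
    apply lt_of_pow_lt_pow_left₀ 2 hW.le
    rw [mul_pow, hs2]; exact haW
  have hsa0 : 0 < s * a := mul_pos hs0 ha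
  have hφc : Continuous φ := continuous_iff_continuousAt.2 fun v => (hφ.deriv v).continuousAt
  -- δ
  obtain ⟨δ, hδ0, hδ⟩ := pos_lower (g := fun v => 1 - φ v) (continuous_const.sub hφc)
    (l := 0) (r := s * a) (fun v hv => by
      have := hφ.lt_one v hv.1 (lt_of_le_of_lt hv.2 hsa)
      show 0 < 1 - φ v
      linarith)
  set Λ1 := a / δ + 1 with hΛ1
  set M := τ ^ 2 + τ * t0 + 1 with hM
  have hM0 : 0 < M := by positivity
  set Λ0 := min 1 ((τ - t0) / (8 * M)) with hΛ0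
  have hΛ0pos : 0 < Λ0 := lt_min one_pos (div_pos (by linarith) (by positivity))
  have hΛ0le : Λ0 ≤ 1 := min_le_left _ _
  have hΛ0M : Λ0 * M ≤ (τ - t0) / 8 := by
    have : Λ0 ≤ (τ - t0) / (8 * M) := min_le_right _ _
    calc Λ0 * M ≤ (τ - t0) / (8 * M) * M := mul_le_mul_of_nonneg_right this hM0.le
      _ = (τ - t0) / 8 := by field_simp
  have hΛ01 : Λ0 ≤ Λ1 := by
    have : 0 < a / δ := div_pos ha hδ0
    linarith
  set v0 := s * (Λ0 * δ) with hv0
  have hv0pos : 0 < v0 := mul_pos hs0 (mul_pos hΛ0pos hδ0)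
  have hKc : Continuous (KB φ φ') := by
    unfold KB
    have := hφ.cont
    fun_prop
  obtain ⟨κ, hκ0, hκ⟩ := pos_lower hKc (l := v0) (r := s * a) (fun v hv =>
    hφ.pos v (lt_of_lt_of_le hv0pos hv.1) (lt_of_le_of_lt hv.2 hsa))
  have hpc : Continuous (fun v => v * φ' v) := continuous_id.mul hφ.cont
  obtain ⟨π₀, hπ0, hπ⟩ := pos_lower hpc (l := v0) (r := s * a) (fun v hv =>
    hφ.incr v (lt_of_lt_of_le hv0pos hv.1) (lt_of_le_of_lt hv.2 hsa))
  obtain ⟨P, hP0, hP⟩ := upper hpc v0 (s * a)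
  obtain ⟨n0, hn0⟩ := exists_nat_gt (a * (5 / 2 * P + 5 / 3) / κ + 2 * a / π₀ +
    (1 / Λ0 + τ * Λ0) * (8 / (τ - t0)) + 1)
  refine ⟨n0, fun V _ _ T hT hn hS hD => ?_⟩
  set n : ℝ := (Fintype.card V : ℝ) with hnd
  have hnn0 : (n0 : ℝ) ≤ n := by rw [hnd]; exact_mod_cast hn
  have q1 : 0 ≤ a * (5 / 2 * P + 5 / 3) / κ := by positivity
  have q2 : 0 ≤ 2 * a / π₀ := by positivity
  have q3 : 0 ≤ (1 / Λ0 + τ * Λ0) * (8 / (τ - t0)) := by
    have : 0 < τ - t0 := by linarith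
    positivity
  have hnpos : 0 < n := by linarith
  have c1 : a / n * (5 / 2 * P + 5 / 3) < κ := by
    have : a * (5 / 2 * P + 5 / 3) / κ < n := by linarith
    rw [div_lt_iff₀ hκ0] at this
    rw [div_mul_eq_mul_div, div_lt_iff₀ hnpos]
    linarith
  have c2 : 2 * a / n ≤ π₀ := by
    have : 2 * a / π₀ < n := by linarith
    rw [div_lt_iff₀ hπ0] at this
    rw [div_le_iff₀ hnpos]
    linarith
  have c3 : 1 / Λ0 / n + τ * Λ0 / n ≤ (τ - t0) / 8 := by
    have h : (1 / Λ0 + τ * Λ0) * (8 / (τ - t0)) < n := by linarith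
    have hτt : 0 < τ - t0 := by linarith
    have e : 1 / Λ0 / n + τ * Λ0 / n = (1 / Λ0 + τ * Λ0) / n := by ring
    rw [e, div_le_iff₀ hnpos]
    rw [mul_div_assoc', div_lt_iff₀ hτt] at h
    linarith
  -- the two functions
  have hsub : ∀ L ∈ Set.Icc Λ0 Λ1, 0 < L := fun L hL => lt_of_lt_of_le hΛ0pos hL.1
  have hνd : ∀ L, 0 < L → HasDerivAt (nu T) (vr T L / L) L := fun L hL => nu_deriv hnpos hL
  have hf : ∀ L, 0 < L → HasDerivAt (fun L => 1 - nu T L / L)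
      (-((vr T L / L * L - nu T L * 1) / L ^ 2)) L := by
    intro L hL
    have h1 := ((hνd L hL).div (hasDerivAt_id L) hL.ne')
    exact h1.const_sub 1
  have hB : ∀ L, 0 < L → HasDerivAt (fun L => φ (s * nu T L))
      (φ' (s * nu T L) * (s * (vr T L / L))) L := by
    intro L hL
    have h1 : HasDerivAt (fun L => s * nu T L) (s * (vr T L / L)) L := (hνd L hL).const_mul s
    exact HasDerivAt.comp L (hφ.deriv _) h1
  have hmain := image_le_of_deriv_right_lt_deriv_boundary'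
    (f := fun L => 1 - nu T L / L) (f' := fun L => -((vr T L / L * L - nu T L * 1) / L ^ 2))
    (a := Λ0) (b := Λ1)
    (fun L hL => (hf L (hsub L hL)).continuousAt.continuousWithinAt)
    (fun L hL => (hf L (hsub L (Set.Ico_subset_Icc_self hL))).hasDerivWithinAt)
    (B := fun L => φ (s * nu T L)) (B' := fun L => φ' (s * nu T L) * (s * (vr T L / L)))
    (by
      -- the initial inequality
      show 1 - nu T Λ0 / Λ0 ≤ φ (s * nu T Λ0)
      have hν0 : 0 < nu T Λ0 := nu_pos hT hnpos hΛ0pos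
      have hνL : nu T Λ0 ≤ Λ0 := nu_le_L hnpos hΛ0pos
      have hνa : nu T Λ0 ≤ a := nu_le hnpos hΛ0pos hS
      have hu := union_norm (T := T) hT hnpos hΛ0pos hD
      rw [← hnd] at hu
      set ν := nu T Λ0 with hν
      have hv : s * ν < W := lt_of_le_of_lt (mul_le_mul_of_nonneg_left hνa hs0.le) hsa
      have hlow := hφ.low (s * ν) (mul_nonneg hs0.le hν0.le) hv
      have e2 : (s * ν) ^ 2 = τ * ν ^ 2 := by rw [mul_pow, hs2]
      have e4 : (s * ν) ^ 4 = τ ^ 2 * ν ^ 4 := by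
        have : (s * ν) ^ 4 = ((s * ν) ^ 2) ^ 2 := by ring
        rw [this, e2]; ring
      rw [e2, e4] at hlow
      -- ν = Λ0 (1 - y)
      set e := Λ0 / n + 1 / 2 * Λ0 ^ 2 * t0 with he
      have hy : 1 - ν / Λ0 ≤ e := by
        refine hu.trans ?_
        rw [he]
        have : ν / n ≤ Λ0 / n := div_le_div_of_nonneg_right hνL hnpos.le
        linarith
      have hνlow : Λ0 * (1 - e) ≤ ν := by
        have h1 : 1 - e ≤ ν / Λ0 := by linarith
        have h2 := mul_le_mul_of_nonneg_left h1 hΛ0pos.le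
        have h3 : Λ0 * (ν / Λ0) = ν := by field_simp
        linarith
      have hΛt : Λ0 ^ 2 ≤ Λ0 := by nlinarith
      have hν2 : Λ0 ^ 2 * (1 - 2 * e) ≤ ν ^ 2 := by
        -- ν² ≥ Λ0² - 2 Λ0 (Λ0 - ν)
        have h1 : Λ0 - ν ≤ Λ0 * e := by nlinarith
        nlinarith [sq_nonneg (Λ0 - ν), mul_le_mul_of_nonneg_left h1 hΛ0pos.le]
      have hν4 : ν ^ 4 ≤ Λ0 ^ 4 := pow_le_pow_left₀ hν0.le hνL 4
      have hmain2 : e ≤ τ / 2 * (Λ0 ^ 2 * (1 - 2 * e)) - τ ^ 2 * Λ0 ^ 4 := by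
        -- divide by Λ0²
        have hdiv : 1 / Λ0 / n + t0 / 2 ≤ τ / 2 - τ * (Λ0 / n + 1 / 2 * Λ0 ^ 2 * t0) -
            τ ^ 2 * Λ0 ^ 2 := by
          have h5 : Λ0 ^ 2 * M ≤ (τ - t0) / 8 :=
            (mul_le_mul_of_nonneg_right hΛt hM0.le).trans hΛ0M
          have h6 : τ * (1 / 2 * Λ0 ^ 2 * t0) + τ ^ 2 * Λ0 ^ 2 ≤ Λ0 ^ 2 * M := by
            rw [hM]
            have : 0 ≤ Λ0 ^ 2 * (τ * t0) := by positivity
            nlinarith [sq_nonneg Λ0]
          have h7 : τ * (Λ0 / n) = τ * Λ0 / n := by ring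
          nlinarith
        have h8 := mul_le_mul_of_nonneg_left hdiv (sq_nonneg Λ0)
        have h9 : Λ0 ^ 2 * (1 / Λ0 / n + t0 / 2) = e := by
          rw [he]; field_simp
        rw [h9] at h8
        refine h8.trans (le_of_eq ?_)
        rw [he]; ring
      have h10 : τ / 2 * (Λ0 ^ 2 * (1 - 2 * e)) ≤ τ * ν ^ 2 / 2 := by
        have := mul_le_mul_of_nonneg_left hν2 (by positivity : 0 ≤ τ / 2)
        linarith
      have h11 : τ ^ 2 * ν ^ 4 ≤ τ ^ 2 * Λ0 ^ 4 :=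
        mul_le_mul_of_nonneg_left hν4 (sq_nonneg τ)
      linarith)
    (fun L hL => (hB L (hsub L hL)).continuousAt.continuousWithinAt)
    (fun L hL => (hB L (hsub L (Set.Ico_subset_Icc_self hL))).hasDerivWithinAt)
    (by
      intro L hL hcr
      have hLpos := hsub L (Set.Ico_subset_Icc_self hL)
      have hcr' : 1 - nu T L / L = φ (s * nu T L) := hcr
      have hνa : nu T L ≤ a := nu_le hnpos hLpos hS
      have hν0 : 0 < nu T L := nu_pos hT hnpos hLpos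
      have hv1 : s * nu T L ≤ s * a := mul_le_mul_of_nonneg_left hνa hs0.le
      have hv00 : 0 ≤ s * nu T L := mul_nonneg hs0.le hν0.le
      have hδ' : δ ≤ 1 - φ (s * nu T L) := hδ _ ⟨hv00, hv1⟩
      have hxδ : δ ≤ nu T L / L := by linarith
      have hνlow : Λ0 * δ ≤ nu T L := by
        rw [le_div_iff₀ hLpos] at hxδ
        have : Λ0 * δ ≤ L * δ := mul_le_mul_of_nonneg_right hL.1 hδ0.le
        linarith
      have hv0' : v0 ≤ s * nu T L := mul_le_mul_of_nonneg_left hνlow hs0.le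
      have hmem : s * nu T L ∈ Set.Icc v0 (s * a) := ⟨hv0', hv1⟩
      have hc := crossing (φ := φ) (φ' := φ') (T := T) (κ := κ) (π₀ := π₀) (P := P) hT hnpos
        hLpos hτ0 hτ.le hS hD hcr' (hκ _ hmem) (hπ _ hmem) hπ0 (hP _ hmem) c1 c2
      show -((vr T L / L * L - nu T L * 1) / L ^ 2) < φ' (s * nu T L) * (s * (vr T L / L))
      rw [← hs] at hc
      have e1 : -((vr T L / L * L - nu T L * 1) / L ^ 2) = (nu T L - vr T L) / L ^ 2 := by
        field_simp; ring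
      have e2 : φ' (s * nu T L) * (s * (vr T L / L)) =
          (vr T L * (s * L * φ' (s * nu T L))) / L ^ 2 := by
        field_simp
      rw [e1, e2]
      apply div_lt_div_of_pos_right _ (by positivity)
      linarith)
    (Set.right_mem_Icc.2 hΛ01)
  -- the contradiction at Λ1
  have hΛ1pos : 0 < Λ1 := lt_of_lt_of_le hΛ0pos hΛ01
  have hνa : nu T Λ1 ≤ a := nu_le hnpos hΛ1pos hS
  have hν0 : 0 < nu T Λ1 := nu_pos hT hnpos hΛ1pos
  have hv1 : s * nu T Λ1 ≤ s * a := mul_le_mul_of_nonneg_left hνa hs0.le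
  have hδ' : δ ≤ 1 - φ (s * nu T Λ1) := hδ _ ⟨mul_nonneg hs0.le hν0.le, hv1⟩
  have hm : 1 - nu T Λ1 / Λ1 ≤ φ (s * nu T Λ1) := hmain
  have h1 : δ ≤ nu T Λ1 / Λ1 := by linarith
  rw [le_div_iff₀ hΛ1pos] at h1
  have h2 : δ * Λ1 = a + δ := by rw [hΛ1]; field_simp
  linarith

end Pool.Agent.K4H88.Tur
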